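import Mathlib

set_option autoImplicit false

/-!
# Logarithms of chromatic numbers
-/

namespace Pool.Agent.Run7.h671

lemma logb_chi_le {V : Type*} (G : SimpleGraph V) (N : ℕ) (h : G.Colorable N) :
    Real.logb 2 (G.chromaticNumber.toNat : ℝ) ≤ Real.logb 2 (N : ℝ) := by
  have hle : G.chromaticNumber.toNat ≤ N := by
    have := ENat.toNat_le_toNat h.chromaticNumber_le (ENat.natCast_ne_top _)
    rwa [ENat.toNat_natCast] at this
  rcases Nat.eq_zero_or_pos G.chromaticNumber.toNat with h3 | h3
  · rw [h3, Nat.cast_zero, Real.logb_zero]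
    rcases N with _ | n
    · simp
    · exact Real.logb_nonneg (by norm_num) (by push_cast; linarith [Nat.cast_nonneg (α := ℝ) n])
  · apply Real.logb_le_logb_of_le (by norm_num) (by exact_mod_cast h3)
    exact_mod_cast hle

lemma logb_chi_le' {V : Type*} (G : SimpleGraph V) (t N : ℕ) (h : G.Colorable (t * N))
    (hN : 0 < N) :
    Real.logb 2 (G.chromaticNumber.toNat : ℝ) ≤ Real.logb 2 (t : ℝ) + Real.logb 2 (N : ℝ) := by
  have h1 := logb_chi_le G _ h
  rcases Nat.eq_zero_or_pos t with h0 | h0
  · subst h0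
    have h2 : 0 ≤ Real.logb 2 (N : ℝ) := Real.logb_nonneg (by norm_num) (by exact_mod_cast hN)
    simp only [zero_mul, Nat.cast_zero, Real.logb_zero, zero_add] at h1 ⊢
    exact h1.trans h2
  · rw [Nat.cast_mul, Real.logb_mul (by exact_mod_cast h0.ne') (by exact_mod_cast hN.ne')] at h1
    exact h1

end Pool.Agent.Run7.h671
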