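import Pool.Agent.Run7.h671.FrBool

set_option autoImplicit false

/-!
# Boolean operations: when the union is available

If a set of rows is closed under an operation which is not a conjunction, one which is not
intersecting, one which is not affine and one which is not self-dual, then it is closed under unions.
-/

namespace Pool.Agent.Run7.h671.PB

open Finset Pool.Agent.Run7.h671 FB

variable {k : ℕ}

/-- affine over the field with two elements -/
def Affine (g : (Fin k → Bool) → Bool) : Prop :=
  ∀ a b c : Fin k → Bool, g (fun j => xor (a j) (xor (b j) (c j))) = xor (g a) (xor (g b) (g c))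

/-- self-dual -/
def SelfDual (g : (Fin k → Bool) → Bool) : Prop :=
  ∀ a : Fin k → Bool, g (fun j => !a j) = !g a

/-- an operation which is not affine is not additive for some pair of disjoint supports -/
lemma not_affine {g : (Fin k → Bool) → Bool} (h : ¬ Affine g) :
    ∃ u v : Fin k → Bool, (∀ j, ¬ (u j = true ∧ v j = true)) ∧
      xor (xor (g (fun _ => false)) (g u)) (xor (g v) (g (fun j => u j || v j))) = true := by
  by_contra hcon
  push Not at hcon
  have key : ∀ u v : Fin k → Bool, (∀ j, ¬ (u j = true ∧ v j = true)) →
      g (fun j => u j || v j) = xor (g (fun _ => false)) (xor (g u) (g v)) := by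
    intro u v huv
    have h1 := hcon u v (fun j hj => by
      by_contra h2
      exact huv j ⟨hj, by simpa using h2⟩)
    revert h1
    cases g (fun _ => false) <;> cases g u <;> cases g v <;> cases g (fun j => u j || v j) <;> simp
  have sym : ∀ a b : Fin k → Bool,
      g (fun j => xor (a j) (b j)) = xor (g (fun _ => false)) (xor (g a) (g b)) := by
    intro a b
    have h1 := key (fun j => a j && !b j) (fun j => a j && b j) (by
      intro j
      cases a j <;> cases b j <;> simp)
    have h2 := key (fun j => b j && !a j) (fun j => a j && b j) (by
      intro j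
      cases a j <;> cases b j <;> simp)
    have h3 := key (fun j => a j && !b j) (fun j => b j && !a j) (by
      intro j
      cases a j <;> cases b j <;> simp)
    have e1 : (fun j => (a j && !b j) || (a j && b j)) = a := by
      funext j
      cases a j <;> cases b j <;> rfl
    have e2 : (fun j => (b j && !a j) || (a j && b j)) = b := by
      funext j
      cases a j <;> cases b j <;> rfl
    have e3 : (fun j => (a j && !b j) || (b j && !a j)) = fun j => xor (a j) (b j) := by
      funext j
      cases a j <;> cases b j <;> rfl
    rw [e1] at h1
    rw [e2] at h2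
    rw [e3] at h3
    rw [h1, h2, h3]
    cases g (fun _ => false) <;> cases g (fun j => a j && !b j) <;>
      cases g (fun j => a j && b j) <;> cases g (fun j => b j && !a j) <;> rfl
  apply h
  intro a b c
  rw [sym a (fun j => xor (b j) (c j)), sym b c]
  cases g (fun _ => false) <;> cases g a <;> cases g b <;> cases g c <;> rfl

lemma not_affine_dual {g : (Fin k → Bool) → Bool} (h : ¬ Affine g) :
    ∃ u v : Fin k → Bool, (∀ j, ¬ (u j = true ∧ v j = true)) ∧
      xor (xor (g (fun _ => true)) (g (fun j => !u j)))
        (xor (g (fun j => !v j)) (g (fun j => !(u j || v j)))) = true := by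
  have h' : ¬ Affine (fun a : Fin k → Bool => g (fun j => !a j)) := by
    intro h2
    apply h
    intro a b c
    have h3 := h2 (fun j => !a j) (fun j => !b j) (fun j => !c j)
    simp only [Bool.not_not] at h3
    rw [← h3]
    congr 1
    funext j
    cases a j <;> cases b j <;> cases c j <;> rfl
  obtain ⟨u, v, h1, h2⟩ := not_affine h'
  exact ⟨u, v, h1, h2⟩

variable {X Y : Type*}

/-- a binary operation which is not affine is available if the zero row is -/
lemma odd_of_zero (M : X → Y → Bool) {g : (Fin k → Bool) → Bool} (hg : ClosedUnder g M)
    (hna : ¬ Affine g) (z : X) (hz : ∀ y, M z y = false) :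
    ∃ w : Bool → Bool → Bool, (∀ a b, ∃ d, ∀ y, M d y = w (M a y) (M b y)) ∧
      xor (xor (w false false) (w true false)) (xor (w false true) (w true true)) = true := by
  classical
  obtain ⟨u, v, huv, h⟩ := not_affine hna
  refine ⟨fun p q => g (fun j => if u j = true then p else if v j = true then q else false),
    fun a b => ?_, ?_⟩
  · obtain ⟨d, hd⟩ := hg (fun j => if u j = true then a else if v j = true then b else z)
    refine ⟨d, fun y => ?_⟩
    rw [hd]
    congr 1
    funext j
    split_ifs
    · rfl
    · rfl
    · exact hz y
  · have e00 : (fun j => if u j = true then false else if v j = true then false else false) =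
        fun _ : Fin k => false := by
      funext j
      split_ifs <;> rfl
    have e10 : (fun j => if u j = true then true else if v j = true then false else false) = u := by
      funext j
      by_cases h1 : u j = true
      · simp [h1]
      · simp [h1]
    have e01 : (fun j => if u j = true then false else if v j = true then true else false) = v := by
      funext j
      by_cases h1 : u j = true
      · have h2 : v j = false := by
          by_contra h3
          exact huv j ⟨h1, by simpa using h3⟩
        simp [h1, h2]
      · by_cases h2 : v j = true <;> simp [h1, h2]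
    have e11 : (fun j => if u j = true then true else if v j = true then true else false) =
        fun j => u j || v j := by
      funext j
      by_cases h1 : u j = true
      · simp [h1]
      · by_cases h2 : v j = true <;> simp [h1, h2]
    simp only
    rw [e11, e01, e10, e00]
    exact h

lemma odd_of_one (M : X → Y → Bool) {g : (Fin k → Bool) → Bool} (hg : ClosedUnder g M)
    (hna : ¬ Affine g) (t : X) (ht : ∀ y, M t y = true) :
    ∃ w : Bool → Bool → Bool, (∀ a b, ∃ d, ∀ y, M d y = w (M a y) (M b y)) ∧
      xor (xor (w false false) (w true false)) (xor (w false true) (w true true)) = true := by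
  classical
  obtain ⟨u, v, huv, h⟩ := not_affine_dual hna
  refine ⟨fun p q => g (fun j => if u j = true then p else if v j = true then q else true),
    fun a b => ?_, ?_⟩
  · obtain ⟨d, hd⟩ := hg (fun j => if u j = true then a else if v j = true then b else t)
    refine ⟨d, fun y => ?_⟩
    rw [hd]
    congr 1
    funext j
    split_ifs
    · rfl
    · rfl
    · exact ht y
  · have e11 : (fun j => if u j = true then true else if v j = true then true else true) =
        fun _ : Fin k => true := by
      funext j
      split_ifs <;> rfl
    have e01 : (fun j => if u j = true then false else if v j = true then true else true) =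
        fun j => !u j := by
      funext j
      by_cases h1 : u j = true
      · simp [h1]
      · simp [h1]
    have e10 : (fun j => if u j = true then true else if v j = true then false else true) =
        fun j => !v j := by
      funext j
      by_cases h1 : u j = true
      · have h2 : v j = false := by
          by_contra h3
          exact huv j ⟨h1, by simpa using h3⟩
        simp [h1, h2]
      · by_cases h2 : v j = true <;> simp [h1, h2]
    have e00 : (fun j => if u j = true then false else if v j = true then false else true) =
        fun j => !(u j || v j) := by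
      funext j
      by_cases h1 : u j = true
      · simp [h1]
      · by_cases h2 : v j = true <;> simp [h1, h2]
    simp only
    rw [e11, e01, e10, e00]
    revert h
    cases g (fun _ => true) <;> cases g (fun j => !u j) <;> cases g (fun j => !v j) <;>
      cases g (fun j => !(u j || v j)) <;> simp

lemma minority : ∀ w00 w10 w01 w11 : Bool, xor (xor w00 w10) (xor w01 w11) = true →
    ∃ p q m : Bool, ∀ x y : Bool,
      (bif xor p x then (bif xor q y then w11 else w10) else (bif xor q y then w01 else w00)) =
        xor m (x || y) := by
  decide

/-- the union from the complement and an odd binary operation -/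
lemma or_of_not (M : X → Y → Bool) (hn : ∀ a, ∃ b, ∀ y, M b y = !M a y) (w : Bool → Bool → Bool)
    (hw : ∀ a b, ∃ d, ∀ y, M d y = w (M a y) (M b y))
    (hodd : xor (xor (w false false) (w true false)) (xor (w false true) (w true true)) = true) :
    ∀ a b, ∃ c, ∀ y, M c y = (M a y || M b y) := by
  obtain ⟨p, q, m, hpq⟩ := minority _ _ _ _ hodd
  have hx : ∀ (p : Bool) (a : X), ∃ b, ∀ y, M b y = xor p (M a y) := by
    intro p a
    cases p
    · exact ⟨a, fun y => by simp⟩
    · obtain ⟨b, hb⟩ := hn a
      exact ⟨b, fun y => by rw [hb]; simp⟩
  intro a b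
  obtain ⟨a', ha'⟩ := hx p a
  obtain ⟨b', hb'⟩ := hx q b
  obtain ⟨d, hd⟩ := hw a' b'
  obtain ⟨e, he⟩ := hx m d
  refine ⟨e, fun y => ?_⟩
  have h1 := hpq (M a y) (M b y)
  have h2 : w (xor p (M a y)) (xor q (M b y)) =
      (bif xor p (M a y) then (bif xor q (M b y) then w true true else w true false)
        else (bif xor q (M b y) then w false true else w false false)) := by
    cases xor p (M a y) <;> cases xor q (M b y) <;> rfl
  rw [he, hd, ha', hb', h2, h1]
  cases m <;> cases M a y <;> cases M b y <;> rfl

/-- the union from the sum of three rows, the zero row and an odd operation -/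
lemma or_of_zero (M : X → Y → Bool)
    (hx : ∀ a b c, ∃ d, ∀ y, M d y = xor (M a y) (xor (M b y) (M c y)))
    (z : X) (hz : ∀ y, M z y = false) (w : Bool → Bool → Bool)
    (hw : ∀ a b, ∃ d, ∀ y, M d y = w (M a y) (M b y))
    (hodd : xor (xor (w false false) (w true false)) (xor (w false true) (w true true)) = true) :
    ∀ a b, ∃ c, ∀ y, M c y = (M a y || M b y) := by
  have h2 : ∀ a b, ∃ d, ∀ y, M d y = xor (M a y) (M b y) := by
    intro a b
    obtain ⟨d, hd⟩ := hx a b z
    exact ⟨d, fun y => by rw [hd, hz]; simp⟩
  have hsc : ∀ (p : Bool) (a : X), ∃ d, ∀ y, M d y = (p && M a y) := by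
    intro p a
    cases p
    · exact ⟨z, fun y => by rw [hz]; rfl⟩
    · exact ⟨a, fun y => rfl⟩
  have hone : w false false = true → ∃ t, ∀ y, M t y = true := by
    intro h
    obtain ⟨t, ht⟩ := hw z z
    exact ⟨t, fun y => by rw [ht, hz]; exact h⟩
  have hsc1 : ∃ t, ∀ y, M t y = w false false := by
    cases h : w false false
    · exact ⟨z, hz⟩
    · exact hone h
  obtain ⟨t, ht⟩ := hsc1
  intro a b
  obtain ⟨d, hd⟩ := hw a b
  -- `w x y = x y + c1 x + c2 y + c0`
  obtain ⟨a', ha'⟩ := hsc (!(xor (w false false) (w true false))) a
  obtain ⟨b', hb'⟩ := hsc (!(xor (w false false) (w false true))) b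
  obtain ⟨e, he⟩ := hx d a' b'
  obtain ⟨f, hf⟩ := h2 e t
  refine ⟨f, fun y => ?_⟩
  rw [hf, he, hd, ha', hb', ht]
  revert hodd
  cases M a y <;> cases M b y <;> cases w false false <;> cases w true false <;>
    cases w false true <;> cases w true true <;> simp

lemma or_of_one (M : X → Y → Bool)
    (hx : ∀ a b c, ∃ d, ∀ y, M d y = xor (M a y) (xor (M b y) (M c y)))
    (t : X) (ht : ∀ y, M t y = true) (w : Bool → Bool → Bool)
    (hw : ∀ a b, ∃ d, ∀ y, M d y = w (M a y) (M b y))
    (hodd : xor (xor (w false false) (w true false)) (xor (w false true) (w true true)) = true) :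
    ∀ a b, ∃ c, ∀ y, M c y = (M a y || M b y) := by
  cases w11 : w true true
  · obtain ⟨z, hz⟩ := hw t t
    exact or_of_zero M hx z (fun y => by rw [hz, ht]; exact w11) w hw hodd
  · intro a b
    obtain ⟨d, hd⟩ := hw a b
    rw [w11] at hodd
    cases w10 : w true false <;> cases w01 : w false true <;> cases w00 : w false false <;>
      simp only [w10, w01, w00, Bool.false_xor, Bool.true_xor, Bool.not_true, Bool.not_false,
        Bool.false_eq_true] at hodd
    · -- and
      obtain ⟨e, he⟩ := hx d a b
      refine ⟨e, fun y => ?_⟩
      rw [he, hd]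
      cases M a y <;> cases M b y <;> simp [w11, w10, w01, w00]
    · obtain ⟨e, he⟩ := hx d b t
      refine ⟨e, fun y => ?_⟩
      rw [he, hd, ht]
      cases M a y <;> cases M b y <;> simp [w11, w10, w01, w00]
    · obtain ⟨e, he⟩ := hx d a t
      refine ⟨e, fun y => ?_⟩
      rw [he, hd, ht]
      cases M a y <;> cases M b y <;> simp [w11, w10, w01, w00]
    · refine ⟨d, fun y => ?_⟩
      rw [hd]
      cases M a y <;> cases M b y <;> simp [w11, w10, w01, w00]

/-- **Unions are available.** -/
lemma or_rows [Nonempty X] (M : X → Y → Bool) {k₁ k₂ k₃ k₄ : ℕ}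
    {g₁ : (Fin k₁ → Bool) → Bool} {g₂ : (Fin k₂ → Bool) → Bool} {g₃ : (Fin k₃ → Bool) → Bool}
    {g₄ : (Fin k₄ → Bool) → Bool} (hg₁ : ClosedUnder g₁ M) (hg₂ : ClosedUnder g₂ M)
    (hg₃ : ClosedUnder g₃ M) (hg₄ : ClosedUnder g₄ M)
    (hN : ∃ u v : Fin k₁ → Bool, (∀ j, ¬ (u j = true ∧ v j = true)) ∧ g₁ u = true ∧ g₁ v = true)
    (hC : ¬ Conj g₂) (hA : ¬ Affine g₃) (hS : ¬ SelfDual g₄) :
    ∀ a b, ∃ c, ∀ y, M c y = (M a y || M b y) := by
  classical
  unfold SelfDual at hS
  push Not at hS
  obtain ⟨u, hu⟩ := hS
  have hu' : g₄ (fun j => !u j) = g₄ u := by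
    revert hu
    cases g₄ (fun j => !u j) <;> cases g₄ u <;> simp
  rcases three_cases M g₁ g₂ hg₁ hg₂ hN hC with h | h | h
  · -- the complement is available
    obtain ⟨c, hc⟩ : ∃ c, ∀ y, M c y = g₄ u := by
      obtain ⟨na, hna⟩ := h (Classical.arbitrary X)
      obtain ⟨c, hc⟩ := hg₄ (fun j => if u j = true then Classical.arbitrary X else na)
      refine ⟨c, fun y => ?_⟩
      rw [hc]
      cases hM : M (Classical.arbitrary X) y
      · rw [← hu']
        congr 1
        funext j
        by_cases h1 : u j = true
        · simp [h1, hM]
        · simp [h1, hna, hM]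
      · congr 1
        funext j
        by_cases h1 : u j = true
        · simp [h1, hM]
        · simp [h1, hna, hM]
    obtain ⟨z, hz⟩ : ∃ z, ∀ y, M z y = false := by
      cases hgu : g₄ u
      · exact ⟨c, fun y => by rw [hc, hgu]⟩
      · obtain ⟨d, hd⟩ := h c
        exact ⟨d, fun y => by rw [hd, hc, hgu]; rfl⟩
    obtain ⟨w, hw, hodd⟩ := odd_of_zero M hg₃ hA z hz
    exact or_of_not M h w hw hodd
  · -- the sum of three rows is available
    let v : Bool → Bool → Bool := fun p q => g₄ (fun j => if u j = true then p else q)
    have hv : ∀ a b, ∃ d, ∀ y, M d y = v (M a y) (M b y) := by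
      intro a b
      obtain ⟨d, hd⟩ := hg₄ (fun j => if u j = true then a else b)
      refine ⟨d, fun y => ?_⟩
      rw [hd]
      simp only [v]
      congr 1
      funext j
      split_ifs <;> rfl
    have v10 : v true false = g₄ u := by
      simp only [v]
      congr 1
      funext j
      by_cases h1 : u j = true
      · simp [h1]
      · simp [h1]
    have v01 : v false true = g₄ u := by
      rw [← hu']
      simp only [v]
      congr 1
      funext j
      by_cases h1 : u j = true
      · simp [h1]
      · simp [h1]
    cases v00 : v false false <;> cases v11 : v true true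
    · -- the zero row
      obtain ⟨z, hz⟩ := hv (Classical.arbitrary X) (Classical.arbitrary X)
      have hz' : ∀ y, M z y = false := by
        intro y
        rw [hz]
        cases M (Classical.arbitrary X) y
        · exact v00
        · exact v11
      obtain ⟨w, hw, hodd⟩ := odd_of_zero M hg₃ hA z hz'
      exact or_of_zero M h z hz' w hw hodd
    · -- or, and
      cases hgu : g₄ u
      · intro a b
        obtain ⟨d, hd⟩ := hv a b
        obtain ⟨e, he⟩ := h a b d
        refine ⟨e, fun y => ?_⟩
        rw [he, hd]
        cases M a y <;> cases M b y <;> simp [v00, v01, v10, v11, hgu]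
      · intro a b
        obtain ⟨d, hd⟩ := hv a b
        refine ⟨d, fun y => ?_⟩
        rw [hd]
        cases M a y <;> cases M b y <;> simp [v00, v01, v10, v11, hgu]
    · -- nor, nand
      cases hgu : g₄ u
      · intro a b
        obtain ⟨d, hd⟩ := hv a b
        obtain ⟨e, he⟩ := hv d d
        refine ⟨e, fun y => ?_⟩
        rw [he, hd]
        cases M a y <;> cases M b y <;> simp [v00, v01, v10, v11, hgu]
      · intro a b
        obtain ⟨d, hd⟩ := hv a a
        obtain ⟨e, he⟩ := hv b b
        obtain ⟨f, hf⟩ := hv d e
        refine ⟨f, fun y => ?_⟩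
        rw [hf, he, hd]
        cases M a y <;> cases M b y <;> simp [v00, v01, v10, v11, hgu]
    · -- the row of ones
      obtain ⟨t, ht⟩ := hv (Classical.arbitrary X) (Classical.arbitrary X)
      have ht' : ∀ y, M t y = true := by
        intro y
        rw [ht]
        cases M (Classical.arbitrary X) y
        · exact v00
        · exact v11
      obtain ⟨w, hw, hodd⟩ := odd_of_one M hg₃ hA t ht'
      exact or_of_one M h t ht' w hw hodd
  · exact h

end Pool.Agent.Run7.h671.PB
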