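import Mathlib

set_option autoImplicit false

/-!
# Union-closed families in which the filters of the nonempty members are closed under intersection
-/

namespace Pool.Agent.Run7.h671.FK

open Finset

variable {E : Type*} [DecidableEq E]

/-- the union of the members which avoid `e` -/
def avoid (F : Finset (Finset E)) (e : E) : Finset E := (F.filter fun A => e ∉ A).sup id

lemma notMem_avoid (F : Finset (Finset E)) (e : E) : e ∉ avoid F e := by
  unfold avoid
  rw [Finset.mem_sup]
  push Not
  intro A hA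
  exact (mem_filter.1 hA).2

lemma subset_avoid {F : Finset (Finset E)} {e : E} {A : Finset E} (hA : A ∈ F) (he : e ∉ A) :
    A ⊆ avoid F e := by
  unfold avoid
  exact Finset.le_sup (f := id) (mem_filter.2 ⟨hA, he⟩)

lemma sup_mem {F : Finset (Finset E)} (hF : ∀ A ∈ F, ∀ B ∈ F, A ∪ B ∈ F) (G : Finset (Finset E))
    (hG : G.Nonempty) (hGF : G ⊆ F) : G.sup id ∈ F := by
  induction hG using Finset.Nonempty.cons_induction with
  | singleton a => simpa using hGF (mem_singleton_self a)
  | cons a s ha hs ih =>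
    rw [sup_cons]
    exact hF _ (hGF (mem_cons_self a s)) _ (ih (fun x hx => hGF (mem_cons_of_mem hx)))

/-- Frankl's conjecture for union-closed families which are closed under those
intersections that contain a nonempty member. -/
theorem frankl_filter (F : Finset (Finset E)) (hne : ∃ A ∈ F, A.Nonempty)
    (hU : ∀ A ∈ F, ∀ B ∈ F, A ∪ B ∈ F)
    (hI : ∀ B ∈ F, ∀ C ∈ F, (∃ A ∈ F, A.Nonempty ∧ A ⊆ B ∩ C) → B ∩ C ∈ F) :
    ∃ e, F.card ≤ 2 * (F.filter fun A => e ∈ A).card := by
  classical
  obtain ⟨A₀, hA₀, hA₀ne⟩ := hne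
  -- the union of all members
  set U := F.sup id with hUdef
  have hUF : U ∈ F := sup_mem hU F ⟨A₀, hA₀⟩ (subset_refl _)
  have hsub : ∀ A ∈ F, A ⊆ U := fun A hA => Finset.le_sup (f := id) hA
  by_cases hall : ∃ e ∈ U, ∀ A ∈ F, A.Nonempty → e ∈ A
  · obtain ⟨e, -, he⟩ := hall
    refine ⟨e, ?_⟩
    have h1 : F ⊆ insert ∅ (F.filter fun A => e ∈ A) := by
      intro A hA
      rcases A.eq_empty_or_nonempty with h | h
      · rw [h]
        exact mem_insert_self _ _
      · exact mem_insert_of_mem (mem_filter.2 ⟨hA, he A hA h⟩)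
    have h2 := (card_le_card h1).trans (card_insert_le _ _)
    have h3 : 0 < (F.filter fun A => e ∈ A).card := card_pos.2 ⟨A₀, mem_filter.2 ⟨hA₀, he _ hA₀ hA₀ne⟩⟩
    omega
  push Not at hall
  -- every `avoid F f` is a nonempty member
  have hav : ∀ f ∈ U, avoid F f ∈ F ∧ (avoid F f).Nonempty := by
    intro f hf
    obtain ⟨A, hA, hAne, hfA⟩ := hall f hf
    refine ⟨sup_mem hU _ ⟨A, mem_filter.2 ⟨hA, hfA⟩⟩ (filter_subset _ _), ?_⟩
    exact hAne.mono (subset_avoid hA hfA)
  -- a minimal nonempty member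
  obtain ⟨m, hm, hmmin⟩ := Finset.exists_min_image (F.filter fun A => A.Nonempty) Finset.card
    ⟨A₀, mem_filter.2 ⟨hA₀, hA₀ne⟩⟩
  obtain ⟨hmF, hmne⟩ := mem_filter.1 hm
  obtain ⟨e₀, he₀⟩ := hmne
  have he₀U : e₀ ∈ U := hsub m hmF he₀
  obtain ⟨e, he, hemin⟩ := Finset.exists_min_image (U.filter fun f => avoid F f ⊆ avoid F e₀)
    (fun f => (avoid F f).card) ⟨e₀, mem_filter.2 ⟨he₀U, subset_refl _⟩⟩
  obtain ⟨heU, hee₀⟩ := mem_filter.1 he
  have hmin : ∀ f ∈ U, e ∉ avoid F f → avoid F f = avoid F e := by
    intro f hf hef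
    have h1 : avoid F f ⊆ avoid F e := subset_avoid (hav f hf).1 hef
    exact Finset.eq_of_subset_of_card_le h1 (hemin f (mem_filter.2 ⟨hf, h1.trans hee₀⟩))
  have hm_not : ¬ m ⊆ avoid F e := fun h => notMem_avoid F e₀ (hee₀ (h he₀))
  have hem : e ∈ m := by
    by_contra h
    exact hm_not (subset_avoid hmF h)
  refine ⟨e, ?_⟩
  -- the map
  let φ : Finset E → Finset E := fun A =>
    U.filter fun x => ∀ f ∈ U, f ∉ A → avoid F f ≠ avoid F e → x ∈ avoid F f
  have hφF : ∀ A ∈ F, A.Nonempty → φ A ∈ F := by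
    intro A hA hAne
    -- intersections over subsets of indices
    have key : ∀ S : Finset E, (∀ f ∈ S, f ∈ U ∧ f ∉ A) →
        (U.filter fun x => ∀ f ∈ S, x ∈ avoid F f) ∈ F ∧
        A ⊆ (U.filter fun x => ∀ f ∈ S, x ∈ avoid F f) := by
      intro S
      induction S using Finset.induction_on with
      | empty =>
        intro _
        have : (U.filter fun x => ∀ f ∈ (∅ : Finset E), x ∈ avoid F f) = U := by
          apply Finset.filter_true_of_mem
          intro x _ f hf
          simp at hf
        rw [this]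
        exact ⟨hUF, hsub A hA⟩
      | insert a s ha ih =>
        intro hS
        obtain ⟨h1, h2⟩ := ih (fun f hf => hS f (mem_insert_of_mem hf))
        obtain ⟨h3, h4⟩ := hS a (mem_insert_self a s)
        have h5 : A ⊆ avoid F a := subset_avoid hA h4
        have h6 : (U.filter fun x => ∀ f ∈ insert a s, x ∈ avoid F f) =
            (U.filter fun x => ∀ f ∈ s, x ∈ avoid F f) ∩ avoid F a := by
          ext x
          simp only [mem_filter, mem_inter, mem_insert, forall_eq_or_imp]
          tauto
        rw [h6]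
        exact ⟨hI _ h1 _ (hav a h3).1 ⟨A, hA, hAne, subset_inter h2 h5⟩, subset_inter h2 h5⟩
    have h := (key ((U \ A).filter fun f => avoid F f ≠ avoid F e) (by
      intro f hf
      obtain ⟨hf1, -⟩ := mem_filter.1 hf
      exact mem_sdiff.1 hf1)).1
    have h2 : φ A = U.filter fun x => ∀ f ∈ (U \ A).filter (fun f => avoid F f ≠ avoid F e),
        x ∈ avoid F f := by
      ext x
      simp only [φ, mem_filter, mem_sdiff]
      constructor
      · rintro ⟨h1, h2⟩
        exact ⟨h1, fun f hf => h2 f hf.1.1 hf.1.2 hf.2⟩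
      · rintro ⟨h1, h2⟩
        exact ⟨h1, fun f hf1 hf2 hf3 => h2 f ⟨⟨hf1, hf2⟩, hf3⟩⟩
    rw [h2]
    exact h
  have hφe : ∀ A, e ∈ φ A := by
    intro A
    refine mem_filter.2 ⟨heU, fun f hf _ hne => ?_⟩
    by_contra hcon
    exact hne (hmin f hf hcon)
  have hφinter : ∀ A ∈ F, e ∉ A → φ A ∩ avoid F e = A := by
    intro A hA heA
    ext x
    simp only [φ, mem_inter, mem_filter]
    constructor
    · rintro ⟨⟨hxU, hx⟩, hxe⟩
      by_contra hxA
      by_cases heq : avoid F x = avoid F e
      · rw [← heq] at hxe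
        exact notMem_avoid F x hxe
      · exact notMem_avoid F x (hx x hxU hxA heq)
    · intro hx
      refine ⟨⟨hsub A hA hx, fun f _ hfA _ => subset_avoid hA hfA hx⟩, subset_avoid hA heA hx⟩
  -- the injection
  have hcount : ((F.filter fun A => e ∉ A).filter fun A => A.Nonempty).card + 1 ≤
      (F.filter fun A => e ∈ A).card := by
    have h1 : ((F.filter fun A => e ∉ A).filter fun A => A.Nonempty).card ≤
        ((F.filter fun A => e ∈ A).erase m).card := by
      apply Finset.card_le_card_of_injOn φ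
      · intro A hA
        simp only [coe_filter, mem_filter, Set.mem_ofPred_eq] at hA
        obtain ⟨⟨hAF, heA⟩, hAne⟩ := hA
        rw [mem_coe, mem_erase]
        refine ⟨?_, mem_filter.2 ⟨hφF A hAF hAne, hφe A⟩⟩
        intro hφm
        have h2 : A ⊆ m := by
          rw [← hφm]
          intro x hx
          have h6 : x ∈ φ A ∩ avoid F e := by
            rw [hφinter A hAF heA]
            exact hx
          exact (mem_inter.1 h6).1
        have h3 := hmmin A (mem_filter.2 ⟨hAF, hAne⟩)
        have h4 := Finset.eq_of_subset_of_card_le h2 h3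
        rw [h4] at heA
        exact heA hem
      · intro A hA B hB hAB
        simp only [coe_filter, mem_filter, Set.mem_ofPred_eq] at hA hB
        rw [← hφinter A hA.1.1 hA.1.2, ← hφinter B hB.1.1 hB.1.2]
        exact congrArg (· ∩ avoid F e) hAB
    have h2 : ((F.filter fun A => e ∈ A).erase m).card + 1 = (F.filter fun A => e ∈ A).card :=
      card_erase_add_one (mem_filter.2 ⟨hmF, hem⟩)
    omega
  have h1 : (F.filter fun A => e ∉ A).card ≤
      ((F.filter fun A => e ∉ A).filter fun A => A.Nonempty).card + 1 := by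
    have h2 : (F.filter fun A => e ∉ A) ⊆
        insert ∅ ((F.filter fun A => e ∉ A).filter fun A => A.Nonempty) := by
      intro A hA
      rcases A.eq_empty_or_nonempty with h | h
      · rw [h]
        exact mem_insert_self _ _
      · exact mem_insert_of_mem (mem_filter.2 ⟨hA, h⟩)
    exact (card_le_card h2).trans (card_insert_le _ _)
  have h2 := Finset.card_filter_add_card_filter_not (s := F) (fun A => e ∈ A)
  omega

end Pool.Agent.Run7.h671.FK
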