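import Pool.Agent.Run7.h671.Pol

set_option autoImplicit false

/-!
# Characters restricted to a dense set
-/

namespace Pool.Agent.Run7.h671

open Finset

/-- the sign -/
noncomputable def sg (a : ZMod 2) : ℝ := if a = 0 then 1 else -1

lemma zm2 (a : ZMod 2) : a = 0 ∨ a = 1 := by
  fin_cases a
  · exact Or.inl rfl
  · exact Or.inr rfl

lemma sg_zero : sg 0 = 1 := by simp [sg]

lemma sg_one : sg 1 = -1 := by simp [sg]

lemma sg_add (a b : ZMod 2) : sg (a + b) = sg a * sg b := by
  rcases zm2 a with rfl | rfl <;> rcases zm2 b with rfl | rfl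
  · simp [sg]
  · simp [sg]
  · simp [sg]
  · rw [show (1 : ZMod 2) + 1 = 0 from rfl]
    simp [sg]

lemma sg_sq (a : ZMod 2) : sg a * sg a = 1 := by
  rcases zm2 a with rfl | rfl <;> simp [sg]

variable {Y : Type*} [Fintype Y]

open Classical in
/-- orthogonality of different characters of `H` -/
lemma char_orth (H : AddSubgroup (Y → ZMod 2)) {y y' : Y} (h : ∃ g ∈ H, g y ≠ g y') :
    ∑ v ∈ univ.filter (fun v : Y → ZMod 2 => v ∈ H), sg (v y) * sg (v y') = 0 := by
  obtain ⟨g, hg, hne⟩ := h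
  have hs : sg (g y) * sg (g y') = -1 := by
    rcases zm2 (g y) with h1 | h1 <;> rcases zm2 (g y') with h2 | h2
    · exact absurd (h1.trans h2.symm) hne
    · rw [h1, h2]; simp [sg]
    · rw [h1, h2]; simp [sg]
    · exact absurd (h1.trans h2.symm) hne
  have h1 : ∑ v ∈ univ.filter (fun v : Y → ZMod 2 => v ∈ H), sg (v y) * sg (v y') =
      ∑ v ∈ univ.filter (fun v : Y → ZMod 2 => v ∈ H), -(sg (v y) * sg (v y')) := by
    refine Finset.sum_bij' (fun v _ => v + g) (fun v _ => v - g) ?_ ?_ ?_ ?_ ?_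
    · intro v hv
      simp only [mem_filter, mem_univ, true_and] at hv ⊢
      exact H.add_mem hv hg
    · intro v hv
      simp only [mem_filter, mem_univ, true_and] at hv ⊢
      exact H.sub_mem hv hg
    · intro v _
      simp
    · intro v _
      simp
    · intro v _
      show _ = -(sg ((v + g) y) * sg ((v + g) y'))
      rw [Pi.add_apply, Pi.add_apply, sg_add, sg_add]
      linear_combination (sg (v y) * sg (v y')) * hs
  rw [Finset.sum_neg_distrib] at h1
  linarith

open Classical in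
/-- the restriction of a character to `B` -/
noncomputable def rch (B : Finset (Y → ZMod 2)) (y : Y) : EuclideanSpace ℝ (Y → ZMod 2) :=
  WithLp.toLp 2 (fun v => if v ∈ B then sg (v y) else 0)

open Classical in
/-- Many characters have a large rank on a dense set. -/
theorem dens (H : AddSubgroup (Y → ZMod 2)) (B : Finset (Y → ZMod 2)) (hB : ∀ b ∈ B, b ∈ H)
    (Z : Finset Y) (hZ : ∀ y ∈ Z, ∀ y' ∈ Z, y ≠ y' → ∃ g ∈ H, g y ≠ g y') :
    Z.card * B.card ≤ Module.finrank ℝ (Submodule.span ℝ (rch B '' (Z : Set Y))) * Nat.card H := by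
  set C := Submodule.span ℝ (rch B '' (Z : Set Y)) with hC
  set Hs := univ.filter (fun v : Y → ZMod 2 => v ∈ H) with hHs
  have hHc : Nat.card H = Hs.card := by
    rw [hHs, ← Fintype.card_subtype, Nat.card_eq_fintype_card]
  have hHpos : 0 < Hs.card := by
    rw [card_pos]
    exact ⟨0, by simp [hHs, H.zero_mem]⟩
  have hHpos' : (0 : ℝ) < Hs.card := by exact_mod_cast hHpos
  rw [hHc]
  -- the normalised characters
  let w : Z → EuclideanSpace ℝ (Y → ZMod 2) := fun y => (Real.sqrt Hs.card)⁻¹ • rch Hs y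
  have hin : ∀ (y y' : Y), inner ℝ (rch Hs y) (rch Hs y') = ∑ v ∈ Hs, sg (v y) * sg (v y') := by
    intro y y'
    simp only [rch, PiLp.inner_apply, RCLike.inner_apply, conj_trivial]
    rw [← Finset.sum_filter_add_sum_filter_not univ (fun v => v ∈ Hs)]
    rw [Finset.sum_congr rfl (g := fun v => sg (v y) * sg (v y')) (fun v hv => by
      rw [if_pos (mem_filter.1 hv).2, if_pos (mem_filter.1 hv).2]; ring)]
    rw [Finset.sum_eq_zero (s := univ.filter fun v => ¬ v ∈ Hs) (fun v hv => by
      rw [if_neg (mem_filter.1 hv).2, zero_mul]), add_zero]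
    congr 1
    ext v
    simp
  have hon : Orthonormal ℝ w := by
    rw [orthonormal_iff_ite]
    intro i j
    simp only [w, inner_smul_left, inner_smul_right, hin, conj_trivial]
    have hsq : Real.sqrt Hs.card * Real.sqrt Hs.card = Hs.card := Real.mul_self_sqrt hHpos'.le
    have hsq0 : Real.sqrt Hs.card ≠ 0 := (Real.sqrt_pos.2 hHpos').ne'
    by_cases hij : i = j
    · subst hij
      rw [if_pos rfl]
      simp only [sg_sq, sum_const, nsmul_eq_mul, mul_one]
      field_simp
      rw [pow_two, hsq]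
    · rw [if_neg hij, char_orth H (hZ i.1 i.2 j.1 j.2 (fun h => hij (Subtype.ext h)))]
      ring
  let e := stdOrthonormalBasis ℝ C
  -- restriction to `B`
  let R : EuclideanSpace ℝ (Y → ZMod 2) → EuclideanSpace ℝ (Y → ZMod 2) := fun x =>
    WithLp.toLp 2 (fun v => if v ∈ B then x v else 0)
  have hR : ∀ x, ‖R x‖ ^ 2 ≤ ‖x‖ ^ 2 := by
    intro x
    rw [EuclideanSpace.norm_sq_eq, EuclideanSpace.norm_sq_eq]
    apply Finset.sum_le_sum
    intro v _
    show ‖(if v ∈ B then x v else 0 : ℝ)‖ ^ 2 ≤ ‖x v‖ ^ 2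
    split_ifs
    · exact le_rfl
    · rw [norm_zero, zero_pow two_ne_zero]
      exact sq_nonneg _
  have hRin : ∀ x (y : Y), inner ℝ x (rch B y) = inner ℝ (R x) (rch Hs y) := by
    intro x y
    simp only [R, rch, PiLp.inner_apply, RCLike.inner_apply, conj_trivial]
    apply Finset.sum_congr rfl
    intro v _
    by_cases hv : v ∈ B
    · have hv' : v ∈ Hs := by simp [hHs, hB v hv]
      simp [hv, hv']
    · simp [hv]
  -- the norm of the columns
  have hnorm : ∀ y, ‖rch B y‖ ^ 2 = B.card := by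
    intro y
    rw [EuclideanSpace.norm_sq_eq]
    simp only [rch]
    rw [← Finset.sum_filter_add_sum_filter_not univ (fun v => v ∈ B)]
    rw [Finset.sum_congr rfl (g := fun _ => (1 : ℝ)) (fun v hv => by
      rw [if_pos (mem_filter.1 hv).2, Real.norm_eq_abs, sq_abs, pow_two, sg_sq])]
    rw [Finset.sum_eq_zero (s := univ.filter fun v => ¬ v ∈ B) (fun v hv => by
      rw [if_neg (mem_filter.1 hv).2]; simp)]
    simp
  have hpars : ∀ y ∈ Z, (B.card : ℝ) = ∑ i, (inner ℝ ((e i : C) : EuclideanSpace ℝ (Y → ZMod 2)) (rch B y)) ^ 2 := by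
    intro y hy
    have hm : rch B y ∈ C := Submodule.subset_span ⟨y, hy, rfl⟩
    have h1 := e.sum_sq_norm_inner_right ⟨rch B y, hm⟩
    have h2 : ‖(⟨rch B y, hm⟩ : C)‖ ^ 2 = B.card := by
      rw [← hnorm y]
      rfl
    rw [h2] at h1
    rw [← h1]
    apply Finset.sum_congr rfl
    intro i _
    rw [Real.norm_eq_abs, sq_abs]
    rfl
  have hbes : ∀ i, ∑ y ∈ Z, (inner ℝ ((e i : C) : EuclideanSpace ℝ (Y → ZMod 2)) (rch B y)) ^ 2 ≤ Hs.card := by
    intro i
    have h1 := hon.sum_inner_products_le (x := R (e i : C)) (s := univ)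
    have h2 : ‖R (e i : C)‖ ^ 2 ≤ 1 := by
      refine (hR _).trans ?_
      have : ‖((e i : C) : EuclideanSpace ℝ (Y → ZMod 2))‖ = 1 := e.orthonormal.1 i
      rw [this]
      norm_num
    have h3 : ∑ y ∈ Z, (inner ℝ ((e i : C) : EuclideanSpace ℝ (Y → ZMod 2)) (rch B y)) ^ 2 =
        Hs.card * ∑ y : Z, ‖inner ℝ (w y) (R (e i : C))‖ ^ 2 := by
      rw [Finset.mul_sum, ← Finset.sum_coe_sort Z]
      apply Finset.sum_congr rfl
      intro y _
      rw [hRin]
      simp only [w, inner_smul_left, conj_trivial]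
      rw [Real.norm_eq_abs, sq_abs, mul_pow, inv_pow, Real.sq_sqrt hHpos'.le, real_inner_comm]
      field_simp
    rw [h3]
    calc (Hs.card : ℝ) * ∑ y : Z, ‖inner ℝ (w y) (R (e i : C))‖ ^ 2 ≤ Hs.card * 1 := by
          apply mul_le_mul_of_nonneg_left (h1.trans h2) hHpos'.le
      _ = Hs.card := mul_one _
  have hfin : ((Z.card * B.card : ℕ) : ℝ) ≤ ((Module.finrank ℝ C * Hs.card : ℕ) : ℝ) := by
    push_cast
    calc (Z.card : ℝ) * B.card = ∑ y ∈ Z, (B.card : ℝ) := by
          rw [sum_const, nsmul_eq_mul]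
      _ = ∑ y ∈ Z, ∑ i, (inner ℝ ((e i : C) : EuclideanSpace ℝ (Y → ZMod 2)) (rch B y)) ^ 2 :=
          Finset.sum_congr rfl hpars
      _ = ∑ i, ∑ y ∈ Z, (inner ℝ ((e i : C) : EuclideanSpace ℝ (Y → ZMod 2)) (rch B y)) ^ 2 :=
          Finset.sum_comm
      _ ≤ ∑ i : Fin (Module.finrank ℝ C), (Hs.card : ℝ) := Finset.sum_le_sum (fun i _ => hbes i)
      _ = Module.finrank ℝ C * Hs.card := by
          rw [sum_const, nsmul_eq_mul, card_univ, Fintype.card_fin]
  exact_mod_cast hfin

/-- the rows as vectors over the field with two elements -/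
def vrow {X : Type*} (F : X → Y → Bool) (x : X) : Y → ZMod 2 := fun y => if F x y then 1 else 0

omit [Fintype Y] in
lemma sg_vrow {X : Type*} (F : X → Y → Bool) (x : X) (y : Y) :
    sg (vrow F x y) = 1 - 2 * rM F x y := by
  unfold vrow rM
  cases h : F x y
  · simp [sg, h]
  · simp [sg, h]
    norm_num

lemma finrank_rch {X : Type*} [Fintype X] [Nonempty X] (F : X → Y → Bool) (t₀ : Y → ZMod 2)
    (B : Finset (Y → ZMod 2)) (hB : ∀ b ∈ B, ∃ x, vrow F x = t₀ + b) (Z : Set Y) :
    Module.finrank ℝ (Submodule.span ℝ (rch B '' Z)) ≤ (rM F).rank + 1 := by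
  classical
  have h1 : ∀ v, ∃ x, v ∈ B → vrow F x = t₀ + v := by
    intro v
    by_cases hv : v ∈ B
    · obtain ⟨x, hx⟩ := hB v hv
      exact ⟨x, fun _ => hx⟩
    · exact ⟨Classical.arbitrary X, fun h => absurd h hv⟩
  choose ξ hξ using h1
  let L : (X → ℝ) →ₗ[ℝ] EuclideanSpace ℝ (Y → ZMod 2) :=
    { toFun := fun c => WithLp.toLp 2 (fun v => if v ∈ B then -2 * c (ξ v) else 0)
      map_add' := by
        intro c d
        ext v
        simp only [PiLp.add_apply, Pi.add_apply]
        split_ifs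
        · ring
        · ring
      map_smul' := by
        intro a c
        ext v
        simp only [PiLp.smul_apply, Pi.smul_apply, smul_eq_mul, RingHom.id_apply]
        split_ifs
        · ring
        · ring }
  let w : EuclideanSpace ℝ (Y → ZMod 2) := WithLp.toLp 2 (fun v => if v ∈ B then 1 else 0)
  have h2 : Submodule.span ℝ (rch B '' Z) ≤
      (Submodule.span ℝ (Set.range (rM F).col)).map L ⊔ Submodule.span ℝ {w} := by
    rw [Submodule.span_le]
    rintro _ ⟨y, -, rfl⟩
    have e : rch B y = sg (t₀ y) • (L ((rM F).col y) + w) := by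
      ext v
      show (if v ∈ B then sg (v y) else 0) =
        sg (t₀ y) * ((if v ∈ B then -2 * (rM F (ξ v) y) else 0) + (if v ∈ B then 1 else 0))
      split_ifs with hv
      · have h3 := sg_vrow F (ξ v) y
        rw [hξ v hv, Pi.add_apply, sg_add] at h3
        have h4 := sg_sq (t₀ y)
        calc sg (v y) = sg (t₀ y) * (sg (t₀ y) * sg (v y)) := by rw [← mul_assoc, h4, one_mul]
          _ = sg (t₀ y) * (-2 * rM F (ξ v) y + 1) := by rw [h3]; ring
      · simp
    rw [e]
    apply Submodule.smul_mem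
    apply Submodule.add_mem_sup
    · exact Submodule.mem_map_of_mem (Submodule.subset_span ⟨y, rfl⟩)
    · exact Submodule.subset_span rfl
  refine (Submodule.finrank_mono h2).trans
    ((Submodule.finrank_add_le_finrank_add_finrank _ _).trans ?_)
  rw [Matrix.rank_eq_finrank_span_cols]
  gcongr
  · exact Submodule.finrank_map_le _ _
  · exact (finrank_span_le_card ({w} : Set (EuclideanSpace ℝ (Y → ZMod 2)))).trans (by simp)

end Pool.Agent.Run7.h671
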