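import Pool.Agent.Run7.h671.Dens
import Pool.Agent.TH404.Tor.Final

/-!
# Boolean matrices whose rows form a set of small doubling: counting the columns
-/

set_option autoImplicit false

namespace Pool.Agent.Run7.h671

open Finset
open scoped Pointwise

/-- Boolean vectors as vectors over the field with two elements -/
def bvec {Y : Type} (g : Y → Bool) : Y → ZMod 2 := fun y => if g y then 1 else 0

lemma bvec_injective {Y : Type} : Function.Injective (bvec (Y := Y)) := by
  intro g h hgh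
  funext y
  have := congrFun hgh y
  unfold bvec at this
  cases hg : g y <;> cases hh : h y <;> simp [hg, hh] at this ⊢

lemma bvec_xor {Y : Type} (g h : Y → Bool) :
    bvec (fun y => xor (g y) (h y)) = bvec g + bvec h := by
  funext y
  show (if xor (g y) (h y) then (1 : ZMod 2) else 0) = (if g y then 1 else 0) + (if h y then 1 else 0)
  cases g y <;> cases h y <;> decide

/-- Few classes of columns for matrices whose rows form a set of small doubling. -/
theorem doubling_index {X Y : Type} [Fintype X] [Fintype Y] [Nonempty X] (F : X → Y → Bool)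
    (K : ℝ)
    (h : (({g | ∃ x x', g = fun y => xor (F x y) (F x' y)} : Set (Y → Bool)).ncard : ℝ) ≤
      K * ((Set.range F).ncard : ℝ)) (L : ℕ)
    (hL : (2 * K) ^ 82010 ≤ ((2 ^ L : ℕ) : ℝ)) :
    ∃ (τ : X → ℕ) (q : ℕ → Y → ℕ), (∀ x, τ x < 2 ^ L) ∧
      (∀ m y, q m y < 2 * (((Matrix.of (fun (x : X) (y : Y) => if F x y then (1 : ℝ) else 0)).rank + 1) * 2 ^ L)) ∧
      ∀ x y y', q (τ x) y = q (τ x) y' → F x y = F x y' := by
  classical
  set R := (Matrix.of (fun (x : X) (y : Y) => if F x y then (1 : ℝ) else 0)).rank with hR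
  obtain ⟨x₀⟩ : Nonempty X := inferInstance
  let A : Finset (Y → ZMod 2) := univ.image (fun x => vrow F x)
  have hA1 : (A : Set (Y → ZMod 2)) = bvec '' (Set.range F) := by
    ext v
    simp only [A, coe_image, coe_univ, Set.image_univ, Set.mem_range, Set.mem_image]
    constructor
    · rintro ⟨x, rfl⟩
      exact ⟨F x, ⟨x, rfl⟩, rfl⟩
    · rintro ⟨_, ⟨x, rfl⟩, rfl⟩
      exact ⟨x, rfl⟩
  have hA2 : ((A + A : Finset (Y → ZMod 2)) : Set (Y → ZMod 2)) =
      bvec '' ({g | ∃ x x', g = fun y => xor (F x y) (F x' y)} : Set (Y → Bool)) := by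
    rw [coe_add, hA1]
    ext v
    constructor
    · rintro ⟨_, ⟨_, ⟨x, rfl⟩, rfl⟩, _, ⟨_, ⟨x', rfl⟩, rfl⟩, rfl⟩
      exact ⟨_, ⟨x, x', rfl⟩, bvec_xor _ _⟩
    · rintro ⟨_, ⟨x, x', rfl⟩, rfl⟩
      exact ⟨_, ⟨F x, ⟨x, rfl⟩, rfl⟩, _, ⟨F x', ⟨x', rfl⟩, rfl⟩, (bvec_xor _ _).symm⟩
  have hA3 : ((A + A).card : ℝ) ≤ K * A.card := by
    have e1 : A.card = (Set.range F).ncard := by
      rw [← Set.ncard_coe_finset, hA1, Set.ncard_image_of_injective _ bvec_injective]
    have e2 : (A + A).card =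
        ({g | ∃ x x', g = fun y => xor (F x y) (F x' y)} : Set (Y → Bool)).ncard := by
      rw [← Set.ncard_coe_finset, hA2, Set.ncard_image_of_injective _ bvec_injective]
    rw [e1, e2]
    exact h
  have hAne : A.Nonempty := ⟨vrow F x₀, mem_image_of_mem _ (mem_univ _)⟩
  obtain ⟨H, T, hHfin, hHcard, hTcard, hcov⟩ := Pool.Agent.TH404.Tor.upper (Γ := Y → ZMod 2) 2
    (by norm_num) (fun v => by
      funext y
      show 2 • v y = 0
      rcases zm2 (v y) with h1 | h1 <;> rw [h1] <;> rfl) K A hAne hA3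
  have hTL : T.card ≤ 2 ^ L := by
    have e1 : 41005 * (Nat.log 2 2 + 1) = 82010 := by
      have : Nat.log 2 2 = 1 := by
        rw [Nat.log_eq_one_iff]
        norm_num
      rw [this]
    rw [e1] at hTcard
    exact_mod_cast hTcard.trans hL
  -- the largest coset
  obtain ⟨a₀, ha₀⟩ := hAne
  obtain ⟨s₀, hs₀, -⟩ := hcov a₀ ha₀
  obtain ⟨t₀, ht₀, hmax⟩ := Finset.exists_max_image T (fun s => (A.filter fun a => a - s ∈ H).card)
    ⟨s₀, hs₀⟩
  have hAle : A.card ≤ T.card * (A.filter fun a => a - t₀ ∈ H).card := by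
    have h1 : A ⊆ T.biUnion (fun s => A.filter fun a => a - s ∈ H) := by
      intro a ha
      obtain ⟨s, hs, has⟩ := hcov a ha
      exact mem_biUnion.2 ⟨s, hs, mem_filter.2 ⟨ha, has⟩⟩
    refine (card_le_card h1).trans (card_biUnion_le.trans ?_)
    refine (Finset.sum_le_card_nsmul T _ _ hmax).trans (le_of_eq ?_)
    rw [smul_eq_mul]
  let B : Finset (Y → ZMod 2) := (A.filter fun a => a - t₀ ∈ H).image (fun a => a - t₀)
  have hBc : B.card = (A.filter fun a => a - t₀ ∈ H).card :=
    card_image_of_injective _ (sub_left_injective)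
  have hBH : ∀ b ∈ B, b ∈ H := by
    intro b hb
    obtain ⟨a, ha, rfl⟩ := mem_image.1 hb
    exact (mem_filter.1 ha).2
  have hBx : ∀ b ∈ B, ∃ x, vrow F x = t₀ + b := by
    intro b hb
    obtain ⟨a, ha, rfl⟩ := mem_image.1 hb
    obtain ⟨x, -, rfl⟩ := mem_image.1 (mem_filter.1 ha).1
    exact ⟨x, by abel⟩
  -- the classes of the columns
  let S : Set (H → ZMod 2) := Set.range (fun y => fun v : H => (v : Y → ZMod 2) y)
  have hSfin : Finite S := Set.finite_range _
  haveI : Fintype S := Fintype.ofFinite S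
  have hg : ∀ s : S, ∃ y, (fun v : H => (v : Y → ZMod 2) y) = s.1 := fun s => s.2
  choose g hg using hg
  have hginj : Function.Injective g := by
    intro s s' hss
    apply Subtype.ext
    rw [← hg s, ← hg s', hss]
  let Z : Finset Y := univ.image g
  have hZc : Z.card = Nat.card S := by
    rw [card_image_of_injective _ hginj, card_univ, Nat.card_eq_fintype_card]
  have hZ : ∀ y ∈ Z, ∀ y' ∈ Z, y ≠ y' → ∃ v ∈ H, v y ≠ v y' := by
    intro y hy y' hy' hyy
    obtain ⟨s, -, rfl⟩ := mem_image.1 hy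
    obtain ⟨s', -, rfl⟩ := mem_image.1 hy'
    by_contra hcon
    push Not at hcon
    apply hyy
    congr 1
    apply Subtype.ext
    rw [← hg s, ← hg s']
    funext v
    exact hcon v.1 v.2
  have hd := dens H B hBH Z hZ
  have hfr := finrank_rch F t₀ B hBx (Z : Set Y)
  have hBpos : 0 < B.card := by
    rcases Nat.eq_zero_or_pos B.card with h0 | h0
    · rw [hBc] at h0
      rw [h0, mul_zero] at hAle
      have : 0 < A.card := card_pos.2 ⟨a₀, ha₀⟩
      omega
    · exact h0
  have hn : Nat.card S ≤ (R + 1) * 2 ^ L := by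
    have h1 : Nat.card S * B.card ≤ ((R + 1) * 2 ^ L) * B.card := by
      rw [← hZc]
      calc Z.card * B.card ≤ Module.finrank ℝ (Submodule.span ℝ (rch B '' (Z : Set Y))) *
            Nat.card H := hd
        _ ≤ (R + 1) * A.card := Nat.mul_le_mul hfr hHcard
        _ ≤ (R + 1) * (T.card * B.card) := by
            rw [hBc]
            exact Nat.mul_le_mul_left _ hAle
        _ ≤ (R + 1) * (2 ^ L * B.card) :=
            Nat.mul_le_mul_left _ (Nat.mul_le_mul_right _ hTL)
        _ = ((R + 1) * 2 ^ L) * B.card := by ring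
    exact Nat.le_of_mul_le_mul_right h1 hBpos
  -- the indices
  let eT := T.equivFin
  let eS := Finite.equivFin S
  have hτ : ∀ x, ∃ m : Fin T.card, vrow F x - (eT.symm m).1 ∈ H := by
    intro x
    obtain ⟨s, hs, hs'⟩ := hcov (vrow F x) (mem_image_of_mem _ (mem_univ _))
    refine ⟨eT ⟨s, hs⟩, ?_⟩
    rw [Equiv.symm_apply_apply]
    exact hs'
  choose τ hτ using hτ
  refine ⟨fun x => τ x, fun m y => 2 * (eS ⟨fun v : H => (v : Y → ZMod 2) y, y, rfl⟩ : ℕ) +
    (if hm : m < T.card then (if (eT.symm ⟨m, hm⟩).1 y = 0 then 0 else 1) else 0), ?_, ?_, ?_⟩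
  · intro x
    exact lt_of_lt_of_le (τ x).2 hTL
  · intro m y
    have h1 : (eS ⟨fun v : H => (v : Y → ZMod 2) y, y, rfl⟩ : ℕ) < Nat.card S :=
      (eS ⟨fun v : H => (v : Y → ZMod 2) y, y, rfl⟩).2
    have h2 : (if hm : m < T.card then (if (eT.symm ⟨m, hm⟩).1 y = 0 then 0 else 1) else 0) < 2 := by
      split_ifs <;> norm_num
    dsimp only
    omega
  · intro x y y' hq
    have hm : (τ x : ℕ) < T.card := (τ x).2
    simp only [hm, dif_pos] at hq
    have h1 : (if (eT.symm (τ x)).1 y = 0 then 0 else 1) < 2 := by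
      split_ifs <;> norm_num
    have h2 : (if (eT.symm (τ x)).1 y' = 0 then 0 else 1) < 2 := by
      split_ifs <;> norm_num
    have h3 : (eS ⟨fun v : H => (v : Y → ZMod 2) y, y, rfl⟩ : ℕ) =
        (eS ⟨fun v : H => (v : Y → ZMod 2) y', y', rfl⟩ : ℕ) := by
      have e1 : (⟨(τ x : ℕ), hm⟩ : Fin T.card) = τ x := rfl
      rw [e1] at hq
      omega
    have h4 : (if (eT.symm (τ x)).1 y = 0 then 0 else 1) =
        (if (eT.symm (τ x)).1 y' = 0 then 0 else 1) := by
      have e1 : (⟨(τ x : ℕ), hm⟩ : Fin T.card) = τ x := rfl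
      rw [e1] at hq
      omega
    have h5 := eS.injective (Fin.ext h3)
    have h6 : (vrow F x - (eT.symm (τ x)).1) y = (vrow F x - (eT.symm (τ x)).1) y' :=
      congrFun (Subtype.ext_iff.1 h5) ⟨_, hτ x⟩
    have h7 : (eT.symm (τ x)).1 y = (eT.symm (τ x)).1 y' := by
      rcases zm2 ((eT.symm (τ x)).1 y) with h8 | h8 <;>
        rcases zm2 ((eT.symm (τ x)).1 y') with h9 | h9 <;> rw [h8, h9] at h4 ⊢ <;>
        simp at h4
    rw [Pi.sub_apply, Pi.sub_apply, h7] at h6
    have h10 : vrow F x y = vrow F x y' := sub_left_injective h6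
    unfold vrow at h10
    cases h11 : F x y <;> cases h12 : F x y' <;> simp [h11, h12] at h10 ⊢

end Pool.Agent.Run7.h671
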