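import Pool.Agent.HP778.Rank

/-!
# Rank bounds modulo finitely many fixed elements of a space with the hyperplane property

As `Pool.Agent.HP778.core`, for relations `p i * l i + ∑ j, s i j * o j = q i * lam i` with fixed
elements `o j` of the space.
-/

set_option autoImplicit false

namespace Pool.Agent.Run7.h671.EX

open Module Finset Polynomial
open Pool.Agent.HP778

variable {k Ω : Type} [Field k] [Field Ω] [Algebra k Ω]

/-- coordinate functionals which vanish at the fixed elements -/
theorem exists_coord' {m : ℕ} {κ : Type} {l : Fin m → Ω} {o : κ → Ω}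
    (hl : LinearIndependent k (Sum.elim o l)) (h : Fin m) :
    ∃ ψ : Ω →ₗ[k] k, (∀ i, ψ (l i) = if i = h then 1 else 0) ∧ ∀ j, ψ (o j) = 0 := by
  classical
  obtain ⟨g, hg⟩ := LinearMap.exists_extend
    ((Finsupp.lapply (Sum.inr h) : (κ ⊕ Fin m →₀ k) →ₗ[k] k) ∘ₗ hl.repr)
  have key : ∀ a : κ ⊕ Fin m, g (Sum.elim o l a) = if a = Sum.inr h then 1 else 0 := by
    intro a
    have h1 : Sum.elim o l a ∈ Submodule.span k (Set.range (Sum.elim o l)) :=
      Submodule.subset_span ⟨a, rfl⟩
    have h2 := congrArg (fun f : Submodule.span k (Set.range (Sum.elim o l)) →ₗ[k] k =>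
      f ⟨Sum.elim o l a, h1⟩) hg
    simp only [LinearMap.comp_apply, Submodule.subtype_apply, Finsupp.lapply_apply] at h2
    rw [h2, hl.repr_eq_single a ⟨Sum.elim o l a, h1⟩ rfl, Finsupp.single_apply]
  refine ⟨g, fun i => ?_, fun j => ?_⟩
  · have h3 := key (Sum.inr i)
    rw [Sum.elim_inr] at h3
    rw [h3]
    simp only [Sum.inr.injEq]
  · have h3 := key (Sum.inl j)
    rw [Sum.elim_inl] at h3
    rw [h3, if_neg (by simp)]

/-- **Core.** The `o j`, `l i ∈ V` are linearly independent, `lam i ∈ V` and
`p i * l i + ∑ j, s i j * o j = q i * lam i`, where `B p i`, `B q i`, `B s i j ⊆ C`. If the spaces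
`Deg B p q c` have dimension at most `d`, then `m * dim B ≤ d + dim C * (dim C - 1)`. -/
theorem core' {V : Submodule k Ω} (hV : Hyper V) {m : ℕ} {κ : Type} [Fintype κ]
    (l lam p q : Fin m → Ω) (o : κ → Ω) (s : Fin m → κ → Ω)
    (hl : LinearIndependent k (Sum.elim o l)) (hoV : ∀ j, o j ∈ V) (hlV : ∀ i, l i ∈ V)
    (hlam : ∀ i, lam i ∈ V) (hrel : ∀ i, p i * l i + ∑ j, s i j * o j = q i * lam i)
    (B C : Submodule k Ω) [FiniteDimensional k B] [FiniteDimensional k C]
    (hp : ∀ b ∈ B, ∀ i, b * p i ∈ C) (hq : ∀ b ∈ B, ∀ i, b * q i ∈ C)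
    (hs : ∀ b ∈ B, ∀ i j, b * s i j ∈ C) (d : ℕ)
    (hd : ∀ c : Fin m → Fin m → k, finrank k (Deg B p q c) ≤ d) :
    m * finrank k B ≤ d + finrank k C * (finrank k C - 1) := by
  classical
  let bC := Module.finBasis k C
  let x : Fin (finrank k C) → Ω := fun v => ((bC v : C) : Ω)
  have hx : LinearIndependent k x := bC.linearIndependent.map' C.subtype C.ker_subtype
  -- coordinates of the products
  let γp : Fin m → B →ₗ[k] C := fun i => {
    toFun := fun b => ⟨(b : Ω) * p i, hp _ b.2 i⟩
    map_add' := by intro b b'; apply Subtype.ext; simp only [Submodule.coe_add, add_mul]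
    map_smul' := by
      intro a b; apply Subtype.ext
      simp only [Submodule.coe_smul, smul_mul_assoc, RingHom.id_apply] }
  let γq : Fin m → B →ₗ[k] C := fun i => {
    toFun := fun b => ⟨(b : Ω) * q i, hq _ b.2 i⟩
    map_add' := by intro b b'; apply Subtype.ext; simp only [Submodule.coe_add, add_mul]
    map_smul' := by
      intro a b; apply Subtype.ext
      simp only [Submodule.coe_smul, smul_mul_assoc, RingHom.id_apply] }
  let γs : Fin m → κ → B →ₗ[k] C := fun i j => {
    toFun := fun b => ⟨(b : Ω) * s i j, hs _ b.2 i j⟩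
    map_add' := by intro b b'; apply Subtype.ext; simp only [Submodule.coe_add, add_mul]
    map_smul' := by
      intro a b; apply Subtype.ext
      simp only [Submodule.coe_smul, smul_mul_assoc, RingHom.id_apply] }
  have hγp : ∀ i (b : B), ∑ v, bC.repr (γp i b) v • x v = (b : Ω) * p i := by
    intro i b
    have h := congrArg (fun z : C => (z : Ω)) (bC.sum_repr (γp i b))
    simp only [Submodule.coe_sum, Submodule.coe_smul] at h
    exact h
  have hγq : ∀ i (b : B), ∑ v, bC.repr (γq i b) v • x v = (b : Ω) * q i := by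
    intro i b
    have h := congrArg (fun z : C => (z : Ω)) (bC.sum_repr (γq i b))
    simp only [Submodule.coe_sum, Submodule.coe_smul] at h
    exact h
  have hγs : ∀ i j (b : B), ∑ v, bC.repr (γs i j b) v • x v = (b : Ω) * s i j := by
    intro i j b
    have h := congrArg (fun z : C => (z : Ω)) (bC.sum_repr (γs i j b))
    simp only [Submodule.coe_sum, Submodule.coe_smul] at h
    exact h
  let Φ : (Fin m → B) →ₗ[k] (Fin (finrank k C) → Ω) := {
    toFun := fun b v => ∑ i, (bC.repr (γp i (b i)) v • l i +
      ∑ j, bC.repr (γs i j (b i)) v • o j - bC.repr (γq i (b i)) v • lam i)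
    map_add' := by
      intro b b'
      funext v
      simp only [Pi.add_apply, map_add, Finsupp.add_apply, add_smul, Finset.sum_add_distrib]
      rw [← Finset.sum_add_distrib]
      refine Finset.sum_congr rfl fun i _ => ?_
      ring
    map_smul' := by
      intro a b
      funext v
      simp only [Pi.smul_apply, map_smul, Finsupp.smul_apply, smul_eq_mul, RingHom.id_apply]
      rw [Finset.smul_sum]
      refine Finset.sum_congr rfl fun i _ => ?_
      rw [smul_sub, smul_add, Finset.smul_sum, mul_smul, mul_smul]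
      congr 2
      refine Finset.sum_congr rfl fun j _ => ?_
      rw [mul_smul] }
  have hrange : finrank k (LinearMap.range Φ) ≤ finrank k C * (finrank k C - 1) := by
    apply hV.finrank_le x hx
    rintro _ ⟨b, rfl⟩
    refine ⟨fun v => ?_, ?_⟩
    · change ∑ i, (bC.repr (γp i (b i)) v • l i + ∑ j, bC.repr (γs i j (b i)) v • o j -
          bC.repr (γq i (b i)) v • lam i) ∈ V
      refine Submodule.sum_mem _ fun i _ => Submodule.sub_mem _ (Submodule.add_mem _ ?_ ?_) ?_
      · exact Submodule.smul_mem _ _ (hlV i)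
      · exact Submodule.sum_mem _ fun j _ => Submodule.smul_mem _ _ (hoV j)
      · exact Submodule.smul_mem _ _ (hlam i)
    · have e1 : ∑ v, x v * Φ b v = ∑ i,
          ((∑ v, bC.repr (γp i (b i)) v • x v) * l i +
            ∑ j, (∑ v, bC.repr (γs i j (b i)) v • x v) * o j -
            (∑ v, bC.repr (γq i (b i)) v • x v) * lam i) := by
        change ∑ v, x v * ∑ i, (bC.repr (γp i (b i)) v • l i +
          ∑ j, bC.repr (γs i j (b i)) v • o j - bC.repr (γq i (b i)) v • lam i) = _
        simp only [Finset.mul_sum]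
        rw [Finset.sum_comm]
        refine Finset.sum_congr rfl fun i _ => ?_
        have e2 : ∑ j, (∑ v, bC.repr (γs i j (b i)) v • x v) * o j =
            ∑ v, ∑ j, bC.repr (γs i j (b i)) v • x v * o j := by
          rw [Finset.sum_comm]
          refine Finset.sum_congr rfl fun j _ => ?_
          rw [Finset.sum_mul]
        rw [e2, Finset.sum_mul, Finset.sum_mul, ← Finset.sum_add_distrib,
          ← Finset.sum_sub_distrib]
        refine Finset.sum_congr rfl fun v _ => ?_
        rw [mul_sub, mul_add, Finset.mul_sum]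
        congr 1
        · congr 1
          · simp only [Algebra.smul_def]
            ring
          · refine Finset.sum_congr rfl fun j _ => ?_
            simp only [Algebra.smul_def]
            ring
        · simp only [Algebra.smul_def]
          ring
      rw [e1]
      refine Finset.sum_eq_zero fun i _ => ?_
      rw [hγp, hγq]
      have e3 : ∑ j, (∑ v, bC.repr (γs i j (b i)) v • x v) * o j =
          ((b i : B) : Ω) * ∑ j, s i j * o j := by
        rw [Finset.mul_sum]
        refine Finset.sum_congr rfl fun j _ => ?_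
        rw [hγs, mul_assoc]
      rw [e3]
      linear_combination (((b i : B) : Ω)) * hrel i
  choose ψ hψ hψo using fun h : Fin m => exists_coord' hl h
  have hker : finrank k (LinearMap.ker Φ) ≤ d := by
    refine le_trans ?_ (hd (fun h i => ψ h (lam i)))
    have h1 : LinearMap.ker Φ ≤ Deg B p q (fun h i => ψ h (lam i)) := by
      intro b hb
      rw [mem_Deg]
      intro h
      have h2 : ∀ v, bC.repr (γp h (b h)) v =
          ∑ i, bC.repr (γq i (b i)) v * ψ h (lam i) := by
        intro v
        have h3 : Φ b = 0 := LinearMap.mem_ker.mp hb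
        have h4 : ∑ i, (bC.repr (γp i (b i)) v • l i + ∑ j, bC.repr (γs i j (b i)) v • o j -
          bC.repr (γq i (b i)) v • lam i) = 0 := congrFun h3 v
        have h5 := congrArg (ψ h) h4
        rw [map_zero, map_sum] at h5
        simp only [map_sub, map_add, map_sum, map_smul, smul_eq_mul, hψo, mul_zero,
          Finset.sum_const_zero, add_zero, Finset.sum_sub_distrib] at h5
        rw [Finset.sum_eq_single h] at h5
        · rw [hψ h h, if_pos rfl, mul_one] at h5
          exact sub_eq_zero.mp h5
        · intro i _ hi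
          rw [hψ h i, if_neg hi, mul_zero]
        · intro hh; exact absurd (Finset.mem_univ _) hh
      rw [← hγp h]
      rw [Finset.sum_congr rfl fun v _ => by rw [h2 v]]
      have h6 : ∀ i, ψ h (lam i) • (((b i : B) : Ω) * q i) =
          ∑ v, (bC.repr (γq i (b i)) v * ψ h (lam i)) • x v := by
        intro i
        rw [← hγq i, Finset.smul_sum]
        refine Finset.sum_congr rfl fun v _ => ?_
        rw [smul_smul, mul_comm]
      rw [Finset.sum_congr rfl fun i _ => h6 i, Finset.sum_comm]
      refine Finset.sum_congr rfl fun v _ => ?_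
      rw [Finset.sum_smul]
    exact Submodule.finrank_mono h1
  have h9 := LinearMap.finrank_range_add_finrank_ker Φ
  rw [Module.finrank_pi_fintype, Finset.sum_const, Finset.card_univ, Fintype.card_fin,
    smul_eq_mul] at h9
  omega

/-- **Polynomial multipliers.** -/
theorem rank_poly' {V : Submodule k Ω} (hV : Hyper V) {t : Ω} (ht : Transcendental k t) {D : ℕ}
    {m : ℕ} {κ : Type} [Fintype κ] (l : Fin m → Ω) (o : κ → Ω) (P : Fin m → k[X])
    (S : Fin m → κ → k[X]) (hP1 : ∀ i, 1 ≤ (P i).natDegree)
    (hP2 : ∀ i, (P i).natDegree ≤ D) (hS : ∀ i j, (S i j).natDegree ≤ D)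
    (hl : LinearIndependent k (Sum.elim o l)) (hoV : ∀ j, o j ∈ V) (hlV : ∀ i, l i ∈ V)
    (hw : ∀ i, aeval t (P i) * l i + ∑ j, aeval t (S i j) * o j ∈ V) :
    m * D ≤ 2 * D * (2 * D - 1) := by
  classical
  have h := core' hV l (fun i => aeval t (P i) * l i + ∑ j, aeval t (S i j) * o j)
    (fun i => aeval t (P i)) (fun _ => 1) o (fun i j => aeval t (S i j))
    hl hoV hlV hw (fun i => (one_mul _).symm) (PV k t D) (PV k t (2 * D)) ?_ ?_ ?_ 0 ?_
  · rw [finrank_PV ht, finrank_PV ht, zero_add] at h
    exact h
  · intro b hb i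
    exact PV_mul (a := D) (b := D + 1) (by omega) hb
      (aeval_mem_PV (by have := hP2 i; omega))
  · intro b hb i
    rw [mul_one]
    exact Submodule.map_mono (degreeLT_mono (by omega)) hb
  · intro b hb i j
    exact PV_mul (a := D) (b := D + 1) (by omega) hb
      (aeval_mem_PV (by have := hS i j; omega))
  · intro c
    have hbot : Deg (PV k t D) (fun i => aeval t (P i)) (fun _ => (1 : Ω)) c = ⊥ := by
      rw [Submodule.eq_bot_iff]
      intro b hb
      rw [mem_Deg] at hb
      choose Q hQ hQq using fun i => mem_PV.mp (b i).2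
      have hpoly : ∀ h, Q h * P h = ∑ i, c h i • Q i := by
        intro h
        apply aeval_inj ht
        rw [map_mul, map_sum, hQq, hb h]
        refine Finset.sum_congr rfl fun i _ => ?_
        rw [map_smul, hQq, mul_one]
      by_contra hcon
      obtain ⟨i₁, hi₁⟩ := Function.ne_iff.mp hcon
      have hne : (Finset.univ.filter fun i => Q i ≠ 0).Nonempty := by
        refine ⟨i₁, Finset.mem_filter.mpr ⟨Finset.mem_univ _, fun h0 => hi₁ ?_⟩⟩
        apply Subtype.ext
        rw [← hQq, h0, map_zero]
        rfl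
      obtain ⟨h, hh, hmax⟩ := Finset.exists_max_image _ (fun i => (Q i).natDegree) hne
      have hQh : Q h ≠ 0 := (Finset.mem_filter.mp hh).2
      have hP0 : P h ≠ 0 := by
        intro h0
        have := hP1 h
        rw [h0, natDegree_zero] at this
        omega
      have h1 : (Q h * P h).natDegree ≤ (Q h).natDegree := by
        rw [hpoly h]
        apply natDegree_sum_le_of_forall_le
        intro i _
        refine (natDegree_smul_le _ _).trans ?_
        by_cases hi : Q i = 0
        · rw [hi, natDegree_zero]; exact Nat.zero_le _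
        · exact hmax i (Finset.mem_filter.mpr ⟨Finset.mem_univ _, hi⟩)
      rw [natDegree_mul hQh hP0] at h1
      have := hP1 h
      omega
    rw [hbot, finrank_bot]

/-- **Quotients as multipliers.** -/
theorem rank_ratio' {V : Submodule k Ω} (hV : Hyper V) {m : ℕ} {κ : Type} [Fintype κ]
    (l lam p q : Fin m → Ω) (o : κ → Ω) (s : Fin m → κ → Ω)
    (hl : LinearIndependent k (Sum.elim o l)) (hoV : ∀ j, o j ∈ V) (hlV : ∀ i, l i ∈ V)
    (hlam : ∀ i, lam i ∈ V)
    (hrel : ∀ i, p i * l i + ∑ j, s i j * o j = q i * lam i) (hq0 : ∀ i, q i ≠ 0)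
    (hpq : ∀ i, ∀ a : k, algebraMap k Ω a * q i ≠ p i)
    (B C : Submodule k Ω) [FiniteDimensional k B] [FiniteDimensional k C]
    (hp : ∀ b ∈ B, ∀ i, b * p i ∈ C) (hq : ∀ b ∈ B, ∀ i, b * q i ∈ C)
    (hs : ∀ b ∈ B, ∀ i j, b * s i j ∈ C) :
    m * finrank k B ≤ 2 * (finrank k C * (finrank k C - 1)) := by
  have h := core' hV l lam p q o s hl hoV hlV hlam hrel B C hp hq hs (m * finrank k B / 2)
    (fun c => by
      have := finrank_Deg_le B p q hq0 hpq c
      omega)
  omega

end Pool.Agent.Run7.h671.EX
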