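import Pool.Agent.Run7.h671.ELogs

/-!
# Few exceptional bases
-/

set_option autoImplicit false

namespace Pool.Agent.Run7.h671.EX

open Module Finset Polynomial
open Pool.Agent.HP778
open Pool.Agent.H301R2.SSE (QB mem_QB Lt Lt_mul Lt_alg Lt_log Lt_one LB LB_log LB_mul LB_alg)

theorem real_log_indep {r : ℕ} (a : Fin r → ℝ) (ha : ∀ i, 0 < a i)
    (hm : ∀ c : Fin r → ℤ, ∏ i, a i ^ c i = 1 → c = 0) :
    LinearIndependent ℚ (fun i => ((Real.log (a i) : ℝ) : ℂ)) := by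
  rw [← LinearIndependent.iff_fractionRing ℤ ℚ, Fintype.linearIndependent_iff]
  intro c hc
  have hc' : ∑ i, (c i : ℝ) * Real.log (a i) = 0 := by
    have h : ((∑ i, (c i : ℝ) * Real.log (a i) : ℝ) : ℂ) = 0 := by
      rw [← hc]
      push_cast
      refine Finset.sum_congr rfl fun i _ => ?_
      rw [zsmul_eq_mul]
    exact_mod_cast h
  have h1 : ∏ i, a i ^ c i = 1 := by
    have h2 : Real.log (∏ i, a i ^ c i) = 0 := by
      rw [Real.log_prod (fun i _ => (zpow_pos (ha i) _).ne'), ← hc']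
      refine Finset.sum_congr rfl fun i _ => ?_
      rw [Real.log_zpow]
    have h3 : 0 < ∏ i, a i ^ c i := Finset.prod_pos fun i _ => zpow_pos (ha i) _
    rcases Real.log_eq_zero.1 h2 with h | h | h
    · exact absurd h h3.ne'
    · exact h
    · rw [h] at h3; linarith
  exact congrFun (hm c h1)

theorem exp_log_real {a : ℝ} (ha : 0 < a) (h : IsAlgebraic ℚ a) :
    IsAlgebraic ℚ (Complex.exp ((Real.log a : ℝ) : ℂ)) := by
  rw [← Complex.ofReal_exp, Real.exp_log ha]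
  exact h.algebraMap (A := ℂ)

/-- the bases `a₀ e ^ s`, `a i e ^ s`; `d i = log (a i) - log a₀` independent -/
theorem bases_core {E : Set ℂ} {r : ℕ}
    (h : ∀ (m : ℕ) (l : Fin m → ℂ), LinearIndependent QB l → (∀ i, l i ∈ Lt) →
      (∀ i, ∃ x ∈ E, x * l i ∈ Lt) → m ≤ r + 1) {s : ℂ} (hs : IsAlgebraic ℚ s) (hs0 : s ≠ 0)
    {m : ℕ} (a₀ : ℝ) (a : Fin m → ℝ) (ha₀ : 0 < a₀) (ha₀' : IsAlgebraic ℚ a₀)
    (ha : ∀ i, 0 < a i) (ha' : ∀ i, IsAlgebraic ℚ (a i))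
    (hli : LinearIndependent ℚ
      (fun i => ((Real.log (a i) : ℝ) : ℂ) - ((Real.log a₀ : ℝ) : ℂ)))
    (h0 : ∃ x ∈ E, x * (s + ((Real.log a₀ : ℝ) : ℂ)) ∈ Lt)
    (hi : ∀ i, ∃ x ∈ E, x * (s + ((Real.log (a i) : ℝ) : ℂ)) ∈ Lt) : m ≤ r := by
  have hd : ∀ i, IsAlgebraic ℚ (Complex.exp
      (((Real.log (a i) : ℝ) : ℂ) - ((Real.log a₀ : ℝ) : ℂ))) := fun i => by
    rw [Complex.exp_sub, div_eq_mul_inv]
    exact (exp_log_real (ha i) (ha' i)).mul (exp_log_real ha₀ ha₀').inv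
  have h1 := h (m + 1) _ (indep_shift hs hs0 (exp_log_real ha₀ ha₀') _ hd hli) ?_ ?_
  · omega
  · intro i
    cases finSuccEquiv m i with
    | none => exact Lt.add_mem (Lt_alg hs) (Lt_log (exp_log_real ha₀ ha₀'))
    | some j =>
      exact Lt.add_mem (Lt.add_mem (Lt_alg hs) (Lt_log (exp_log_real ha₀ ha₀'))) (Lt_log (hd j))
  · intro i
    cases finSuccEquiv m i with
    | none => exact h0
    | some j =>
      obtain ⟨x, hx, hxl⟩ := hi j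
      refine ⟨x, hx, ?_⟩
      have e : s + ((Real.log a₀ : ℝ) : ℂ) +
          (((Real.log (a j) : ℝ) : ℂ) - ((Real.log a₀ : ℝ) : ℂ)) =
            s + ((Real.log (a j) : ℝ) : ℂ) := by ring
      change x * (s + ((Real.log a₀ : ℝ) : ℂ) +
          (((Real.log (a j) : ℝ) : ℂ) - ((Real.log a₀ : ℝ) : ℂ))) ∈ Lt
      rw [e]
      exact hxl

/-- counting the bases `n e ^ s` -/
theorem bases_count {E : Set ℂ} {r : ℕ}
    (h : ∀ (m : ℕ) (l : Fin m → ℂ), LinearIndependent QB l → (∀ i, l i ∈ Lt) →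
      (∀ i, ∃ x ∈ E, x * l i ∈ Lt) → m ≤ r + 1) {s : ℂ} (hs : IsAlgebraic ℚ s) (hs0 : s ≠ 0)
    (N : ℕ) (B : Set ℕ)
    (hB : ∀ n ∈ B, 1 ≤ n ∧ n ≤ N ∧ ∃ x ∈ E, x * (s + ((Real.log n : ℝ) : ℂ)) ∈ Lt) :
    B.ncard ≤ (Nat.log 2 N + 1) ^ r := by
  classical
  have hfin : B.Finite := (Set.finite_Icc 1 N).subset fun n hn => ⟨(hB n hn).1, (hB n hn).2.1⟩
  rcases B.eq_empty_or_nonempty with h0 | ⟨n₀, hn₀⟩
  · rw [h0, Set.ncard_empty]
    exact Nat.zero_le _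
  rw [Set.ncard_eq_toFinset_card B hfin]
  have hmem : ∀ n, n ∈ hfin.toFinset ↔ n ∈ B := fun n => hfin.mem_toFinset
  refine count (N := N) _ (fun n hn => ⟨(hB n ((hmem n).1 hn)).1, (hB n ((hmem n).1 hn)).2.1⟩)
    n₀ (hB n₀ hn₀).2.1 ?_
  intro m n hn hli
  have hpos : ∀ k ∈ B, (0 : ℝ) < (k : ℝ) := fun k hk => by exact_mod_cast (hB k hk).1
  have halg : ∀ k : ℕ, IsAlgebraic ℚ (k : ℝ) := fun k => isAlgebraic_natCast k
  exact bases_core h hs hs0 (n₀ : ℝ) (fun i => (n i : ℝ)) (hpos _ hn₀) (halg _)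
    (fun i => hpos _ ((hmem _).1 (hn i))) (fun i => halg _) hli (hB n₀ hn₀).2.2
    fun i => (hB _ ((hmem _).1 (hn i))).2.2

/-- counting with finitely many fixed logarithmic elements -/
theorem pairs_count {r : ℕ} (Q : ℕ → Prop)
    (h : ∀ (m : ℕ) (l : Fin m → ℝ), (∀ i, IsAlgebraic ℚ (Complex.exp (l i : ℂ))) →
      LinearIndependent ℚ (fun i => (l i : ℂ)) → (∀ i, ∃ n : ℕ, l i = Real.log n ∧ Q n) → m ≤ r)
    (N : ℕ) : ({n : ℕ | 1 ≤ n ∧ n ≤ N ∧ Q n}).ncard ≤ (Nat.log 2 N + 1) ^ r := by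
  classical
  have h1 := count_of (N := N) (r := r) Q (by
    intro m n hn halg hli
    exact h m (fun i => Real.log (n i)) halg hli fun i => ⟨n i, rfl, (hn i).2⟩)
  refine le_trans ?_ h1
  rw [← Set.ncard_coe_finset]
  refine Set.ncard_le_ncard ?_ (Finset.finite_toSet _)
  rintro n ⟨hn1, hnN, hQ⟩
  rw [Finset.mem_coe, Finset.mem_filter, Finset.mem_Icc]
  exact ⟨⟨hn1, hnN⟩, hQ⟩

/-- bounds for the multipliers `P (t)`: independent elements of `Lt` -/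
theorem lt_poly {t : ℂ} (ht : Transcendental ℚ t) {D : ℕ} (hD : 1 ≤ D) (m : ℕ) (l : Fin m → ℂ)
    (hl : LinearIndependent QB l) (hlL : ∀ i, l i ∈ Lt)
    (h : ∀ i, ∃ P : QB[X], 1 ≤ P.natDegree ∧ P.natDegree ≤ D ∧ aeval t P * l i ∈ Lt) :
    m ≤ 4 * D - 2 := by
  refine poly_bound ht hD l (fun j : Fin 0 => j.elim0) (sum_elim_empty hl) (fun j => j.elim0)
    hlL fun i => ?_
  obtain ⟨P, h1, h2, h3⟩ := h i
  exact ⟨P, fun j => j.elim0, h1, h2, fun j => j.elim0, by simpa using h3⟩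

theorem lt_ratio {r : ℕ} (t : Fin r → ℂ) {D : ℕ} (hD : 1 ≤ D) (m : ℕ) (l : Fin m → ℂ)
    (hl : LinearIndependent QB l) (hlL : ∀ i, l i ∈ Lt)
    (h : ∀ i, ∃ x : ℂ, Transcendental ℚ x ∧ (∃ P Q : MvPolynomial (Fin r) QB,
      (∀ i, P.degreeOf i ≤ D) ∧ (∀ i, Q.degreeOf i ≤ D) ∧ MvPolynomial.aeval t Q ≠ 0 ∧
      x = MvPolynomial.aeval t P / MvPolynomial.aeval t Q) ∧ x * l i ∈ Lt) :
    m ≤ 2 * ((4 * D) ^ r - 2 ^ r) := by
  refine ratio_bound t hD l (fun j : Fin 0 => j.elim0) (sum_elim_empty hl) (fun j => j.elim0)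
    hlL fun i => ?_
  obtain ⟨x, hx, ⟨P, Q, h1, h2, h3, h4⟩, h5⟩ := h i
  exact ⟨x, fun j => j.elim0, ⟨P, Q, fun j => j.elim0, h1, h2, fun j => j.elim0, h3, h4,
    fun j => j.elim0⟩, hx, by simpa using h5⟩

end Pool.Agent.Run7.h671.EX
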