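import Pool.Agent.Run7.h671.EPow

/-!
# Finitely many fixed logarithms as additional columns, and the bases `n α`
-/

set_option autoImplicit false

namespace Pool.Agent.Run7.h671.EX

open Module Finset Polynomial
open Pool.Agent.HP778
open Pool.Agent.H301R2.SSE (QB mem_QB Lt Lt_mul Lt_alg Lt_log Lt_one LB LB_log LB_mul LB_alg)

/-- independent vectors with a property `P` among `v`, `v + l i` -/
theorem shift_bound {P : ℂ → Prop} {r : ℕ} (h : ∀ (m : ℕ) (l : Fin m → ℂ),
    LinearIndependent ℚ l → (∀ i, P (l i)) → m ≤ r) {m : ℕ} (v : ℂ) (l : Fin m → ℂ)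
    (hl : LinearIndependent ℚ l) (hv : P v) (hvl : ∀ i, P (v + l i)) : m ≤ r := by
  classical
  set f : Option (Fin m) → ℂ := fun o => o.elim v fun i => v + l i with hf
  obtain ⟨κ, a, ha, hspan, hli⟩ := exists_linearIndependent' ℚ f
  have : Finite κ := Finite.of_injective a ha
  have : Fintype κ := Fintype.ofFinite κ
  have hP : ∀ o, P (f o) := by
    intro o
    cases o with
    | none => exact hv
    | some i => exact hvl i
  have h1 := h (Fintype.card κ) ((f ∘ a) ∘ (Fintype.equivFin κ).symm)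
    (hli.comp _ (Fintype.equivFin κ).symm.injective) fun i => hP _
  have h2 : Submodule.span ℚ (Set.range l) ≤ Submodule.span ℚ (Set.range (f ∘ a)) := by
    rw [hspan, Submodule.span_le]
    rintro _ ⟨i, rfl⟩
    have h3 := Submodule.sub_mem _ (Submodule.subset_span (s := Set.range f) ⟨some i, rfl⟩)
      (Submodule.subset_span (R := ℚ) (s := Set.range f) ⟨none, rfl⟩)
    have h4 : f (some i) - f none = l i := by
      simp only [hf, Option.elim_some, Option.elim_none]
      ring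
    rwa [h4] at h3
  have : FiniteDimensional ℚ (Submodule.span ℚ (Set.range (f ∘ a))) :=
    FiniteDimensional.span_of_finite _ (Set.finite_range _)
  have h5 := Submodule.finrank_mono h2
  rw [finrank_span_eq_card hl, finrank_span_eq_card hli, Fintype.card_fin] at h5
  exact h5.trans h1

/-- counting the bases `n α` -/
theorem shift_count {r : ℕ} (Q : ℕ → Prop) {α : ℝ} (hα : 0 < α) (hαa : IsAlgebraic ℚ α)
    (h : ∀ (m : ℕ) (l : Fin m → ℂ), (∀ i, IsAlgebraic ℚ (Complex.exp (l i))) →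
      LinearIndependent ℚ l →
      (∀ i, ∃ n : ℕ, 1 ≤ n ∧ l i = ((Real.log (n * α) : ℝ) : ℂ) ∧ Q n) → m ≤ r) (N : ℕ) :
    ({n : ℕ | 1 ≤ n ∧ n ≤ N ∧ Q n}).ncard ≤ (Nat.log 2 N + 1) ^ r := by
  classical
  set B : Set ℕ := {n : ℕ | 1 ≤ n ∧ n ≤ N ∧ Q n} with hB
  have hfin : B.Finite := (Set.finite_Icc 1 N).subset fun n hn => ⟨hn.1, hn.2.1⟩
  rcases B.eq_empty_or_nonempty with h0 | ⟨n₀, hn₀⟩
  · rw [h0, Set.ncard_empty]
    exact Nat.zero_le _
  rw [Set.ncard_eq_toFinset_card B hfin]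
  have hmem : ∀ n, n ∈ hfin.toFinset ↔ n ∈ B := fun n => hfin.mem_toFinset
  refine count (N := N) _ (fun n hn => ⟨((hmem n).1 hn).1, ((hmem n).1 hn).2.1⟩)
    n₀ hn₀.2.1 ?_
  intro m n hn hli
  have hpos : ∀ k ∈ B, (0 : ℝ) < (k : ℝ) := fun k hk => by exact_mod_cast hk.1
  refine shift_bound (P := fun z => ∃ n : ℕ, 1 ≤ n ∧ z = ((Real.log (n * α) : ℝ) : ℂ) ∧ Q n)
    (r := r) (fun m l hl hP => h m l (fun i => ?_) hl hP) ((Real.log (n₀ * α) : ℝ) : ℂ) _ hli
    ⟨n₀, hn₀.1, rfl, hn₀.2.2⟩ fun i => ?_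
  · obtain ⟨k, hk1, hk2, -⟩ := hP i
    rw [hk2]
    exact exp_log_real (mul_pos (by exact_mod_cast hk1) hα) ((isAlgebraic_natCast k).mul hαa)
  · have h1 := (hmem _).1 (hn i)
    refine ⟨n i, h1.1, ?_, h1.2.2⟩
    rw [Real.log_mul (hpos _ hn₀).ne' hα.ne', Real.log_mul (hpos _ h1).ne' hα.ne']
    push_cast
    ring

/-- the exchange lemma for several vectors -/
theorem exchange_gen {s m : ℕ} {g : Fin s → ℂ} (hg : LinearIndependent ℚ g)
    (l : Fin (m + s) → ℂ) (hl : LinearIndependent ℚ l) :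
    ∃ a : Fin m → Fin (m + s), Function.Injective a ∧
      LinearIndependent ℚ (Sum.elim g (l ∘ a) : Fin s ⊕ Fin m → ℂ) := by
  classical
  set W := Submodule.span ℚ (Set.range g) with hW
  have : FiniteDimensional ℚ W := FiniteDimensional.span_of_finite _ (Set.finite_range _)
  obtain ⟨κ, a, ha, hspan, hli⟩ := exists_linearIndependent' ℚ (W.mkQ ∘ l)
  have : Finite κ := Finite.of_injective a ha
  have : Fintype κ := Fintype.ofFinite κ
  -- the card of κ
  have hcard : m ≤ Fintype.card κ := by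
    set L := Submodule.span ℚ (Set.range l) with hL
    have : FiniteDimensional ℚ L := FiniteDimensional.span_of_finite _ (Set.finite_range _)
    have h1 : finrank ℚ L = m + s := by
      rw [hL, finrank_span_eq_card hl, Fintype.card_fin]
    have h2 := LinearMap.finrank_range_add_finrank_ker (W.mkQ.domRestrict L)
    have h3 : LinearMap.range (W.mkQ.domRestrict L) =
        Submodule.span ℚ (Set.range ((W.mkQ ∘ l) ∘ a)) := by
      rw [hspan, LinearMap.range_domRestrict, hL, Submodule.map_span, Set.range_comp]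
    have h4 : finrank ℚ (LinearMap.ker (W.mkQ.domRestrict L)) ≤ s := by
      have h5 : ∀ x : LinearMap.ker (W.mkQ.domRestrict L), ((x : L) : ℂ) ∈ W := by
        intro x
        have h6 := LinearMap.mem_ker.mp x.2
        rw [LinearMap.domRestrict_apply, Submodule.mkQ_apply,
          Submodule.Quotient.mk_eq_zero] at h6
        exact h6
      let F : LinearMap.ker (W.mkQ.domRestrict L) →ₗ[ℚ] W :=
        { toFun := fun x => ⟨((x : L) : ℂ), h5 x⟩
          map_add' := fun _ _ => rfl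
          map_smul' := fun _ _ => rfl }
      have h7 := LinearMap.finrank_le_finrank_of_injective (f := F) (fun x y hxy =>
        Subtype.ext (Subtype.ext (congrArg (fun z : W => (z : ℂ)) hxy)))
      refine h7.trans ?_
      rw [hW]
      exact (finrank_range_le_card g).trans (by rw [Fintype.card_fin])
    rw [h3, finrank_span_eq_card hli] at h2
    omega
  obtain ⟨e⟩ : Nonempty (Fin m ↪ κ) := by
    rw [Function.Embedding.nonempty_iff_card_le, Fintype.card_fin]
    exact hcard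
  refine ⟨a ∘ e, ha.comp e.injective, ?_⟩
  have h1 := LinearIndependent.sumElim_of_quotient (M' := W)
    (f := fun i => (⟨g i, Submodule.subset_span ⟨i, rfl⟩⟩ : W)) (by
      apply LinearIndependent.of_comp W.subtype
      exact hg) (l ∘ (a ∘ e)) (hli.comp e e.injective)
  exact h1

/-- `1`, `π`, and logarithms of real numbers; any finite index set -/
theorem indep_one_pi' {ι : Type} [Fintype ι] {l : ι → ℝ}
    (halg : ∀ i, IsAlgebraic ℚ (Complex.exp (l i : ℂ)))
    (hli : LinearIndependent ℚ (fun i => (l i : ℂ))) :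
    LinearIndependent QB (Sum.elim ![(1 : ℂ), ((Real.pi : ℝ) : ℂ)] fun i => (l i : ℂ)) := by
  have h := indep_one_pi (l := l ∘ (Fintype.equivFin ι).symm) (fun i => halg _)
    (hli.comp _ (Fintype.equivFin ι).symm.injective)
  have h1 := h.comp (Sum.map id (Fintype.equivFin ι))
    (Function.injective_id.sumMap (Fintype.equivFin ι).injective)
  have e : (Sum.elim ![(1 : ℂ), ((Real.pi : ℝ) : ℂ)] fun i => (l i : ℂ)) =
      (Sum.elim ![(1 : ℂ), ((Real.pi : ℝ) : ℂ)]
        fun i => (((l ∘ (Fintype.equivFin ι).symm) i : ℝ) : ℂ)) ∘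
        (Sum.map id (Fintype.equivFin ι)) := by
    funext a
    rcases a with a | a
    · rfl
    · simp
  rw [e]
  exact h1

/-- the columns `1`, `π`, `g j` -/
noncomputable def cols {s : ℕ} (g : Fin s → ℝ) : Fin 2 ⊕ Fin s → ℂ :=
  Sum.elim ![(1 : ℂ), ((Real.pi : ℝ) : ℂ)] fun j => (g j : ℂ)

theorem indep_cols {s m : ℕ} {g : Fin s → ℝ} {l : Fin m → ℝ}
    (hg : ∀ i, IsAlgebraic ℚ (Complex.exp (g i : ℂ)))
    (hl : ∀ i, IsAlgebraic ℚ (Complex.exp (l i : ℂ)))
    (hli : LinearIndependent ℚ (Sum.elim (fun j => (g j : ℂ)) fun i => (l i : ℂ))) :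
    LinearIndependent QB (Sum.elim (cols g) fun i => (l i : ℂ)) := by
  have h := indep_one_pi' (l := (Sum.elim g l : Fin s ⊕ Fin m → ℝ)) (fun i => by
    rcases i with i | i
    · exact hg i
    · exact hl i) (by
    have e : (fun i => ((Sum.elim g l i : ℝ) : ℂ)) =
        Sum.elim (fun j => (g j : ℂ)) fun i => (l i : ℂ) := by
      funext i
      rcases i with i | i <;> rfl
    rw [e]
    exact hli)
  have h1 := h.comp (Equiv.sumAssoc (Fin 2) (Fin s) (Fin m)) (Equiv.injective _)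
  have e : (Sum.elim (cols g) fun i => (l i : ℂ)) =
      (Sum.elim ![(1 : ℂ), ((Real.pi : ℝ) : ℂ)]
        fun i => (((Sum.elim g l : Fin s ⊕ Fin m → ℝ) i : ℝ) : ℂ)) ∘
        (Equiv.sumAssoc (Fin 2) (Fin s) (Fin m)) := by
    funext a
    rcases a with (a | a) | a <;> rfl
  rw [e]
  exact h1

theorem cols_mem {s : ℕ} {g : Fin s → ℝ} (hg : ∀ i, IsAlgebraic ℚ (Complex.exp (g i : ℂ)))
    (j : Fin 2 ⊕ Fin s) : cols g j ∈ Lt := by
  rcases j with j | j
  · fin_cases j
    · exact Lt_one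
    · exact pi_mem_Lt
  · exact Lt_log (hg j)

/-- counting with the additional columns -/
theorem cols_count {s r : ℕ} (g : Fin s → ℝ) (hg : LinearIndependent ℚ (fun j => (g j : ℂ)))
    (Q : ℕ → Prop)
    (h : ∀ (m : ℕ) (l : Fin m → ℝ), (∀ i, IsAlgebraic ℚ (Complex.exp (l i : ℂ))) →
      LinearIndependent ℚ (Sum.elim (fun j => (g j : ℂ)) fun i => (l i : ℂ)) →
      (∀ i, ∃ n : ℕ, l i = Real.log n ∧ Q n) → m ≤ r) (N : ℕ) :
    ({n : ℕ | 1 ≤ n ∧ n ≤ N ∧ Q n}).ncard ≤ (Nat.log 2 N + 1) ^ (r + s) := by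
  refine pairs_count Q (fun m l hl hli hn => ?_) N
  by_contra hcon
  obtain ⟨m', hm'⟩ : ∃ m', m = m' + s := ⟨m - s, by omega⟩
  subst hm'
  obtain ⟨a, -, ha⟩ := exchange_gen hg _ hli
  have := h m' (l ∘ a) (fun i => hl _) ha fun i => hn _
  omega

end Pool.Agent.Run7.h671.EX
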