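import Pool.Agent.HP778.Main
import Pool.Agent.Run7.h671.ECore

/-!
# Linear forms in logarithms with polynomial and rational multipliers

The number `1` (and finitely many further logarithms) is used as a fixed element of the space of the
linear forms; and the elements `1 + l` for logarithms `l`.
-/

set_option autoImplicit false

namespace Pool.Agent.Run7.h671.EX

open Module Finset Polynomial
open Pool.Agent.HP778
open Pool.Agent.H301R2.SSE (QB mem_QB Lt Lt_mul Lt_alg Lt_log Lt_one LB LB_log LB_mul LB_alg)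
open Pool.Agent.W254.HP (boxV boxV_double finrank_boxV_le box_mul one_mem_boxV finrank_boxV_pos
  mon_mem)

theorem arith0 {m D : ℕ} (hD : 1 ≤ D) (h : m * D ≤ 2 * D * (2 * D - 1)) : m ≤ 4 * D - 2 := by
  have h1 : m * D ≤ (4 * D - 2) * D := by
    calc m * D ≤ 2 * D * (2 * D - 1) := h
      _ = (4 * D - 2) * D := by
        have : 4 * D - 2 = 2 * (2 * D - 1) := by omega
        rw [this]; ring
  exact Nat.le_of_mul_le_mul_right h1 (by omega)

/-- polynomial multipliers, independent elements of `Lt` -/
theorem poly_bound {t : ℂ} (ht : Transcendental ℚ t) {D : ℕ} (hD : 1 ≤ D) {m : ℕ} {κ : Type}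
    [Fintype κ] (l : Fin m → ℂ) (o : κ → ℂ) (hl : LinearIndependent QB (Sum.elim o l))
    (ho : ∀ j, o j ∈ Lt) (hlL : ∀ i, l i ∈ Lt)
    (h : ∀ i, ∃ (P : QB[X]) (S : κ → QB[X]), 1 ≤ P.natDegree ∧ P.natDegree ≤ D ∧
      (∀ j, (S j).natDegree ≤ D) ∧ aeval t P * l i + ∑ j, aeval t (S j) * o j ∈ Lt) :
    m ≤ 4 * D - 2 := by
  choose P S hP1 hP2 hS hw using h
  exact arith0 hD (rank_poly' hyper_Lt (tr_QB ht) l o P S hP1 hP2 hS hl ho hlL hw)

/-- `x = P(t) / Q(t)`, `y j = S j (t) / Q(t)` with polynomials of degree at most `D` in each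
variable -/
def Quots {r : ℕ} {κ : Type} (D : ℕ) (t : Fin r → ℂ) (x : ℂ) (y : κ → ℂ) : Prop :=
  ∃ (P Q : MvPolynomial (Fin r) QB) (S : κ → MvPolynomial (Fin r) QB),
    (∀ i, P.degreeOf i ≤ D) ∧ (∀ i, Q.degreeOf i ≤ D) ∧
    (∀ j i, (S j).degreeOf i ≤ D) ∧ MvPolynomial.aeval t Q ≠ 0 ∧
    x = MvPolynomial.aeval t P / MvPolynomial.aeval t Q ∧
    ∀ j, y j = MvPolynomial.aeval t (S j) / MvPolynomial.aeval t Q

/-- rational multipliers, independent elements of `Lt` -/
theorem ratio_bound {r : ℕ} (t : Fin r → ℂ) {D : ℕ} (hD : 1 ≤ D) {m : ℕ} {κ : Type}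
    [Fintype κ] (l : Fin m → ℂ) (o : κ → ℂ) (hl : LinearIndependent QB (Sum.elim o l))
    (ho : ∀ j, o j ∈ Lt) (hlL : ∀ i, l i ∈ Lt)
    (h : ∀ i, ∃ (x : ℂ) (y : κ → ℂ), Quots D t x y ∧ Transcendental ℚ x ∧
      x * l i + ∑ j, y j * o j ∈ Lt) :
    m ≤ 2 * ((4 * D) ^ r - 2 ^ r) := by
  choose x y hxy hx hw using h
  choose P Q S hP hQ hS hQ0 hxe hye using hxy
  have h1 : m * finrank QB (boxV t D) ≤ 2 *
      (finrank QB (boxV t (2 * D)) * (finrank QB (boxV t (2 * D)) - 1)) := by
    refine rank_ratio' hyper_Lt l (fun i => x i * l i + ∑ j, y i j * o j)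
      (fun i => MvPolynomial.aeval t (P i)) (fun i => MvPolynomial.aeval t (Q i)) o
      (fun i j => MvPolynomial.aeval t (S i j)) hl ho hlL hw ?_ hQ0 ?_
      (boxV t D) (boxV t (2 * D)) ?_ ?_ ?_
    · intro i
      have h0 := hQ0 i
      rw [mul_add, Finset.mul_sum, hxe i]
      congr 1
      · field_simp
      · refine Finset.sum_congr rfl fun j _ => ?_
        rw [hye i j]
        field_simp
    · intro i a ha
      apply hx i
      have : x i = (a : ℂ) := by
        rw [hxe i, ← ha, mul_div_cancel_right₀ _ (hQ0 i)]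
        rfl
      rw [this]
      exact mem_QB.mp a.2
    · intro b hb i
      exact box_mul t D (D + 1) (2 * D) (by omega) b hb _ (aeval_mem_box t D _ (hP i))
    · intro b hb i
      exact box_mul t D (D + 1) (2 * D) (by omega) b hb _ (aeval_mem_box t D _ (hQ i))
    · intro b hb i j
      exact box_mul t D (D + 1) (2 * D) (by omega) b hb _ (aeval_mem_box t D _ (hS i j))
  have hb := finrank_boxV_pos t hD
  have h4 := finrank_boxV_le t (2 * D)
  have h5 := boxV_double t D
  set c := finrank QB (boxV t (2 * D)) with hcdef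
  set b := finrank QB (boxV t D) with hbdef
  have h7 : m * b ≤ (2 * ((4 * D) ^ r - 2 ^ r)) * b := by
    calc m * b ≤ 2 * (c * (c - 1)) := h1
      _ ≤ 2 * ((2 ^ r * b) * ((2 * D) ^ r - 1)) :=
        Nat.mul_le_mul_left _ (Nat.mul_le_mul h5 (Nat.sub_le_sub_right h4 1))
      _ = (2 * ((4 * D) ^ r - 2 ^ r)) * b := by
        have : (4 * D) ^ r - 2 ^ r = 2 ^ r * ((2 * D) ^ r - 1) := by
          rw [Nat.mul_sub, mul_one, ← mul_pow]; congr 2; ring
        rw [this]; ring
  exact Nat.le_of_mul_le_mul_right h7 hb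

/-! ## Independence -/

/-- independent logarithms `d i`; the numbers `c + l0`, `c + l0 + d i` with a nonzero algebraic
number `c` and a logarithm `l0` are linearly independent -/
theorem indep_shift {m : ℕ} {c l0 : ℂ} (hc : IsAlgebraic ℚ c) (hc0 : c ≠ 0)
    (hl0 : IsAlgebraic ℚ (Complex.exp l0)) (d : Fin m → ℂ)
    (hd : ∀ i, IsAlgebraic ℚ (Complex.exp (d i))) (hli : LinearIndependent ℚ d) :
    LinearIndependent QB (fun i : Fin (m + 1) => (finSuccEquiv m i).elim (c + l0)
      fun j => c + l0 + d j) := by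
  classical
  have hd' := indep_QB hd hli
  have key : LinearIndependent QB (fun o : Option (Fin m) => o.elim (c + l0)
      fun j => c + l0 + d j) := by
    rw [Fintype.linearIndependent_iff] at hd' ⊢
    intro g hg
    rw [Fintype.sum_option] at hg
    simp only [Option.elim_none, Option.elim_some] at hg
    set G : QB := g none + ∑ j, g (some j) with hG
    have h1 : G • (c + l0) + ∑ j, g (some j) • d j = 0 := by
      rw [← hg, hG, add_smul, Finset.sum_smul, add_assoc, ← Finset.sum_add_distrib]
      congr 1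
      refine Finset.sum_congr rfl fun j _ => ?_
      rw [smul_add (g (some j)) (c + l0)]
    have h2 : (G : ℂ) * c ∈ LB := by
      have h3 : (G : ℂ) * c = -((G : ℂ) * l0 + ∑ j, (g (some j) : ℂ) * d j) := by
        have h4 : (G : ℂ) * (c + l0) + ∑ j, (g (some j) : ℂ) * d j = 0 := h1
        linear_combination h4
      rw [h3]
      refine LB.neg_mem (LB.add_mem ?_ (LB.sum_mem fun j _ => ?_))
      · exact LB_mul (mem_QB.mp G.2) (LB_log hl0)
      · exact LB_mul (mem_QB.mp (g (some j)).2) (LB_log (hd j))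
    have h3 := LB_alg h2 ((mem_QB.mp G.2).mul hc)
    have h4 : G = 0 := by
      rcases mul_eq_zero.mp h3 with h | h
      · exact Subtype.ext h
      · exact absurd h hc0
    rw [h4, zero_smul, zero_add] at h1
    have h5 := hd' (fun j => g (some j)) h1
    intro o
    cases o with
    | none =>
      have h6 : g none + ∑ j, g (some j) = 0 := h4
      rw [Finset.sum_eq_zero fun j _ => h5 j, add_zero] at h6
      exact h6
    | some j => exact h5 j
  exact key.comp (finSuccEquiv m) (finSuccEquiv m).injective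

theorem sum_elim_empty {m : ℕ} {l : Fin m → ℂ} (h : LinearIndependent QB l) :
    LinearIndependent QB (Sum.elim (fun j : Fin 0 => j.elim0) l) := by
  have h1 : (Sum.elim (fun j : Fin 0 => j.elim0) l : Fin 0 ⊕ Fin m → ℂ) =
      l ∘ (fun a : Fin 0 ⊕ Fin m => a.elim (fun j => j.elim0) id) := by
    funext a
    rcases a with a | a
    · exact a.elim0
    · rfl
  rw [h1]
  refine h.comp _ ?_
  intro a b hab
  rcases a with a | a
  · exact a.elim0
  rcases b with b | b
  · exact b.elim0
  exact congrArg Sum.inr hab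

/-- `1` and independent logarithms -/
theorem indep_one {m : ℕ} {l : Fin m → ℂ} (halg : ∀ i, IsAlgebraic ℚ (Complex.exp (l i)))
    (hli : LinearIndependent ℚ l) :
    LinearIndependent QB (Sum.elim (fun _ : Fin 1 => (1 : ℂ)) l) := by
  have h := Pool.Agent.W254.HP.opt_indep l halg hli
  have h1 : (Sum.elim (fun _ : Fin 1 => (1 : ℂ)) l : Fin 1 ⊕ Fin m → ℂ) =
      (fun o : Option (Fin m) => o.elim (1 : ℂ) l) ∘
        (fun a : Fin 1 ⊕ Fin m => a.elim (fun _ => none) some) := by
    funext a
    rcases a with a | a <;> rfl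
  rw [h1]
  refine h.comp _ ?_
  intro a b hab
  rcases a with a | a <;> rcases b with b | b
  · exact congrArg Sum.inl (Subsingleton.elim a b)
  · simp at hab
  · simp at hab
  · exact congrArg Sum.inr (Option.some_injective _ hab)

/-- `1`, `π` and logarithms of real numbers which are independent over the rational numbers -/
theorem indep_one_pi {m : ℕ} {l : Fin m → ℝ} (halg : ∀ i, IsAlgebraic ℚ (Complex.exp (l i : ℂ)))
    (hli : LinearIndependent ℚ (fun i => (l i : ℂ))) :
    LinearIndependent QB (Sum.elim ![(1 : ℂ), ((Real.pi : ℝ) : ℂ)] fun i => (l i : ℂ)) := by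
  classical
  -- the logarithm `π i` of `-1`
  have hI : LinearIndependent ℚ (fun o : Option (Fin m) =>
      (o.elim ((Real.pi : ℂ) * Complex.I) (fun i => (l i : ℂ)) : ℂ)) := by
    rw [Fintype.linearIndependent_iff] at hli ⊢
    intro g hg
    rw [Fintype.sum_option] at hg
    simp only [Option.elim_none, Option.elim_some] at hg
    have h1 : ((g none : ℚ) : ℝ) * Real.pi = 0 := by
      have h2 := congrArg Complex.im hg
      rw [Complex.add_im, Complex.im_sum] at h2
      have h3 : ∀ i, (g (some i) • (l i : ℂ)).im = 0 := by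
        intro i
        rw [Rat.smul_def, ← Complex.ofReal_ratCast, ← Complex.ofReal_mul, Complex.ofReal_im]
      rw [Finset.sum_eq_zero fun i _ => h3 i, add_zero] at h2
      have h4 : (g none • ((Real.pi : ℂ) * Complex.I)).im = (g none : ℝ) * Real.pi := by
        rw [Rat.smul_def]
        have : ((g none : ℚ) : ℂ) * ((Real.pi : ℂ) * Complex.I) =
            (((g none : ℚ) : ℝ) * Real.pi : ℝ) * Complex.I := by
          push_cast; ring
        rw [this, Complex.mul_I_im, Complex.ofReal_re]
      rw [h4] at h2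
      simpa using h2
    have h0 : g none = 0 := by
      rcases mul_eq_zero.mp h1 with h | h
      · exact_mod_cast h
      · exact absurd h Real.pi_ne_zero
    rw [h0, zero_smul, zero_add] at hg
    intro o
    cases o with
    | none => exact h0
    | some i => exact hli (fun i => g (some i)) hg i
  have h := Pool.Agent.W254.HP.opt_indep _ (by
    intro o
    cases o with
    | none =>
      change IsAlgebraic ℚ (Complex.exp ((Real.pi : ℂ) * Complex.I))
      rw [Complex.exp_pi_mul_I]; exact isAlgebraic_one.neg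
    | some i => exact halg i) hI
  rw [Fintype.linearIndependent_iff] at h ⊢
  intro g hg
  rw [Fintype.sum_sum_type, Fin.sum_univ_two] at hg
  simp only [Sum.elim_inl, Sum.elim_inr, Matrix.cons_val_zero, Matrix.cons_val_one] at hg
  let I' : QB := ⟨Complex.I, mem_QB.mpr Pool.Agent.H340R2.LW.isAlgebraic_I⟩
  have hI0 : I' ≠ 0 := fun h => Complex.I_ne_zero (congrArg Subtype.val h)
  have h3 := h (fun o => o.elim (g (Sum.inl 0)) fun o => o.elim (-(g (Sum.inl 1) * I'))
    fun i => g (Sum.inr i)) (by
    rw [Fintype.sum_option, Fintype.sum_option]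
    simp only [Option.elim_none, Option.elim_some]
    rw [← add_assoc, ← hg]
    congr 2
    change (-(g (Sum.inl 1) * I') : QB) • ((Real.pi : ℂ) * Complex.I) = _
    rw [Algebra.smul_def, Algebra.smul_def, map_neg, map_mul]
    have : (algebraMap QB ℂ) I' = Complex.I := rfl
    rw [this]
    have h4 := Complex.I_mul_I
    linear_combination (-(algebraMap QB ℂ (g (Sum.inl 1))) * (Real.pi : ℂ)) * h4)
  intro a
  rcases a with a | a
  · fin_cases a
    · exact h3 none
    · have h4 : -(g (Sum.inl 1) * I') = 0 := h3 (some none)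
      rw [neg_eq_zero] at h4
      exact (mul_eq_zero.mp h4).resolve_right hI0
  · exact h3 (some (some a))

end Pool.Agent.Run7.h671.EX
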