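import Pool.Agent.Run7.h671.EFew

/-!
# A fixed logarithm as an additional column
-/

set_option autoImplicit false

namespace Pool.Agent.Run7.h671.EX

open Module Finset Polynomial
open Pool.Agent.HP778
open Pool.Agent.H301R2.SSE (QB mem_QB Lt Lt_mul Lt_alg Lt_log Lt_one LB LB_log LB_mul LB_alg)

/-- the theorem of Gelfond and Schneider for positive real numbers -/
theorem gs_real {α β : ℝ} (hα : 0 < α) (hα1 : α ≠ 1) (hαa : IsAlgebraic ℚ α)
    (hβa : IsAlgebraic ℚ β) (hβ : Irrational β) : Transcendental ℚ ((α ^ β : ℝ) : ℂ) := by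
  intro h
  have hz : 0 < α ^ β := Real.rpow_pos_of_pos hα β
  have hz' : IsAlgebraic ℚ (α ^ β) :=
    (isAlgebraic_algebraMap_iff (A := ℂ) (FaithfulSMul.algebraMap_injective ℝ ℂ)).mp (by
      simpa using h)
  have hlα : Real.log α ≠ 0 := by
    intro h0
    rcases Real.log_eq_zero.1 h0 with h | h | h
    · exact hα.ne' h
    · exact hα1 h
    · linarith
  have hli : LinearIndependent ℚ ![((Real.log α : ℝ) : ℂ), ((Real.log (α ^ β) : ℝ) : ℂ)] := by
    rw [LinearIndependent.pair_iff]
    intro a b hab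
    have h1 : (a : ℝ) * Real.log α + b * Real.log (α ^ β) = 0 := by
      have h2 : (((a : ℝ) * Real.log α + b * Real.log (α ^ β) : ℝ) : ℂ) = 0 := by
        rw [← hab, Rat.smul_def, Rat.smul_def]
        push_cast
        ring
      exact_mod_cast h2
    rw [Real.log_rpow hα] at h1
    have h3 : ((a : ℝ) + b * β) * Real.log α = 0 := by linear_combination h1
    have h4 : (a : ℝ) + b * β = 0 := (mul_eq_zero.mp h3).resolve_right hlα
    have hb : b = 0 := by
      by_contra hb
      have hb' : (b : ℝ) ≠ 0 := by exact_mod_cast hb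
      apply hβ
      refine ⟨-a / b, ?_⟩
      push_cast
      field_simp
      linear_combination (-1 : ℝ) * h4
    refine ⟨?_, hb⟩
    rw [hb] at h4
    simp only [Rat.cast_zero, zero_mul, add_zero] at h4
    exact_mod_cast h4
  have h5 := indep_QB (fun i => by
    fin_cases i
    · exact exp_log_real hα hαa
    · exact exp_log_real hz hz') hli
  rw [LinearIndependent.pair_iff] at h5
  let b : QB := ⟨(β : ℂ), mem_QB.mpr (hβa.algebraMap (A := ℂ))⟩
  have h6 := h5 b (-1) (by
    rw [Real.log_rpow hα, Algebra.smul_def, Algebra.smul_def, map_neg, map_one]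
    have h7 : algebraMap QB ℂ b = (β : ℂ) := rfl
    rw [h7]
    push_cast
    ring)
  exact absurd h6.2 (by simp)

/-- the exchange lemma -/
theorem exchange {m : ℕ} {v : ℂ} (hv : v ≠ 0) (l : Fin (m + 1) → ℂ)
    (hl : LinearIndependent ℚ l) :
    ∃ h : Fin (m + 1), LinearIndependent ℚ (Fin.cons v (l ∘ h.succAbove) : Fin (m + 1) → ℂ) := by
  classical
  choose ψ hψ using fun h : Fin (m + 1) => exists_coord hl h
  by_cases hex : ∃ h, ψ h v ≠ 0
  · obtain ⟨h, hh⟩ := hex
    refine ⟨h, ?_⟩
    rw [linearIndependent_finCons]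
    refine ⟨hl.comp _ Fin.succAbove_right_injective, fun hmem => hh ?_⟩
    have h1 : Submodule.span ℚ (Set.range (l ∘ h.succAbove)) ≤ LinearMap.ker (ψ h) := by
      rw [Submodule.span_le]
      rintro _ ⟨i, rfl⟩
      rw [SetLike.mem_coe, LinearMap.mem_ker, Function.comp_apply, hψ,
        if_neg (Fin.succAbove_ne h i)]
    exact LinearMap.mem_ker.mp (h1 hmem)
  · push Not at hex
    refine ⟨0, ?_⟩
    rw [linearIndependent_finCons]
    refine ⟨hl.comp _ Fin.succAbove_right_injective, fun hmem => hv ?_⟩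
    have h1 : v ∈ Submodule.span ℚ (Set.range l) :=
      Submodule.span_mono (Set.range_comp_subset_range _ _) hmem
    obtain ⟨c, hc⟩ := (Submodule.mem_span_range_iff_exists_fun ℚ).mp h1
    have h2 : ∀ h, c h = 0 := by
      intro h
      have h3 := hex h
      rw [← hc, map_sum] at h3
      rw [Finset.sum_eq_single h] at h3
      · rw [map_smul, hψ, if_pos rfl, smul_eq_mul, mul_one] at h3
        exact h3
      · intro i _ hi
        rw [map_smul, hψ, if_neg hi, smul_zero]
      · intro hh; exact absurd (Finset.mem_univ _) hh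
    rw [← hc]
    refine Finset.sum_eq_zero fun i _ => ?_
    rw [h2, zero_smul]

/-- `1`, `π`, a fixed logarithm and logarithms of real numbers -/
theorem indep_three {m : ℕ} {v : ℝ} {l : Fin m → ℝ} (hv : IsAlgebraic ℚ (Complex.exp (v : ℂ)))
    (halg : ∀ i, IsAlgebraic ℚ (Complex.exp (l i : ℂ)))
    (hli : LinearIndependent ℚ (Fin.cons (v : ℂ) (fun i => (l i : ℂ)) : Fin (m + 1) → ℂ)) :
    LinearIndependent QB
      (Sum.elim ![(1 : ℂ), ((Real.pi : ℝ) : ℂ), (v : ℂ)] fun i => (l i : ℂ)) := by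
  have h1 := indep_one_pi (l := (Fin.cons v l : Fin (m + 1) → ℝ)) (fun i => by
    refine Fin.cases ?_ (fun j => ?_) i
    · exact hv
    · exact halg j) (by
    have e : (fun i => (((Fin.cons v l : Fin (m + 1) → ℝ) i : ℝ) : ℂ)) =
        (Fin.cons (v : ℂ) (fun i => (l i : ℂ)) : Fin (m + 1) → ℂ) := by
      funext i
      refine Fin.cases ?_ (fun j => ?_) i
      · rfl
      · rfl
    rw [e]
    exact hli)
  let σ : Fin 3 ⊕ Fin m → Fin 2 ⊕ Fin (m + 1) := Sum.elim
    ![Sum.inl 0, Sum.inl 1, Sum.inr 0] fun j => Sum.inr j.succ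
  have hσ : Function.Injective σ := by
    intro a b hab
    rcases a with a | a <;> rcases b with b | b
    · fin_cases a <;> fin_cases b <;> simp [σ] at hab ⊢
    · fin_cases a <;> simp [σ] at hab
      exact absurd hab.symm (Fin.succ_ne_zero b)
    · fin_cases b <;> simp [σ] at hab
    · simp only [σ, Sum.elim_inr, Sum.inr.injEq, Fin.succ_inj] at hab
      rw [hab]
  have h2 := h1.comp σ hσ
  have e : (Sum.elim ![(1 : ℂ), ((Real.pi : ℝ) : ℂ), (v : ℂ)] fun i => (l i : ℂ)) =
      (Sum.elim ![(1 : ℂ), ((Real.pi : ℝ) : ℂ)]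
        fun i => (((Fin.cons v l : Fin (m + 1) → ℝ) i : ℝ) : ℂ)) ∘ σ := by
    funext a
    rcases a with a | a
    · fin_cases a <;> rfl
    · rfl
  rw [e]
  exact h2

end Pool.Agent.Run7.h671.EX
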