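import Mathlib

set_option autoImplicit false

/-!
# Families of sets with few intersection sizes, and the rank
-/

namespace Pool.Agent.Run7.h671.Few

open Finset

variable {X Y : Type*} [Fintype X] [Fintype Y]

/-- the weight of the intersection of two rows -/
noncomputable def ov (F : X → Y → Prop) [∀ x y, Decidable (F x y)] (w : Y → ℝ) (u v : X) : ℝ :=
  ∑ y ∈ univ.filter (fun y => F u y ∧ F v y), w y

/-- the real matrix -/
def rM (F : X → Y → Prop) [∀ x y, Decidable (F x y)] : Matrix X Y ℝ :=
  Matrix.of fun x y => if F x y then (1 : ℝ) else 0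

section basis

omit [Fintype X] in
/-- a set of columns which span -/
lemma col_basis [Finite X] [DecidableEq Y] (M : Matrix X Y ℝ) :
    ∃ J : Finset Y, J.card ≤ M.rank ∧ ∀ y, ∃ c : Y → ℝ, ∀ x, M x y = ∑ j ∈ J, c j * M x j := by
  classical
  haveI := Fintype.ofFinite X
  obtain ⟨b, hb, hspan, hli⟩ := exists_linearIndependent ℝ (Set.range M.col)
  have hbfin : b.Finite := (Set.finite_range _).subset hb
  haveI : Fintype b := hbfin.fintype
  have hφ : ∀ v : b, ∃ y, M.col y = v.1 := fun v => hb v.2
  choose φ hφ using hφ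
  refine ⟨univ.image φ, ?_, fun y => ?_⟩
  · refine card_image_le.trans ?_
    rw [Matrix.rank_eq_finrank_span_cols, ← hspan, card_univ]
    have h1 := finrank_span_eq_card hli
    rw [Subtype.range_coe] at h1
    exact h1.ge
  · have hy : M.col y ∈ Submodule.span ℝ b := by
      rw [hspan]
      exact Submodule.subset_span ⟨y, rfl⟩
    have hinj : Function.Injective φ := by
      intro v w hvw
      apply Subtype.ext
      rw [← hφ v, ← hφ w, hvw]
    rw [← Subtype.range_coe (s := b), Submodule.mem_span_range_iff_exists_fun] at hy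
    obtain ⟨c, hc⟩ := hy
    refine ⟨fun j => if h : ∃ v, φ v = j then c h.choose else 0, fun x => ?_⟩
    have h2 := congrFun hc x
    rw [Finset.sum_apply] at h2
    rw [Finset.sum_image (fun v _ w _ h => hinj h)]
    have h3 : M x y = M.col y x := rfl
    rw [h3, ← h2]
    apply Finset.sum_congr rfl
    intro v _
    have h4 : (if h : ∃ w, φ w = φ v then c h.choose else 0) = c v := by
      have hex : ∃ w, φ w = φ v := ⟨v, rfl⟩
      rw [dif_pos hex, hinj hex.choose_spec]
    show c v * (v.1 : X → ℝ) x = (if h : ∃ w, φ w = φ v then c h.choose else 0) * M x (φ v)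
    rw [h4, ← hφ v]
    rfl

end basis

/-- the monomial functions of degree at most `k` -/
noncomputable def poly (F : X → Y → Prop) [∀ x y, Decidable (F x y)] (J : Finset Y) (k : ℕ) :
    Submodule ℝ (X → ℝ) :=
  Submodule.span ℝ ((fun (S : Finset Y) (x : X) => ∏ j ∈ S, rM F x j) ''
    {S | S ⊆ J ∧ S.card ≤ k})

variable (F : X → Y → Prop) [∀ x y, Decidable (F x y)]

omit [Fintype X] [Fintype Y] in
lemma rM_sq (x : X) (y : Y) : rM F x y * rM F x y = rM F x y := by
  unfold rM
  rw [Matrix.of_apply]
  split_ifs <;> norm_num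

omit [Fintype X] [Fintype Y] in
lemma poly_mul [DecidableEq Y] (J : Finset Y) (k : ℕ) (g : X → ℝ) (hg : g ∈ poly F J k) (c : ℝ)
    (w : Y → ℝ) : (fun x => g x * (∑ j ∈ J, w j * rM F x j - c)) ∈ poly F J (k + 1) := by
  unfold poly at hg ⊢
  induction hg using Submodule.span_induction with
  | mem g hg =>
    obtain ⟨S, ⟨hS1, hS2⟩, rfl⟩ := hg
    have e : (fun x => (∏ j ∈ S, rM F x j) * (∑ j ∈ J, w j * rM F x j - c)) =
        (∑ i ∈ J, w i • (fun x : X => ∏ j ∈ insert i S, rM F x j)) -
          c • (fun x : X => ∏ j ∈ S, rM F x j) := by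
      funext x
      simp only [Pi.sub_apply, Finset.sum_apply, Pi.smul_apply, smul_eq_mul]
      rw [mul_sub, Finset.mul_sum]
      congr 1
      · apply Finset.sum_congr rfl
        intro i _
        by_cases hi : i ∈ S
        · rw [Finset.insert_eq_of_mem hi, ← Finset.mul_prod_erase S _ hi]
          linear_combination (w i * ∏ x_1 ∈ S.erase i, rM F x x_1) * rM_sq F x i
        · rw [Finset.prod_insert hi]
          ring
      · ring
    rw [e]
    apply Submodule.sub_mem
    · apply Submodule.sum_mem
      intro i hi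
      apply Submodule.smul_mem
      apply Submodule.subset_span
      refine ⟨insert i S, ⟨Finset.insert_subset hi hS1, ?_⟩, rfl⟩
      exact (Finset.card_insert_le _ _).trans (by omega)
    · apply Submodule.smul_mem
      apply Submodule.subset_span
      exact ⟨S, ⟨hS1, by omega⟩, rfl⟩
  | zero =>
    have e : (fun x : X => (0 : X → ℝ) x * (∑ j ∈ J, w j * rM F x j - c)) = 0 := by
      funext x
      simp
    rw [e]
    exact Submodule.zero_mem _
  | add g h _ _ ih1 ih2 =>
    have e : (fun x : X => (g + h) x * (∑ j ∈ J, w j * rM F x j - c)) =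
        (fun x => g x * (∑ j ∈ J, w j * rM F x j - c)) +
          (fun x => h x * (∑ j ∈ J, w j * rM F x j - c)) := by
      funext x
      simp only [Pi.add_apply]
      ring
    rw [e]
    exact Submodule.add_mem _ ih1 ih2
  | smul a g _ ih =>
    have e : (fun x : X => (a • g) x * (∑ j ∈ J, w j * rM F x j - c)) =
        a • (fun x => g x * (∑ j ∈ J, w j * rM F x j - c)) := by
      funext x
      simp only [Pi.smul_apply, smul_eq_mul]
      ring
    rw [e]
    exact Submodule.smul_mem _ _ ih

omit [Fintype X] [Fintype Y] in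
lemma poly_prod [DecidableEq Y] (J : Finset Y) (L : Finset ℝ) (w : Y → ℝ) :
    (fun x => ∏ l ∈ L, (∑ j ∈ J, w j * rM F x j - l)) ∈ poly F J L.card := by
  classical
  induction L using Finset.induction_on with
  | empty =>
    unfold poly
    apply Submodule.subset_span
    refine ⟨∅, ⟨Finset.empty_subset _, by simp⟩, ?_⟩
    funext x
    simp
  | insert l L hl ih =>
    rw [card_insert_of_notMem hl]
    have := poly_mul F J L.card _ ih l w
    have e : (fun x => ∏ l ∈ insert l L, (∑ j ∈ J, w j * rM F x j - l)) =
        fun x => (∏ l ∈ L, (∑ j ∈ J, w j * rM F x j - l)) * (∑ j ∈ J, w j * rM F x j - l) := by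
      funext x
      rw [prod_insert hl, mul_comm]
    rw [e]
    exact this

omit [Fintype X] [Fintype Y] in
lemma poly_mono (J : Finset Y) {k m : ℕ} (h : k ≤ m) : poly F J k ≤ poly F J m := by
  unfold poly
  apply Submodule.span_mono
  apply Set.image_mono
  rintro S ⟨h1, h2⟩
  exact ⟨h1, h2.trans h⟩

omit [Fintype Y] in
lemma finrank_poly (J : Finset Y) (k : ℕ) :
    Module.finrank ℝ (poly F J k) ≤ ∑ i ∈ range (k + 1), J.card.choose i := by
  classical
  let T : Finset (Finset Y) := (range (k + 1)).biUnion (fun i => J.powersetCard i)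
  have hT : poly F J k = Submodule.span ℝ
      ((T.image (fun (S : Finset Y) (x : X) => ∏ j ∈ S, rM F x j) : Finset (X → ℝ)) :
        Set (X → ℝ)) := by
    unfold poly
    congr 1
    rw [coe_image]
    congr 1
    ext S
    simp only [T, Set.mem_ofPred_eq, mem_coe, mem_biUnion, mem_range, mem_powersetCard]
    constructor
    · rintro ⟨h1, h2⟩
      exact ⟨S.card, by omega, h1, rfl⟩
    · rintro ⟨i, hi, h1, h2⟩
      exact ⟨h1, by omega⟩
  rw [hT]
  refine (finrank_span_finset_le_card _).trans (card_image_le.trans (card_biUnion_le.trans ?_))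
  apply le_of_eq
  apply Finset.sum_congr rfl
  intro i _
  rw [card_powersetCard]

open Classical in
/-- **Few intersection weights.** -/
theorem few (a : Y → ℝ) (ha : ∀ y, 0 < a y) (U : Finset X) (s : ℕ)
    (hdist : ∀ u ∈ U, ∀ v ∈ U, (∀ y, F u y ↔ F v y) → u = v)
    (hs : ∀ u ∈ U, ((U.filter fun v => ¬ ∀ y, F u y → F v y).image (ov F a u)).card ≤ s) :
    U.card ≤ ∑ i ∈ range (s + 1), (rM F).rank.choose i := by
  obtain ⟨J, hJ, hc⟩ := col_basis (rM F)
  choose c hc using hc
  -- intersections are linear
  let w : X → Y → ℝ := fun u j => ∑ y, a y * rM F u y * c y j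
  have hov : ∀ u v, ov F a u v = ∑ j ∈ J, w u j * rM F v j := by
    intro u v
    have h1 : ov F a u v = ∑ y, a y * rM F u y * rM F v y := by
      unfold ov rM
      rw [sum_filter]
      apply Finset.sum_congr rfl
      intro y _
      simp only [Matrix.of_apply]
      by_cases h1 : F u y <;> by_cases h2 : F v y <;> simp [h1, h2]
    rw [h1]
    simp only [w]
    simp_rw [Finset.sum_mul]
    rw [Finset.sum_comm]
    apply Finset.sum_congr rfl
    intro y _
    rw [hc y v, Finset.mul_sum]
    apply Finset.sum_congr rfl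
    intro j _
    ring
  have hle : ∀ u v, ov F a u v ≤ ov F a u u := by
    intro u v
    unfold ov
    apply Finset.sum_le_sum_of_subset_of_nonneg
    · intro y hy
      simp only [mem_filter, mem_univ, true_and] at hy ⊢
      exact ⟨hy.1, hy.1⟩
    · intro y _ _
      exact (ha y).le
  have hlt : ∀ u v, (¬ ∀ y, F u y → F v y) → ov F a u v < ov F a u u := by
    intro u v h
    push Not at h
    obtain ⟨y, hy1, hy2⟩ := h
    unfold ov
    apply Finset.sum_lt_sum_of_subset (i := y)
    · intro y hy
      simp only [mem_filter, mem_univ, true_and] at hy ⊢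
      exact ⟨hy.1, hy.1⟩
    · simp [hy1]
    · simp [hy2]
    · exact ha y
    · intro j _ _
      exact (ha j).le
  have hsymm : ∀ u v, ov F a u v = ov F a v u := by
    intro u v
    unfold ov
    congr 1
    ext y
    simp [and_comm]
  let Lu : X → Finset ℝ := fun u => (U.filter fun v => ¬ ∀ y, F u y → F v y).image (ov F a u)
  let f : X → X → ℝ := fun u v => ∏ l ∈ Lu u, (∑ j ∈ J, w u j * rM F v j - l)
  have hf : ∀ u ∈ U, f u ∈ poly F J s := fun u hu =>
    poly_mono F J (hs u hu) (poly_prod F J (Lu u) (w u))
  have hfd : ∀ u, f u u ≠ 0 := by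
    intro u
    simp only [f]
    rw [Finset.prod_ne_zero_iff]
    intro l hl
    obtain ⟨v, hv, rfl⟩ := mem_image.1 hl
    have h1 := hlt u v (mem_filter.1 hv).2
    rw [← hov]
    linarith
  have hf0 : ∀ u ∈ U, ∀ v ∈ U, v ≠ u → ov F a v v ≤ ov F a u u → f u v = 0 := by
    intro u hu v hv hvu hle'
    have h1 : ¬ ∀ y, F u y → F v y := by
      intro hsub
      -- then the weights agree
      have h2 : ov F a u v = ov F a u u := by
        unfold ov
        congr 1
        ext y
        simp only [mem_filter, mem_univ, true_and]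
        constructor
        · rintro ⟨h, _⟩
          exact ⟨h, h⟩
        · rintro ⟨h, _⟩
          exact ⟨h, hsub y h⟩
      by_cases hvsub : ∀ y, F v y → F u y
      · exact hvu (hdist v hv u hu fun y => ⟨hvsub y, hsub y⟩)
      · have h3 := hlt v u hvsub
        rw [hsymm v u, h2] at h3
        linarith
    simp only [f]
    apply Finset.prod_eq_zero (i := ov F a u v)
    · exact mem_image_of_mem _ (mem_filter.2 ⟨hv, h1⟩)
    · rw [← hov, sub_self]
  -- independence
  have hli : LinearIndependent ℝ (fun u : U => f u.1) := by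
    rw [Fintype.linearIndependent_iff]
    intro g hg
    by_contra hcon
    push Not at hcon
    obtain ⟨i, hi⟩ := hcon
    obtain ⟨m, hm, hmin⟩ := Finset.exists_min_image (univ.filter fun i : U => g i ≠ 0)
      (fun i => ov F a i.1 i.1) ⟨i, by simpa using hi⟩
    have h1 := congrFun hg m.1
    rw [Finset.sum_apply] at h1
    rw [Finset.sum_eq_single m] at h1
    · rcases mul_eq_zero.1 h1 with h2 | h2
      · exact (mem_filter.1 hm).2 h2
      · exact hfd m.1 h2
    · intro j _ hj
      show g j * f j.1 m.1 = 0
      by_cases hgj : g j = 0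
      · rw [hgj, zero_mul]
      · rw [hf0 j.1 j.2 m.1 m.2 (fun h => hj (Subtype.ext h.symm)) (hmin j (by simpa using hgj)),
          mul_zero]
    · intro h
      exact absurd (mem_univ _) h
  have h1 : U.card ≤ Module.finrank ℝ (poly F J s) := by
    have h2 := finrank_span_eq_card hli
    rw [Fintype.card_coe] at h2
    rw [← h2]
    apply Submodule.finrank_mono
    rw [Submodule.span_le]
    rintro _ ⟨u, rfl⟩
    exact hf u.1 u.2
  refine h1.trans ((finrank_poly F J s).trans ?_)
  apply Finset.sum_le_sum
  intro i _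
  exact Nat.choose_le_choose i hJ

lemma sum_choose_le (r s : ℕ) : ∑ i ∈ range (s + 1), r.choose i ≤ (r + 1) ^ s := by
  rw [add_pow]
  apply Finset.sum_le_sum
  intro i hi
  have h1 : i ≤ s := by
    rw [mem_range] at hi
    omega
  rw [one_pow, mul_one]
  calc r.choose i ≤ r ^ i := Nat.choose_le_pow r i
    _ = r ^ i * 1 := (mul_one _).symm
    _ ≤ r ^ i * s.choose i := Nat.mul_le_mul_left _ (Nat.choose_pos h1)

end Pool.Agent.Run7.h671.Few
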