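import Pool.Agent.Run7.h671.Post

set_option autoImplicit false

/-!
# Boolean operations and closed sets of rows: unions
-/

namespace Pool.Agent.Run7.h671.FB

open Finset Pool.Agent.Run7.h671

variable {k : ℕ}

/-- a conjunction of variables or constant -/
def Conj (g : (Fin k → Bool) → Bool) : Prop :=
  (∀ a, g a = false) ∨ ∃ J : Finset (Fin k), ∀ a, g a = true ↔ ∀ j ∈ J, a j = true

/-- a disjunction of variables or constant -/
def Disj (g : (Fin k → Bool) → Bool) : Prop :=
  (∀ a, g a = true) ∨ ∃ J : Finset (Fin k), ∀ a, g a = true ↔ ∃ j ∈ J, a j = true

/-- monotone -/
def Mono (g : (Fin k → Bool) → Bool) : Prop :=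
  ∀ a b : Fin k → Bool, (∀ j, a j = true → b j = true) → g a = true → g b = true

lemma not_mono {g : (Fin k → Bool) → Bool} (h : ¬ Mono g) :
    ∃ a b : Fin k → Bool, (∀ j, a j = true → b j = true) ∧ g a = true ∧ g b = false := by
  unfold Mono at h
  push Not at h
  obtain ⟨a, b, h1, h2, h3⟩ := h
  exact ⟨a, b, h1, h2, by simpa using h3⟩

/-- monotone operations which are not conjunctions -/
lemma not_conj {g : (Fin k → Bool) → Bool} (hm : Mono g) (h : ¬ Conj g) :
    ∃ p q : Fin k → Bool, g p = true ∧ g q = true ∧ g (fun j => p j && q j) = false := by
  classical
  by_contra hcon
  push Not at hcon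
  have hmeet : ∀ p q, g p = true → g q = true → g (fun j => p j && q j) = true := by
    intro p q hp hq
    have := hcon p q hp hq
    simpa using this
  apply h
  by_cases h0 : ∀ a, g a = false
  · exact Or.inl h0
  right
  push Not at h0
  obtain ⟨a₀, ha₀⟩ := h0
  have ha₀' : g a₀ = true := by simpa using ha₀
  have key : ∀ S : Finset (Fin k → Bool), S.Nonempty → (∀ p ∈ S, g p = true) →
      g (fun j => decide (∀ p ∈ S, p j = true)) = true := by
    intro S hS
    induction hS using Finset.Nonempty.cons_induction with
    | singleton a =>
      intro h1
      have h2 := h1 a (mem_singleton_self a)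
      have h3 : (fun j => decide (∀ p ∈ ({a} : Finset (Fin k → Bool)), p j = true)) = a := by
        funext j
        simp
      rw [h3]
      exact h2
    | cons a s ha hs ih =>
      intro h1
      have h2 := hmeet a _ (h1 a (mem_cons_self a s)) (ih fun p hp => h1 p (mem_cons_of_mem hp))
      have h3 : (fun j => decide (∀ p ∈ cons a s ha, p j = true)) =
          fun j => a j && decide (∀ p ∈ s, p j = true) := by
        funext j
        simp only [mem_cons, forall_eq_or_imp]
        by_cases h4 : a j = true <;> by_cases h5 : ∀ p ∈ s, p j = true <;> simp [h4, h5]
      rw [h3]
      exact h2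
  refine ⟨univ.filter fun j => ∀ p, g p = true → p j = true, fun a => ⟨fun ha j hj => ?_, fun ha => ?_⟩⟩
  · exact (mem_filter.1 hj).2 a ha
  · have h1 := key (univ.filter fun p => g p = true) ⟨a₀, by simpa using ha₀'⟩
      (fun p hp => (mem_filter.1 hp).2)
    refine hm _ _ (fun j hj => ?_) h1
    apply ha j
    rw [mem_filter]
    refine ⟨mem_univ _, fun p hp => ?_⟩
    have h2 := of_decide_eq_true hj
    exact h2 p (by simpa using hp)

lemma not_disj {g : (Fin k → Bool) → Bool} (hm : Mono g) (h : ¬ Disj g) :
    ∃ p q : Fin k → Bool, g p = false ∧ g q = false ∧ g (fun j => p j || q j) = true := by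
  classical
  let g' : (Fin k → Bool) → Bool := fun a => !g (fun j => !a j)
  have hm' : Mono g' := by
    intro a b hab ha
    have h1 : g (fun j => !a j) = false := by simpa [g'] using ha
    have h2 : g (fun j => !b j) = false := by
      by_contra hcon
      have h3 : g (fun j => !b j) = true := by simpa using hcon
      have h4 := hm (fun j => !b j) (fun j => !a j) (by
        intro j hj
        have h5 : b j = false := by simpa using hj
        have h6 : a j = false := by
          by_contra h7
          have h8 : a j = true := by simpa using h7
          rw [hab j h8] at h5
          exact absurd h5 (by decide)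
        simp [h6]) h3
      rw [h4] at h1
      exact absurd h1 (by decide)
    simp [g', h2]
  have hc' : ¬ Conj g' := by
    rintro (h1 | ⟨J, hJ⟩)
    · apply h
      left
      intro a
      have h2 := h1 (fun j => !a j)
      simpa [g'] using h2
    · apply h
      right
      refine ⟨J, fun a => ?_⟩
      have h2 := hJ (fun j => !a j)
      simp only [g', Bool.not_not] at h2
      constructor
      · intro ha
        by_contra hcon
        push Not at hcon
        have h3 : ∀ j ∈ J, (!a j) = true := by
          intro j hj
          have := hcon j hj
          simpa using this
        have h4 := h2.2 h3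
        rw [ha] at h4
        exact absurd h4 (by decide)
      · rintro ⟨j, hj, haj⟩
        by_contra hcon
        have h3 : g a = false := by simpa using hcon
        have h4 := h2.1 (by rw [h3]; rfl) j hj
        rw [haj] at h4
        exact absurd h4 (by decide)
  obtain ⟨p, q, hp, hq, hpq⟩ := not_conj hm' hc'
  refine ⟨fun j => !p j, fun j => !q j, by simpa [g'] using hp, by simpa [g'] using hq, ?_⟩
  have h1 : g (fun j => !(p j && q j)) = true := by simpa [g'] using hpq
  have h2 : (fun j => !(p j && q j)) = fun j => !p j || !q j := by
    funext j
    cases p j <;> cases q j <;> rfl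
  rw [← h2]
  exact h1

lemma mono_false {g : (Fin k → Bool) → Bool} (hm : Mono g) {a p : Fin k → Bool}
    (hp : g p = false) (h : ∀ j, a j = true → p j = true) : g a = false := by
  by_contra hcon
  have h1 := hm a p h (by simpa using hcon)
  rw [h1] at hp
  exact absurd hp (by decide)

variable {X Y : Type*}

/-- closed under the complement, the sum of three rows, or the union -/
lemma three_cases [Nonempty X] (M : X → Y → Bool) {k' : ℕ} (g : (Fin k → Bool) → Bool)
    (g' : (Fin k' → Bool) → Bool) (hg : ClosedUnder g M) (hg' : ClosedUnder g' M)
    (hN : ∃ u v : Fin k → Bool, (∀ j, ¬ (u j = true ∧ v j = true)) ∧ g u = true ∧ g v = true)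
    (hC : ¬ Conj g') :
    (∀ a, ∃ b, ∀ y, M b y = !M a y) ∨
    (∀ a b c, ∃ d, ∀ y, M d y = xor (M a y) (xor (M b y) (M c y))) ∨
    (∀ a b, ∃ c, ∀ y, M c y = (M a y || M b y)) := by
  classical
  obtain ⟨u, v, huv, hu, hv⟩ := hN
  let A : Finset (Fin k) := univ.filter fun j => u j = true
  let B : Finset (Fin k) := univ.filter fun j => v j = true
  let w : Bool → Bool → Bool → Bool := fun p q r => g (fun j => if j ∈ A then p else if j ∈ B then q else r)
  have hw : ∀ a b c : X, ∃ d, ∀ y, M d y = w (M a y) (M b y) (M c y) := fun a b c =>
    closed3 hg A B a b c
  have w100 : w true false false = true := by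
    refine Eq.trans (congrArg g (funext fun j => ?_)) hu
    by_cases h : u j = true
    · simp [A, h]
    · simp [A, h]
  have w010 : w false true false = true := by
    refine Eq.trans (congrArg g (funext fun j => ?_)) hv
    by_cases h : u j = true
    · have h2 : v j = false := by
        by_contra h3
        exact huv j ⟨h, by simpa using h3⟩
      simp [A, h, h2]
    · by_cases h' : v j = true
      · simp [A, B, h, h']
      · simp [A, B, h, h']
  cases w000 : w false false false
  · -- zero-preserving
    cases w111 : w true true true
    · -- the zero row is available
      have hz : ∀ a : X, ∃ d, ∀ y, M d y = false := by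
        intro a
        obtain ⟨d, hd⟩ := hw a a a
        refine ⟨d, fun y => ?_⟩
        rw [hd]
        cases M a y
        · exact w000
        · exact w111
      obtain ⟨z, hz⟩ := hz (Classical.arbitrary X)
      cases w110 : w true true false
      · right; left
        intro a b c
        obtain ⟨d, hd⟩ := hw b c z
        obtain ⟨e, he⟩ := hw a d z
        refine ⟨e, fun y => ?_⟩
        rw [he, hd, hz]
        cases M a y <;> cases M b y <;> cases M c y <;>
          simp [w000, w100, w010, w110]
      · right; right
        intro a b
        obtain ⟨d, hd⟩ := hw a b z
        refine ⟨d, fun y => ?_⟩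
        rw [hd, hz]
        cases M a y <;> cases M b y <;> simp [w000, w100, w010, w110]
    · cases w011 : w false true true
      · cases w101 : w true false true
        · cases w110 : w true true false
          · cases w001 : w false false true
            · -- and-like
              right; right
              intro a b
              obtain ⟨d, hd⟩ := hw a a b
              obtain ⟨e, he⟩ := hw a b d
              refine ⟨e, fun y => ?_⟩
              rw [he, hd]
              cases M a y <;> cases M b y <;>
                simp [w000, w100, w010, w110, w001, w111]
            · right; left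
              intro a b c
              obtain ⟨d, hd⟩ := hw a b c
              refine ⟨d, fun y => ?_⟩
              rw [hd]
              cases M a y <;> cases M b y <;> cases M c y <;>
                simp [w000, w100, w010, w110, w001, w101, w011, w111]
          · cases w001 : w false false true
            · -- Pixley
              right; left
              intro a b c
              -- p x y z = w x z y
              obtain ⟨p, hp⟩ := hw a c b
              obtain ⟨m, hm⟩ := hw a c p
              obtain ⟨e, he⟩ := hw p b m
              refine ⟨e, fun y => ?_⟩
              rw [he, hm, hp]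
              cases M a y <;> cases M b y <;> cases M c y <;>
                simp [w000, w100, w010, w110, w001, w101, w011, w111]
            · right; right
              intro a b
              obtain ⟨d, hd⟩ := hw a a b
              refine ⟨d, fun y => ?_⟩
              rw [hd]
              cases M a y <;> cases M b y <;> simp [w000, w110, w001, w111]
        · right; right
          intro a b
          obtain ⟨d, hd⟩ := hw a b a
          refine ⟨d, fun y => ?_⟩
          rw [hd]
          cases M a y <;> cases M b y <;> simp [w000, w101, w010, w111]
      · right; right
        intro a b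
        obtain ⟨d, hd⟩ := hw a b b
        refine ⟨d, fun y => ?_⟩
        rw [hd]
        cases M a y <;> cases M b y <;> simp [w000, w100, w011, w111]
  · cases w111 : w true true true
    · left
      intro a
      obtain ⟨d, hd⟩ := hw a a a
      refine ⟨d, fun y => ?_⟩
      rw [hd]
      cases M a y
      · exact w000
      · exact w111
    · -- the row of ones is available
      obtain ⟨t, ht⟩ : ∃ t, ∀ y, M t y = true := by
        obtain ⟨d, hd⟩ := hw (Classical.arbitrary X) (Classical.arbitrary X) (Classical.arbitrary X)
        refine ⟨d, fun y => ?_⟩
        rw [hd]
        cases M (Classical.arbitrary X) y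
        · exact w000
        · exact w111
      by_cases hm : Mono g'
      · obtain ⟨p, q, hp, hq, hpq⟩ := not_conj hm hC
        right; right
        intro a b
        obtain ⟨d, hd⟩ := closed3 hg' (univ.filter fun j => p j = true ∧ q j = true)
          (univ.filter fun j => q j = true) t b a
        refine ⟨d, fun y => ?_⟩
        rw [hd, ht]
        cases ha : M a y <;> cases hb : M b y
        · refine Eq.trans (congrArg g' (funext fun j => ?_)) hpq
          cases h1 : p j <;> cases h2 : q j <;> simp [h1, h2]
        · refine hm q _ (fun j hj => ?_) hq
          cases h1 : p j <;> simp [h1, hj]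
        · refine hm p _ (fun j hj => ?_) hp
          cases h1 : q j <;> simp [h1, hj]
        · refine hm p _ (fun j hj => ?_) hp
          cases h1 : q j <;> simp [h1, hj]
      · obtain ⟨p, q, hpq, hp, hq⟩ := not_mono hm
        let A' : Finset (Fin k') := univ.filter fun j => p j = true
        let B' : Finset (Fin k') := univ.filter fun j => q j = true
        let z : Bool → Bool → Bool := fun x y => g' (fun j => if j ∈ A' then true else if j ∈ B' then x else y)
        have hz : ∀ a b : X, ∃ d, ∀ y, M d y = z (M a y) (M b y) := by
          intro a b
          obtain ⟨d, hd⟩ := closed3 hg' A' B' t a b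
          refine ⟨d, fun y => ?_⟩
          rw [hd, ht]
        have z00 : z false false = true := by
          refine Eq.trans (congrArg g' (funext fun j => ?_)) hp
          by_cases h : p j = true
          · simp [A', h]
          · simp [A', h]
        have z10 : z true false = false := by
          refine Eq.trans (congrArg g' (funext fun j => ?_)) hq
          by_cases h : p j = true
          · simp [A', h, hpq j h]
          · by_cases h' : q j = true
            · simp [A', B', h, h']
            · simp [A', B', h, h']
        cases z11 : z true true
        · left
          intro a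
          obtain ⟨d, hd⟩ := hz a a
          refine ⟨d, fun y => ?_⟩
          rw [hd]
          cases M a y
          · exact z00
          · exact z11
        · cases z01 : z false true
          · right; left
            intro a b c
            obtain ⟨d, hd⟩ := hz b c
            obtain ⟨e, he⟩ := hz a d
            refine ⟨e, fun y => ?_⟩
            rw [he, hd]
            cases M a y <;> cases M b y <;> cases M c y <;>
              simp [z00, z01, z10, z11]
          · right; right
            intro a b
            obtain ⟨d, hd⟩ := hz a b
            obtain ⟨e, he⟩ := hz d b
            refine ⟨e, fun y => ?_⟩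
            rw [he, hd]
            cases M a y <;> cases M b y <;>
              simp [z00, z01, z10, z11]

/-- union-closed and closed under an operation which is not a disjunction -/
lemma semi_distr [Finite X] [Nonempty X] (M : X → Y → Bool) (g : (Fin k → Bool) → Bool)
    (hg : ClosedUnder g M) (hD : ¬ Disj g) (hU : ∀ a b, ∃ c, ∀ y, M c y = (M a y || M b y)) :
    ∀ a b c, ∃ d, ∀ y, M d y = (M a y || (M b y && M c y)) := by
  classical
  haveI := Fintype.ofFinite X
  by_cases hm : Mono g
  · obtain ⟨p, q, hp, hq, hpq⟩ := not_disj hm hD
    intro a b c
    obtain ⟨ab, hab⟩ := hU a b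
    obtain ⟨ac, hac⟩ := hU a c
    obtain ⟨r, hr⟩ := closed3 hg (univ.filter fun j => p j = true) (univ.filter fun j => q j = true)
      ab ac a
    obtain ⟨d, hd⟩ := hU a r
    refine ⟨d, fun y => ?_⟩
    rw [hd, hr, hab, hac]
    cases ha : M a y
    · simp only [Bool.false_or]
      cases hb : M b y <;> cases hc : M c y
      · refine mono_false hm hp (fun j hj => ?_)
        by_cases h2 : p j = true <;> by_cases h3 : q j = true <;> simp [h2, h3] at hj ⊢
      · refine mono_false hm hq (fun j hj => ?_)
        by_cases h2 : p j = true <;> by_cases h3 : q j = true <;> simp [h2, h3] at hj ⊢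
      · refine mono_false hm hp (fun j hj => ?_)
        by_cases h2 : p j = true <;> by_cases h3 : q j = true <;> simp [h2, h3] at hj ⊢
      · show g _ = true
        refine hm _ _ (fun j hj => ?_) hpq
        by_cases h2 : p j = true <;> by_cases h3 : q j = true <;> simp [h2, h3] at hj ⊢
    · simp
  · obtain ⟨p, q, hpq, hp, hq⟩ := not_mono hm
    -- the top row
    obtain ⟨u, hu⟩ : ∃ u, ∀ x y, M x y = true → M u y = true := by
      have key : ∀ S : Finset X, ∃ u, ∀ x ∈ S, ∀ y, M x y = true → M u y = true := by
        intro S
        induction S using Finset.induction_on with
        | empty => exact ⟨Classical.arbitrary X, by simp⟩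
        | insert a s _ ih =>
          obtain ⟨u, hu⟩ := ih
          obtain ⟨c, hc⟩ := hU a u
          refine ⟨c, fun x hx y hxy => ?_⟩
          rw [hc]
          rcases mem_insert.1 hx with rfl | h
          · rw [hxy]
            rfl
          · rw [hu x h y hxy]
            simp
      obtain ⟨u, hu⟩ := key univ
      exact ⟨u, fun x y => hu x (mem_univ x) y⟩
    have hcomp : ∀ a d, ∃ e, ∀ y, M e y = (M a y || (M u y && !M d y)) := by
      intro a d
      obtain ⟨ad, had⟩ := hU a d
      obtain ⟨r, hr⟩ := closed3 hg (univ.filter fun j => p j = true)
        (univ.filter fun j => q j = true) u ad a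
      obtain ⟨e, he⟩ := hU a r
      refine ⟨e, fun y => ?_⟩
      have hue := hu e y
      have hua := hu a y
      have hud := hu d y
      cases huy : M u y
      · have h1 : M e y = false := by
          by_contra hcon
          rw [hue (by simpa using hcon)] at huy
          exact absurd huy (by decide)
        have h2 : M a y = false := by
          by_contra hcon
          rw [hua (by simpa using hcon)] at huy
          exact absurd huy (by decide)
        rw [h1, h2]
        rfl
      · rw [he, hr, huy, had]
        cases ha : M a y
        · simp only [Bool.false_or, Bool.true_and]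
          cases hd : M d y
          · refine Eq.trans (congrArg g (funext fun j => ?_)) hp
            by_cases h2 : p j = true <;> simp [h2]
          · refine Eq.trans (congrArg g (funext fun j => ?_)) hq
            by_cases h2 : p j = true
            · simp [h2, hpq j h2]
            · by_cases h3 : q j = true <;> simp [h2, h3]
        · simp
    intro a b c
    obtain ⟨e1, he1⟩ := hcomp a b
    obtain ⟨e2, he2⟩ := hcomp a c
    obtain ⟨e3, he3⟩ := hU e1 e2
    obtain ⟨e4, he4⟩ := hcomp a e3
    refine ⟨e4, fun y => ?_⟩
    rw [he4, he3, he1, he2]
    have hub := hu b y
    cases huy : M u y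
    · have h2 : M b y = false := by
        by_contra hcon
        rw [hub (by simpa using hcon)] at huy
        exact absurd huy (by decide)
      rw [h2]
      cases M a y <;> cases M c y <;> rfl
    · cases M a y <;> cases M b y <;> cases M c y <;> rfl

end Pool.Agent.Run7.h671.FB
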