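import Pool.Agent.Q174.TD.Prot

set_option autoImplicit false

/-!
# Boolean matrices whose row set is closed under a Boolean operation: counting the columns
-/

namespace Pool.Agent.Run7.h671

open Finset

/-- the real matrix of a Boolean matrix -/
def rM {X Y : Type*} (F : X → Y → Bool) : Matrix X Y ℝ :=
  Matrix.of fun x y => if F x y then (1 : ℝ) else 0

/-- the number of distinct columns -/
noncomputable def ncol {X Y : Type*} (F : X → Y → Bool) : ℕ := (Set.range (fun y x => F x y)).ncard

variable {X Y : Type*}

section count

variable [Fintype X] [Fintype Y]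

omit [Fintype X] in
lemma card_le_rank [Finite X] {ι : Type*} [Fintype ι] (M : Matrix X Y ℝ) (φ : ι → Y)
    (h : ∀ α : ι → ℝ, (∀ x, ∑ i, α i * M x (φ i) = 0) → ∀ i, α i = 0) :
    Fintype.card ι ≤ M.rank := by
  have hli : LinearIndependent ℝ (fun i => M.col (φ i)) := by
    rw [Fintype.linearIndependent_iff]
    intro g hg
    apply h g
    intro x
    have := congrFun hg x
    simpa [Finset.sum_apply, Matrix.col] using this
  rw [Matrix.rank_eq_finrank_span_cols]
  rw [← finrank_span_eq_card hli]
  apply Submodule.finrank_mono
  apply Submodule.span_mono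
  rintro _ ⟨i, rfl⟩
  exact ⟨φ i, rfl⟩

lemma rank_affine (M : Matrix X Y ℝ) (a b : ℝ) :
    (Matrix.of fun x y => a + b * M x y).rank ≤ M.rank + 1 := by
  rw [Matrix.rank_eq_finrank_span_cols, Matrix.rank_eq_finrank_span_cols]
  have h1 : Submodule.span ℝ (Set.range (Matrix.of fun x y => a + b * M x y).col) ≤
      Submodule.span ℝ (Set.range M.col) ⊔ Submodule.span ℝ {(fun _ => 1 : X → ℝ)} := by
    rw [Submodule.span_le]
    rintro _ ⟨y, rfl⟩
    have e : (Matrix.of fun x y => a + b * M x y).col y =
        b • M.col y + a • (fun _ => 1 : X → ℝ) := by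
      funext x
      simp [Matrix.col]
      ring
    rw [e]
    apply Submodule.add_mem_sup
    · exact Submodule.smul_mem _ _ (Submodule.subset_span ⟨y, rfl⟩)
    · exact Submodule.smul_mem _ _ (Submodule.subset_span rfl)
  refine (Submodule.finrank_mono h1).trans ((Submodule.finrank_add_le_finrank_add_finrank _ _).trans ?_)
  gcongr
  exact (finrank_span_le_card ({(fun _ => 1 : X → ℝ)} : Set (X → ℝ))).trans (by simp)

/-- rows closed under `and` -/
lemma ncol_and (F : X → Y → Bool) (h : ∀ a b, ∃ c, ∀ y, F c y = (F a y && F b y)) :
    ncol F ≤ (rM F).rank + 1 := by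
  classical
  have hmeet : ∀ A : Finset X, A.Nonempty → ∃ c, ∀ y, (F c y = true ↔ ∀ x ∈ A, F x y = true) := by
    intro A hA
    induction hA using Finset.Nonempty.cons_induction with
    | singleton a => exact ⟨a, by simp⟩
    | cons a s ha hs ih =>
      obtain ⟨c, hc⟩ := ih
      obtain ⟨d, hd⟩ := h a c
      refine ⟨d, fun y => ?_⟩
      rw [hd, Bool.and_eq_true, hc]
      simp
  let ι := {c : X → Bool // c ∈ Set.range (fun y x => F x y) ∧ c ≠ fun _ => false}
  have hφ : ∀ i : ι, ∃ y, (fun x => F x y) = i.1 := fun i => i.2.1
  choose φ hφ using hφ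
  have hφ' : ∀ i x, F x (φ i) = i.1 x := fun i x => congrFun (hφ i) x
  have hrow : ∀ i : ι, ∃ x, ∀ y, (F x y = true ↔ ∀ x', i.1 x' = true → F x' y = true) := by
    intro i
    have hne : (univ.filter fun x => i.1 x = true).Nonempty := by
      by_contra hcon
      apply i.2.2
      funext x
      by_contra hx
      exact hcon ⟨x, by simpa using hx⟩
    obtain ⟨c, hc⟩ := hmeet _ hne
    exact ⟨c, fun y => by rw [hc]; simp⟩
  choose ρ hρ using hrow
  have hcard : Fintype.card ι ≤ (rM F).rank := by
    apply card_le_rank _ φ
    intro α hα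
    by_contra hcon
    push Not at hcon
    obtain ⟨i, hi⟩ := hcon
    obtain ⟨m, hm, hmax⟩ := Finset.exists_max_image (univ.filter fun i : ι => α i ≠ 0)
      (fun i => (univ.filter fun x => i.1 x = true).card) ⟨i, by simpa using hi⟩
    have h0 := hα (ρ m)
    have hval : ∀ i : ι, rM F (ρ m) (φ i) = if (∀ x', m.1 x' = true → i.1 x' = true) then 1 else 0 := by
      intro i
      have : (F (ρ m) (φ i) = true) ↔ (∀ x', m.1 x' = true → i.1 x' = true) := by
        rw [hρ]
        simp only [hφ']
      by_cases hc : F (ρ m) (φ i) = true
      · rw [if_pos (this.1 hc)]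
        simp [rM, hc]
      · rw [if_neg (fun h => hc (this.2 h))]
        simp [rM, hc]
    rw [Finset.sum_eq_single m] at h0
    · rw [hval, if_pos (fun _ h => h), mul_one] at h0
      exact (by simpa using hm : α m ≠ 0) h0
    · intro j _ hj
      rw [hval]
      split_ifs with hle
      · have : α j = 0 := by
          by_contra hαj
          have h1 := hmax j (by simpa using hαj)
          have h2 : (univ.filter fun x => m.1 x = true) ⊆ (univ.filter fun x => j.1 x = true) := by
            intro x hx
            simp only [mem_filter, mem_univ, true_and] at hx ⊢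
            exact hle x hx
          have h3 := Finset.eq_of_subset_of_card_le h2 h1
          apply hj
          apply Subtype.ext
          funext x
          have h4 := Finset.ext_iff.1 h3 x
          simp only [mem_filter, mem_univ, true_and] at h4
          cases hmx : m.1 x <;> cases hjx : j.1 x <;> simp_all
        rw [this, zero_mul]
      · rw [mul_zero]
    · intro h
      exact absurd (mem_univ _) h
  have hsub : Set.range (fun y x => F x y) ⊆
      insert (fun _ => false) {c : X → Bool | c ∈ Set.range (fun y x => F x y) ∧ c ≠ fun _ => false} := by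
    intro c hc
    by_cases h0 : c = fun _ => false
    · exact Or.inl h0
    · exact Or.inr ⟨hc, h0⟩
  have h1 := Set.ncard_le_ncard hsub (Set.toFinite _)
  have h2 := Set.ncard_insert_le (fun _ => false)
    {c : X → Bool | c ∈ Set.range (fun y x => F x y) ∧ c ≠ fun _ => false}
  have h3 : {c : X → Bool | c ∈ Set.range (fun y x => F x y) ∧ c ≠ fun _ => false}.ncard =
      Fintype.card ι := by
    rw [← Nat.card_coe_set_eq, Nat.card_eq_fintype_card]
    exact Fintype.card_congr (Equiv.refl _)
  unfold ncol
  omega

lemma rM_not (F : X → Y → Bool) : (rM fun x y => !F x y).rank ≤ (rM F).rank + 1 := by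
  have : (rM fun x y => !F x y) = Matrix.of fun x y => (1 : ℝ) + (-1) * rM F x y := by
    ext x y
    simp only [rM, Matrix.of_apply]
    by_cases hF : F x y = true <;> simp [hF]
  rw [this]
  exact rank_affine _ _ _

lemma ncol_or (F : X → Y → Bool) (h : ∀ a b, ∃ c, ∀ y, F c y = (F a y || F b y)) :
    ncol F ≤ (rM F).rank + 2 := by
  have h1 := ncol_and (fun x y => !F x y) (by
    intro a b
    obtain ⟨c, hc⟩ := h a b
    exact ⟨c, fun y => by rw [hc, Bool.not_or]⟩)
  have h2 := rM_not F
  have h3 : ncol F ≤ ncol (fun x y => !F x y) := by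
    unfold ncol
    apply Set.ncard_le_ncard_of_injOn (fun c x => !c x)
    · rintro _ ⟨y, rfl⟩
      exact ⟨y, rfl⟩
    · intro c _ c' _ hcc
      funext x
      have := congrFun hcc x
      simpa using this
  omega

omit [Fintype X] in
/-- normalised columns -/
lemma ncol_norm (F : X → Y → Bool) (x₀ : X) :
    ncol F ≤ 2 * ncol (fun x y => xor (F x y) (F x₀ y)) := by
  classical
  unfold ncol
  have h1 : (Set.range (fun y x => F x y)).ncard ≤
      ((Set.range (fun y x => xor (F x y) (F x₀ y))) ×ˢ (Set.univ : Set Bool)).ncard := by
    apply Set.ncard_le_ncard_of_injOn (fun c => ((fun x => xor (c x) (c x₀)), c x₀))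
    · rintro _ ⟨y, rfl⟩
      exact ⟨⟨y, rfl⟩, Set.mem_univ _⟩
    · intro c _ c' _ hcc
      simp only [Prod.mk.injEq] at hcc
      funext x
      have h2 := congrFun hcc.1 x
      rw [hcc.2] at h2
      simpa using h2
  rw [Set.ncard_prod] at h1
  simp only [Set.ncard_univ, Nat.card_eq_fintype_card, Fintype.card_bool] at h1
  refine h1.trans (le_of_eq ?_)
  ring

/-- rows closed under `x + y + z` -/
lemma ncol_minority (F : X → Y → Bool)
    (h : ∀ a b c, ∃ d, ∀ y, F d y = xor (F a y) (xor (F b y) (F c y))) :
    ncol F ≤ 2 * (rM F).rank + 2 := by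
  classical
  rcases isEmpty_or_nonempty X with hX | ⟨⟨x₀⟩⟩
  · have : ncol F ≤ 1 := by
      unfold ncol
      apply Set.ncard_le_one_of_subsingleton
    omega
  refine (ncol_norm F x₀).trans ?_
  have key : ncol (fun x y => xor (F x y) (F x₀ y)) ≤ (rM F).rank + 1 := by
    let ι := {c : X → Bool // c ∈ Set.range (fun y x => xor (F x y) (F x₀ y))}
    have hcι : ncol (fun x y => xor (F x y) (F x₀ y)) = Fintype.card ι := by
      unfold ncol
      rw [← Nat.card_coe_set_eq, Nat.card_eq_fintype_card]
    rw [hcι]
    have hφ : ∀ i : ι, ∃ y, (fun x => xor (F x y) (F x₀ y)) = i.1 := fun i => i.2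
    choose φ hφ using hφ
    have hφ' : ∀ i x, xor (F x (φ i)) (F x₀ (φ i)) = i.1 x := fun i x => congrFun (hφ i) x
    have hrk := rank_affine (rM F) 1 (-2)
    refine le_trans ?_ hrk
    apply card_le_rank _ φ
    intro α hα i
    -- the distinct rows
    let R : Finset (Y → Bool) := univ.image F
    let s : Bool → ℝ := fun b => if b then -1 else 1
    have hs : ∀ b, s b * s b = 1 := by intro b; cases b <;> simp [s]
    have hsx : ∀ b c, s (xor b c) = s b * s c := by
      intro b c; cases b <;> cases c <;> simp [s]
    have hR : ∀ r ∈ R, ∑ j, α j * s (r (φ j)) = 0 := by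
      intro r hr
      obtain ⟨x, -, rfl⟩ := Finset.mem_image.1 hr
      have := hα x
      rw [← this]
      apply Finset.sum_congr rfl
      intro j _
      simp only [rM, Matrix.of_apply, s]
      cases F x (φ j) <;> norm_num
    have horth : ∀ j, j ≠ i → ∑ r ∈ R, s (r (φ j)) * s (r (φ i)) = 0 := by
      intro j hj
      obtain ⟨a, ha⟩ : ∃ a, j.1 a ≠ i.1 a := by
        by_contra hcon
        push Not at hcon
        exact hj (Subtype.ext (funext hcon))
      rw [← hφ' j, ← hφ' i] at ha
      have hinv : ∑ r ∈ R, s (r (φ j)) * s (r (φ i)) =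
          ∑ r ∈ R, -(s (r (φ j)) * s (r (φ i))) := by
        apply Finset.sum_bij' (fun r _ y => xor (r y) (xor (F a y) (F x₀ y)))
          (fun r _ y => xor (r y) (xor (F a y) (F x₀ y)))
        · intro r hr
          obtain ⟨x, -, rfl⟩ := Finset.mem_image.1 hr
          obtain ⟨d, hd⟩ := h x a x₀
          exact Finset.mem_image.2 ⟨d, mem_univ _, funext hd⟩
        · intro r hr
          obtain ⟨x, -, rfl⟩ := Finset.mem_image.1 hr
          obtain ⟨d, hd⟩ := h x a x₀
          exact Finset.mem_image.2 ⟨d, mem_univ _, funext hd⟩
        · intro r hr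
          funext y
          show xor (xor (r y) (xor (F a y) (F x₀ y))) (xor (F a y) (F x₀ y)) = r y
          cases r y <;> cases F a y <;> cases F x₀ y <;> rfl
        · intro r hr
          funext y
          show xor (xor (r y) (xor (F a y) (F x₀ y))) (xor (F a y) (F x₀ y)) = r y
          cases r y <;> cases F a y <;> cases F x₀ y <;> rfl
        · intro r hr
          show s (r (φ j)) * s (r (φ i)) = -(s (xor (r (φ j)) (xor (F a (φ j)) (F x₀ (φ j)))) *
            s (xor (r (φ i)) (xor (F a (φ i)) (F x₀ (φ i)))))
          rw [hsx (r (φ j)), hsx (r (φ i))]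
          generalize xor (F a (φ j)) (F x₀ (φ j)) = p at ha ⊢
          generalize xor (F a (φ i)) (F x₀ (φ i)) = q at ha ⊢
          have hpq : s p * s q = -1 := by
            cases p <;> cases q <;> simp [s] at ha ⊢
          linear_combination (s (r (φ j)) * s (r (φ i))) * hpq
      rw [Finset.sum_neg_distrib] at hinv
      linarith
    have hsum : ∑ r ∈ R, (∑ j, α j * s (r (φ j))) * s (r (φ i)) = 0 := by
      apply Finset.sum_eq_zero
      intro r hr
      rw [hR r hr, zero_mul]
    simp_rw [Finset.sum_mul] at hsum
    rw [Finset.sum_comm] at hsum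
    rw [Finset.sum_eq_single i] at hsum
    · simp_rw [mul_assoc, hs] at hsum
      rw [Finset.sum_const, nsmul_eq_mul, mul_one] at hsum
      rcases mul_eq_zero.1 hsum with h1 | h1
      · exfalso
        have : R.card = 0 := by exact_mod_cast h1
        rw [Finset.card_eq_zero] at this
        have h2 : F x₀ ∈ R := Finset.mem_image_of_mem _ (mem_univ _)
        rw [this] at h2
        simp at h2
      · exact h1
    · intro j _ hj
      simp_rw [mul_assoc]
      rw [← Finset.mul_sum, horth j hj, mul_zero]
    · intro h
      exact absurd (mem_univ _) h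
  omega

/-- rows closed under majority -/
lemma ncol_maj (F : X → Y → Bool)
    (h : ∀ a b c, ∃ d, ∀ y, F d y = ((F a y && F b y) || (F a y && F c y) || (F b y && F c y))) :
    ncol F ≤ 2 * (rM F).rank + 2 := by
  classical
  rcases isEmpty_or_nonempty X with hX | ⟨⟨x₀⟩⟩
  · have : ncol F ≤ 1 := by
      unfold ncol
      apply Set.ncard_le_one_of_subsingleton
    omega
  refine (ncol_norm F x₀).trans ?_
  have key : ncol (fun x y => xor (F x y) (F x₀ y)) ≤ (rM F).rank + 1 := by
    let ι := {c : X → Bool // c ∈ Set.range (fun y x => xor (F x y) (F x₀ y)) ∧ c ≠ fun _ => false}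
    have hsub : Set.range (fun y x => xor (F x y) (F x₀ y)) ⊆
        insert (fun _ => false)
          {c : X → Bool | c ∈ Set.range (fun y x => xor (F x y) (F x₀ y)) ∧ c ≠ fun _ => false} := by
      intro c hc
      by_cases h0 : c = fun _ => false
      · exact Or.inl h0
      · exact Or.inr ⟨hc, h0⟩
    have h1 := Set.ncard_le_ncard hsub (Set.toFinite _)
    have h2 := Set.ncard_insert_le (fun _ => false)
      {c : X → Bool | c ∈ Set.range (fun y x => xor (F x y) (F x₀ y)) ∧ c ≠ fun _ => false}
    have h3 : {c : X → Bool | c ∈ Set.range (fun y x => xor (F x y) (F x₀ y)) ∧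
        c ≠ fun _ => false}.ncard = Fintype.card ι := by
      rw [← Nat.card_coe_set_eq, Nat.card_eq_fintype_card]
      exact Fintype.card_congr (Equiv.refl _)
    have h4 : Fintype.card ι ≤ (rM F).rank := by
      have hφ : ∀ i : ι, ∃ y, (fun x => xor (F x y) (F x₀ y)) = i.1 := fun i => i.2.1
      choose φ hφ using hφ
      have hφ' : ∀ i x, xor (F x (φ i)) (F x₀ (φ i)) = i.1 x := fun i x => congrFun (hφ i) x
      -- the pair of rows
      have hpair : ∀ i : ι, ∃ a b, ∀ j : ι, (F a (φ j) ≠ F b (φ j) ↔ j = i) := by
        intro i
        obtain ⟨x₁, hx₁⟩ : ∃ x, i.1 x = true := by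
          by_contra hcon
          push Not at hcon
          exact i.2.2 (funext fun x => by simpa using hcon x)
        have hne : (univ.filter fun p : X × X => F p.1 (φ i) ≠ F p.2 (φ i)).Nonempty := by
          refine ⟨(x₁, x₀), ?_⟩
          rw [← hφ' i] at hx₁
          simpa using hx₁
        obtain ⟨⟨a, b⟩, hab, hmin⟩ := Finset.exists_min_image _
          (fun p : X × X => (univ.filter fun y => F p.1 y ≠ F p.2 y).card) hne
        simp only [mem_filter, mem_univ, true_and] at hab
        have hmin' : ∀ c d : X, F c (φ i) ≠ F d (φ i) → (univ.filter fun y => F a y ≠ F b y).card ≤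
            (univ.filter fun y => F c y ≠ F d y).card := by
          intro c d hcd
          exact hmin (c, d) (by simpa using hcd)
        -- main claim
        have hcl : ∀ y, F a y ≠ F b y → ∀ c, (xor (F c y) (F a y) = xor (F c (φ i)) (F a (φ i))) := by
          intro y hy c
          obtain ⟨d, hd⟩ := h a b c
          by_cases hca : F c (φ i) = F a (φ i)
          · -- `d` agrees with `a` at `φ i`
            have hd1 : F d (φ i) ≠ F b (φ i) := by
              rw [hd, hca]
              cases h1 : F a (φ i) <;> cases h2 : F b (φ i) <;> simp [h1, h2] at hab ⊢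
            have h5 := hmin' d b hd1
            have h6 : (univ.filter fun y => F d y ≠ F b y) ⊆ (univ.filter fun y => F a y ≠ F b y) := by
              intro z hz
              simp only [mem_filter, mem_univ, true_and] at hz ⊢
              rw [hd] at hz
              cases h1 : F a z <;> cases h2 : F b z <;> simp [h1, h2] at hz ⊢
            have h7 := Finset.eq_of_subset_of_card_le h6 h5
            have h8 : y ∈ (univ.filter fun y => F d y ≠ F b y) := by
              rw [h7]
              simpa using hy
            simp only [mem_filter, mem_univ, true_and] at h8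
            rw [hd] at h8
            rw [hca]
            cases h1 : F a y <;> cases h2 : F b y <;> cases h3 : F c y <;>
              simp [h1, h2, h3] at h8 hy ⊢
          · have hd1 : F a (φ i) ≠ F d (φ i) := by
              rw [hd]
              cases h1 : F a (φ i) <;> cases h2 : F b (φ i) <;> cases h3 : F c (φ i) <;>
                simp [h1, h2, h3] at hab hca ⊢
            have h5 := hmin' a d hd1
            have h6 : (univ.filter fun y => F a y ≠ F d y) ⊆ (univ.filter fun y => F a y ≠ F b y) := by
              intro z hz
              simp only [mem_filter, mem_univ, true_and] at hz ⊢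
              rw [hd] at hz
              cases h1 : F a z <;> cases h2 : F b z <;> simp [h1, h2] at hz ⊢
            have h7 := Finset.eq_of_subset_of_card_le h6 h5
            have h8 : y ∈ (univ.filter fun y => F a y ≠ F d y) := by
              rw [h7]
              simpa using hy
            simp only [mem_filter, mem_univ, true_and] at h8
            rw [hd] at h8
            have h9 : F c (φ i) = !F a (φ i) := by
              cases h1 : F c (φ i) <;> cases h2 : F a (φ i) <;> simp [h1, h2] at hca ⊢
            rw [h9]
            cases h1 : F a y <;> cases h2 : F b y <;> cases h3 : F c y <;>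
              simp [h1, h2, h3] at h8 hy ⊢
        refine ⟨a, b, fun j => ⟨fun hj => ?_, fun hj => ?_⟩⟩
        · apply Subtype.ext
          funext x
          rw [← hφ' j, ← hφ' i]
          have e1 := hcl _ hj x
          have e2 := hcl _ hj x₀
          cases h1 : F x (φ j) <;> cases h2 : F x₀ (φ j) <;> cases h3 : F x (φ i) <;>
            cases h4 : F x₀ (φ i) <;> cases h5 : F a (φ i) <;> cases h6 : F a (φ j) <;>
            simp [h1, h2, h3, h4, h5, h6] at e1 e2 ⊢
        · rw [hj]
          exact hab
      choose a b hab using hpair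
      apply card_le_rank _ φ
      intro α hα i
      have h5 := hα (a i)
      have h6 := hα (b i)
      have h7 : ∑ j, α j * (rM F (a i) (φ j) - rM F (b i) (φ j)) = 0 := by
        simp_rw [mul_sub]
        rw [Finset.sum_sub_distrib, h5, h6, sub_zero]
      rw [Finset.sum_eq_single i] at h7
      · have h8 := (hab i i).2 rfl
        rcases mul_eq_zero.1 h7 with h9 | h9
        · exact h9
        · exfalso
          simp only [rM, Matrix.of_apply] at h9
          cases h1 : F (a i) (φ i) <;> cases h2 : F (b i) (φ i) <;> simp [h1, h2] at h8 h9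
      · intro j _ hj
        have h8 : F (a i) (φ j) = F (b i) (φ j) := by
          by_contra hcon
          exact hj ((hab i j).1 hcon)
        simp only [rM, Matrix.of_apply, h8, sub_self, mul_zero]
      · intro h
        exact absurd (mem_univ _) h
    have h5 : ncol (fun x y => xor (F x y) (F x₀ y)) =
        (Set.range (fun y x => xor (F x y) (F x₀ y))).ncard := rfl
    omega
  omega

end count

end Pool.Agent.Run7.h671
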