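import Pool.Agent.Run7.h671.Frankl

set_option autoImplicit false

/-!
# Poonen's strict inequality for union-closed families in which the filters of the nonempty members
are closed under intersection
-/

namespace Pool.Agent.Run7.h671.PO

open Finset FK

variable {E : Type*} [DecidableEq E]

/-- `e` is good: for every other element `f` some member contains `e` and not `f`. -/
def Good (F : Finset (Finset E)) (e : E) : Prop :=
  e ∈ F.sup id ∧ ∀ f ∈ F.sup id, e ∉ avoid F f → f = e

section main

variable {F : Finset (Finset E)}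

lemma avoid_inj (hsep : ∀ x ∈ F.sup id, ∀ y ∈ F.sup id, x ≠ y →
      ∃ S ∈ F, (x ∈ S ∧ y ∉ S) ∨ (y ∈ S ∧ x ∉ S))
    {x y : E} (hx : x ∈ F.sup id) (hy : y ∈ F.sup id) (h : avoid F x = avoid F y) : x = y := by
  by_contra hne
  obtain ⟨S, hS, ⟨h1, h2⟩ | ⟨h1, h2⟩⟩ := hsep x hx y hy hne
  · have h3 := subset_avoid hS h2 h1
    rw [← h] at h3
    exact notMem_avoid F x h3
  · have h3 := subset_avoid hS h2 h1
    rw [h] at h3
    exact notMem_avoid F y h3

/-- adding a good element to a nonempty member -/
lemma insert_mem (hU : ∀ A ∈ F, ∀ B ∈ F, A ∪ B ∈ F)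
    (hI : ∀ B ∈ F, ∀ C ∈ F, (∃ A ∈ F, A.Nonempty ∧ A ⊆ B ∩ C) → B ∩ C ∈ F)
    (hav : ∀ f ∈ F.sup id, avoid F f ∈ F) {e : E} (he : Good F e) {A : Finset E} (hA : A ∈ F)
    (hAne : A.Nonempty) : insert e A ∈ F := by
  classical
  have hUF : F.sup id ∈ F := sup_mem hU F ⟨A, hA⟩ (subset_refl _)
  have hsub : ∀ A ∈ F, A ⊆ F.sup id := fun A hA => Finset.le_sup (f := id) hA
  have key : ∀ S : Finset E, (∀ f ∈ S, f ∈ F.sup id ∧ f ∉ A) →
      ((F.sup id).filter fun x => ∀ f ∈ S, x ∈ avoid F f) ∈ F ∧
      A ⊆ ((F.sup id).filter fun x => ∀ f ∈ S, x ∈ avoid F f) := by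
    intro S
    induction S using Finset.induction_on with
    | empty =>
      intro _
      have : ((F.sup id).filter fun x => ∀ f ∈ (∅ : Finset E), x ∈ avoid F f) = F.sup id := by
        apply Finset.filter_true_of_mem
        intro x _ f hf
        simp at hf
      rw [this]
      exact ⟨hUF, hsub A hA⟩
    | insert a s ha ih =>
      intro hS
      obtain ⟨h1, h2⟩ := ih (fun f hf => hS f (mem_insert_of_mem hf))
      obtain ⟨h3, h4⟩ := hS a (mem_insert_self a s)
      have h5 : A ⊆ avoid F a := subset_avoid hA h4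
      have h6 : ((F.sup id).filter fun x => ∀ f ∈ insert a s, x ∈ avoid F f) =
          ((F.sup id).filter fun x => ∀ f ∈ s, x ∈ avoid F f) ∩ avoid F a := by
        ext x
        simp only [mem_filter, mem_inter, mem_insert, forall_eq_or_imp]
        tauto
      rw [h6]
      exact ⟨hI _ h1 _ (hav a h3) ⟨A, hA, hAne, subset_inter h2 h5⟩, subset_inter h2 h5⟩
  have h := (key ((F.sup id \ A).filter fun f => f ≠ e) (by
    intro f hf
    obtain ⟨hf1, -⟩ := mem_filter.1 hf
    exact mem_sdiff.1 hf1)).1
  have h2 : insert e A = (F.sup id).filter fun x =>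
      ∀ f ∈ (F.sup id \ A).filter (fun f => f ≠ e), x ∈ avoid F f := by
    ext x
    rw [mem_insert, mem_filter]
    constructor
    · intro hx
      refine ⟨?_, fun f hf => ?_⟩
      · rcases hx with rfl | hx
        · exact he.1
        · exact hsub A hA hx
      · obtain ⟨hf1, hf2⟩ := mem_filter.1 hf
        obtain ⟨hf3, hf4⟩ := mem_sdiff.1 hf1
        rcases hx with rfl | hx
        · by_contra hcon
          exact hf2 (he.2 f hf3 hcon)
        · exact subset_avoid hA hf4 hx
    · rintro ⟨hxU, hx⟩
      by_contra hcon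
      push Not at hcon
      exact notMem_avoid F x (hx x (mem_filter.2 ⟨mem_sdiff.2 ⟨hxU, hcon.2⟩, hcon.1⟩))
  rw [h2]
  exact h

/-- every member which is not empty has a good element -/
lemma good_exists (hsep : ∀ x ∈ F.sup id, ∀ y ∈ F.sup id, x ≠ y →
      ∃ S ∈ F, (x ∈ S ∧ y ∉ S) ∨ (y ∈ S ∧ x ∉ S))
    (hav : ∀ f ∈ F.sup id, avoid F f ∈ F) {m : Finset E} (hm : m ∈ F) (hmne : m.Nonempty) :
    ∃ e ∈ m, Good F e := by
  classical
  obtain ⟨e₀, he₀⟩ := hmne
  have hsub : ∀ A ∈ F, A ⊆ F.sup id := fun A hA => Finset.le_sup (f := id) hA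
  have he₀U : e₀ ∈ F.sup id := hsub m hm he₀
  obtain ⟨e, he, hemin⟩ := Finset.exists_min_image
    ((F.sup id).filter fun f => avoid F f ⊆ avoid F e₀)
    (fun f => (avoid F f).card) ⟨e₀, mem_filter.2 ⟨he₀U, subset_refl _⟩⟩
  obtain ⟨heU, hee₀⟩ := mem_filter.1 he
  refine ⟨e, ?_, heU, ?_⟩
  · by_contra h
    exact notMem_avoid F e₀ (hee₀ (subset_avoid hm h he₀))
  · intro f hf hef
    have h1 : avoid F f ⊆ avoid F e := subset_avoid (hav f hf) hef
    exact avoid_inj hsep hf heU
      (Finset.eq_of_subset_of_card_le h1 (hemin f (mem_filter.2 ⟨hf, h1.trans hee₀⟩)))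

/-- Poonen's strict inequality for union-closed families which are closed under those
intersections that contain a nonempty member. -/
theorem poonen_filter (F : Finset (Finset E)) (hne : F.Nonempty)
    (hU : ∀ A ∈ F, ∀ B ∈ F, A ∪ B ∈ F)
    (hI : ∀ B ∈ F, ∀ C ∈ F, (∃ A ∈ F, A.Nonempty ∧ A ⊆ B ∩ C) → B ∩ C ∈ F)
    (hsep : ∀ x ∈ F.sup id, ∀ y ∈ F.sup id, x ≠ y →
      ∃ S ∈ F, (x ∈ S ∧ y ∉ S) ∨ (y ∈ S ∧ x ∉ S))
    (hP : F ≠ (F.sup id).powerset) :
    ∃ e ∈ F.sup id, F.card < 2 * (F.filter fun A => e ∈ A).card := by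
  classical
  have hUF : F.sup id ∈ F := sup_mem hU F hne (subset_refl _)
  have hsub : ∀ A ∈ F, A ⊆ F.sup id := fun A hA => Finset.le_sup (f := id) hA
  have hFsub : F ⊆ (F.sup id).powerset := fun A hA => mem_powerset.2 (hsub A hA)
  -- the union is not empty
  have hUne : (F.sup id).Nonempty := by
    rw [Finset.nonempty_iff_ne_empty]
    intro h0
    apply hP
    apply subset_antisymm hFsub
    intro B hB
    rw [h0, powerset_empty, mem_singleton] at hB
    rw [hB, ← h0]
    exact hUF
  by_cases hall : ∃ e ∈ F.sup id, ∀ A ∈ F, A.Nonempty → e ∈ A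
  · obtain ⟨e, heU, he⟩ := hall
    refine ⟨e, heU, ?_⟩
    have h1 : F ⊆ insert ∅ (F.filter fun A => e ∈ A) := by
      intro A hA
      rcases A.eq_empty_or_nonempty with h | h
      · rw [h]
        exact mem_insert_self _ _
      · exact mem_insert_of_mem (mem_filter.2 ⟨hA, he A hA h⟩)
    have h2 := (card_le_card h1).trans (card_insert_le _ _)
    have h3 : 0 < (F.filter fun A => e ∈ A).card :=
      card_pos.2 ⟨F.sup id, mem_filter.2 ⟨hUF, heU⟩⟩
    by_contra hcon
    push Not at hcon
    -- exactly one member contains `e`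
    have h4 : (F.filter fun A => e ∈ A).card = 1 := by omega
    obtain ⟨B, hB⟩ := card_eq_one.1 h4
    have hB' : ∀ A ∈ F, A.Nonempty → A = F.sup id := by
      intro A hA hAne
      have h5 : A ∈ F.filter fun A => e ∈ A := mem_filter.2 ⟨hA, he A hA hAne⟩
      have h6 : F.sup id ∈ F.filter fun A => e ∈ A := mem_filter.2 ⟨hUF, heU⟩
      rw [hB, mem_singleton] at h5 h6
      rw [h5, h6]
    have hempty : ∅ ∈ F := by
      by_contra h7
      have h8 : F ⊆ F.filter fun A => e ∈ A := by
        intro A hA
        refine mem_filter.2 ⟨hA, he A hA ?_⟩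
        rw [Finset.nonempty_iff_ne_empty]
        rintro rfl
        exact h7 hA
      have h9 := card_le_card h8
      omega
    apply hP
    apply subset_antisymm hFsub
    intro B hB2
    have hBU := mem_powerset.1 hB2
    rcases B.eq_empty_or_nonempty with h | h
    · rw [h]
      exact hempty
    · have hBeq : B = F.sup id := by
        apply subset_antisymm hBU
        intro x hx
        obtain ⟨b, hb⟩ := h
        by_contra hxB
        have hbx : x ≠ b := by
          rintro rfl
          exact hxB hb
        obtain ⟨S, hS, hS2⟩ := hsep x hx b (hBU hb) hbx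
        rcases S.eq_empty_or_nonempty with h5 | h5
        · rw [h5] at hS2
          simp at hS2
        · rw [hB' S hS h5] at hS2
          rcases hS2 with h6 | h6
          · exact h6.2 (hBU hb)
          · exact h6.2 hx
      rw [hBeq]
      exact hUF
  by_contra hcon
  push Not at hcon hall
  -- every `avoid F f` is a nonempty member
  have hav : ∀ f ∈ F.sup id, avoid F f ∈ F := by
    intro f hf
    obtain ⟨A, hA, hAne, hfA⟩ := hall f hf
    exact sup_mem hU _ ⟨A, mem_filter.2 ⟨hA, hfA⟩⟩ (filter_subset _ _)
  -- counting: at most one exception at a good element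
  have count : ∀ e, Good F e → ∀ T : Finset (Finset E),
      (∀ B ∈ T, B ∈ F ∧ e ∈ B ∧ ((B.erase e) ∉ F ∨ B.erase e = ∅)) →
      ((F.filter fun A => e ∉ A).filter fun A => A.Nonempty).card + T.card ≤
        (F.filter fun A => e ∈ A).card := by
    intro e he T hT
    have hTsub : T ⊆ F.filter fun A => e ∈ A := fun B hB =>
      mem_filter.2 ⟨(hT B hB).1, (hT B hB).2.1⟩
    have h1 : ((F.filter fun A => e ∉ A).filter fun A => A.Nonempty).card ≤
        ((F.filter fun A => e ∈ A) \ T).card := by
      apply Finset.card_le_card_of_injOn (fun A => insert e A)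
      · intro A hA
        simp only [coe_filter, mem_filter, Set.mem_ofPred_eq] at hA
        obtain ⟨⟨hAF, heA⟩, hAne⟩ := hA
        rw [mem_coe, mem_sdiff, mem_filter]
        refine ⟨⟨insert_mem hU hI hav he hAF hAne, mem_insert_self _ _⟩, fun hcon2 => ?_⟩
        obtain ⟨-, -, h3⟩ := hT _ hcon2
        rw [erase_insert heA] at h3
        rcases h3 with h3 | h3
        · exact h3 hAF
        · rw [h3] at hAne
          simp at hAne
      · intro A hA B hB hAB
        simp only [coe_filter, mem_filter, Set.mem_ofPred_eq] at hA hB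
        have h3 : (insert e A).erase e = (insert e B).erase e := by
          simp only at hAB
          rw [hAB]
        rwa [erase_insert hA.1.2, erase_insert hB.1.2] at h3
    have h2 := card_sdiff_add_card_eq_card hTsub
    omega
  have hsplit : ∀ e, F.card ≤ (F.filter fun A => e ∈ A).card +
      ((F.filter fun A => e ∉ A).filter fun A => A.Nonempty).card + (if ∅ ∈ F then 1 else 0) := by
    intro e
    have h1 : (F.filter fun A => e ∉ A).card ≤
        ((F.filter fun A => e ∉ A).filter fun A => A.Nonempty).card + (if ∅ ∈ F then 1 else 0) := by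
      split_ifs with h0
      · have h2 : (F.filter fun A => e ∉ A) ⊆
            insert ∅ ((F.filter fun A => e ∉ A).filter fun A => A.Nonempty) := by
          intro A hA
          rcases A.eq_empty_or_nonempty with h | h
          · rw [h]
            exact mem_insert_self _ _
          · exact mem_insert_of_mem (mem_filter.2 ⟨hA, h⟩)
        exact (card_le_card h2).trans (card_insert_le _ _)
      · rw [add_zero]
        apply card_le_card
        intro A hA
        refine mem_filter.2 ⟨hA, ?_⟩
        rw [Finset.nonempty_iff_ne_empty]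
        rintro rfl
        exact h0 (mem_filter.1 hA).1
    have h2 := Finset.card_filter_add_card_filter_not (s := F) (fun A => e ∈ A)
    omega
  -- exceptions are unique
  have exc : ∀ e, Good F e → ∀ B ∈ F, ∀ B' ∈ F, e ∈ B → e ∈ B' →
      ((B.erase e) ∉ F ∨ B.erase e = ∅) → B' ≠ B → B'.erase e ∈ F ∧ (B'.erase e).Nonempty := by
    intro e he B hB B' hB' heB heB' hBx hne'
    by_contra hcon2
    have h1 : (B'.erase e) ∉ F ∨ B'.erase e = ∅ := by
      by_contra h2
      push Not at h2
      exact hcon2 ⟨h2.1, h2.2⟩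
    have h2 := count e he {B, B'} (by
      intro C hC
      rw [mem_insert, mem_singleton] at hC
      rcases hC with rfl | rfl
      · exact ⟨hB, heB, hBx⟩
      · exact ⟨hB', heB', h1⟩)
    rw [card_pair hne'.symm] at h2
    have h3 := hsplit e
    have h4 := hcon e he.1
    split_ifs at h3 <;> omega
  -- minimal nonempty members
  have hmin : ∀ A ∈ F, A.Nonempty → ∃ m ∈ F, m ⊆ A ∧ m.Nonempty ∧
      ∀ B ∈ F, B.Nonempty → B ⊆ m → B = m := by
    intro A hA hAne
    obtain ⟨m, hm, hmmin⟩ := Finset.exists_min_image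
      (F.filter fun B => B.Nonempty ∧ B ⊆ A) Finset.card
      ⟨A, mem_filter.2 ⟨hA, hAne, subset_refl _⟩⟩
    obtain ⟨hmF, hmne, hmA⟩ := mem_filter.1 hm
    refine ⟨m, hmF, hmA, hmne, fun B hB hBne hBm => ?_⟩
    exact Finset.eq_of_subset_of_card_le hBm
      (hmmin B (mem_filter.2 ⟨hB, hBne, hBm.trans hmA⟩))
  -- a minimal member is an exception
  have mexc : ∀ m ∈ F, (∀ B ∈ F, B.Nonempty → B ⊆ m → B = m) → ∀ e ∈ m,
      ((m.erase e) ∉ F ∨ m.erase e = ∅) := by
    intro m _ hmm e hem
    by_cases h : m.erase e = ∅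
    · exact Or.inr h
    · left
      intro h2
      have h3 := hmm _ h2 (Finset.nonempty_iff_ne_empty.2 h) (erase_subset _ _)
      rw [← h3] at hem
      simp at hem
  have hempty : ∅ ∈ F := by
    by_contra h0
    obtain ⟨m, hm, -, hmne, hmm⟩ := hmin _ hUF hUne
    obtain ⟨e, hem, he⟩ := good_exists hsep hav hm hmne
    have h1 := count e he {m} (by
      intro C hC
      rw [mem_singleton] at hC
      rw [hC]
      exact ⟨hm, hem, mexc m hm hmm e hem⟩)
    rw [card_singleton] at h1
    have h3 := hsplit e
    have h4 := hcon e he.1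
    rw [if_neg h0] at h3
    omega
  -- minimal members are singletons
  have hsing : ∀ m ∈ F, m.Nonempty → (∀ B ∈ F, B.Nonempty → B ⊆ m → B = m) → ∃ x, m = {x} := by
    intro m hm hmne hmm
    by_contra hns
    obtain ⟨e, hem, he⟩ := good_exists hsep hav hm hmne
    have hK : (m.erase e).Nonempty := by
      rw [Finset.nonempty_iff_ne_empty]
      intro h0
      apply hns
      refine ⟨e, ?_⟩
      rw [← insert_erase hem, h0]
      rfl
    have hKnot : (m.erase e) ∉ F := by
      rcases mexc m hm hmm e hem with h | h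
      · exact h
      · rw [h] at hK
        simp at hK
    have hKall : ∀ m' ∈ F, m'.Nonempty → (∀ B ∈ F, B.Nonempty → B ⊆ m' → B = m') →
        m.erase e ⊆ m' := by
      intro m' hm' hmne' hmm'
      by_cases hmeq : m' = m
      · rw [hmeq]
        exact erase_subset _ _
      obtain ⟨e', hem', he'⟩ := good_exists hsep hav hm' hmne'
      have h1 : e' ∉ m := by
        intro h2
        have h3 := (exc e' he' m' hm' m hm hem' h2 (mexc m' hm' hmm' e' hem') (Ne.symm hmeq))
        rcases mexc m hm hmm e' h2 with h4 | h4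
        · exact h4 h3.1
        · rw [h4] at h3
          simp at h3
      have hee' : e' ≠ e := by
        rintro rfl
        exact h1 hem
      have h2 : insert e' m ∈ F := insert_mem hU hI hav he' hm hmne
      have h3 := exc e he m hm (insert e' m) h2 hem (mem_insert_of_mem hem)
        (mexc m hm hmm e hem) (by
          intro h4
          exact h1 (by rw [← h4]; exact mem_insert_self _ _))
      by_cases h4 : (insert e' m).erase e = m'
      · rw [← h4]
        exact erase_subset_erase _ (subset_insert _ _)
      · exfalso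
        have h5 := exc e' he' m' hm' _ h3.1 hem'
          (mem_erase.2 ⟨hee', mem_insert_self _ _⟩) (mexc m' hm' hmm' e' hem') h4
        have h6 : ((insert e' m).erase e).erase e' = m.erase e := by
          ext x
          simp only [mem_erase, mem_insert]
          constructor
          · rintro ⟨hx1, hx2, hx3 | hx3⟩
            · exact absurd hx3 hx1
            · exact ⟨hx2, hx3⟩
          · rintro ⟨hx1, hx2⟩
            refine ⟨?_, hx1, Or.inr hx2⟩
            rintro rfl
            exact h1 hx2
        rw [h6] at h5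
        exact hKnot h5.1
    obtain ⟨k, hk⟩ := hK
    obtain ⟨A, hA, hAne, hkA⟩ := hall k (hsub m hm (mem_of_mem_erase hk))
    obtain ⟨m', hm', hmA', hmne', hmm'⟩ := hmin A hA hAne
    exact hkA (hmA' (hKall m' hm' hmne' hmm' hk))
  -- all singletons are members
  have hgs : ∀ x ∈ F.sup id, {x} ∈ F → Good F x := by
    intro x _ hx
    obtain ⟨e, hex, he⟩ := good_exists hsep hav hx ⟨x, mem_singleton_self x⟩
    rw [mem_singleton] at hex
    rwa [← hex]
  have hS : ∀ x ∈ F.sup id, {x} ∈ F := by
    by_contra hcon2
    push Not at hcon2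
    obtain ⟨y, hyU, hyF⟩ := hcon2
    have key : ∀ T : Finset E, T ⊆ (F.sup id).filter (fun x => {x} ∈ F) → F.sup id \ T ∈ F := by
      intro T
      induction T using Finset.induction_on with
      | empty =>
        intro _
        rw [sdiff_empty]
        exact hUF
      | insert a T ha ih =>
        intro hT
        have h1 := ih (fun x hx => hT (mem_insert_of_mem hx))
        obtain ⟨haU, haF⟩ := mem_filter.1 (hT (mem_insert_self a T))
        have hyT : y ∉ T := by
          intro hy
          exact hyF (mem_filter.1 (hT (mem_insert_of_mem hy))).2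
        have hya : y ≠ a := by
          rintro rfl
          exact hyF haF
        have h2 := exc a (hgs a haU haF) {a} haF (F.sup id \ T) h1 (mem_singleton_self a)
          (mem_sdiff.2 ⟨haU, ha⟩) (Or.inr (by simp)) (by
            intro h3
            have h4 : y ∈ F.sup id \ T := mem_sdiff.2 ⟨hyU, hyT⟩
            rw [h3, mem_singleton] at h4
            exact hya h4)
        have h3 : F.sup id \ insert a T = (F.sup id \ T).erase a := by
          ext x
          simp only [mem_sdiff, mem_insert, mem_erase]
          tauto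
        rw [h3]
        exact h2.1
    have h1 := key _ (subset_refl _)
    have h2 : (F.sup id \ (F.sup id).filter (fun x => {x} ∈ F)).Nonempty :=
      ⟨y, mem_sdiff.2 ⟨hyU, fun h => hyF (mem_filter.1 h).2⟩⟩
    obtain ⟨m, hm, hmA, hmne, hmm⟩ := hmin _ h1 h2
    obtain ⟨x, rfl⟩ := hsing m hm hmne hmm
    have h3 := hmA (mem_singleton_self x)
    obtain ⟨h4, h5⟩ := mem_sdiff.1 h3
    exact h5 (mem_filter.2 ⟨h4, hm⟩)
  -- so `F` is a power set
  apply hP
  apply subset_antisymm hFsub
  intro B hB
  have hBU := mem_powerset.1 hB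
  have key : ∀ T : Finset E, T ⊆ F.sup id → T ∈ F := by
    intro T
    induction T using Finset.induction_on with
    | empty =>
      intro _
      exact hempty
    | insert a T _ ih =>
      intro hT
      have h1 := ih (fun x hx => hT (mem_insert_of_mem hx))
      rw [insert_eq]
      exact hU _ (hS a (hT (mem_insert_self a T))) _ h1
  exact key B hBU

end main

end Pool.Agent.Run7.h671.PO
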