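import Pool.Agent.Run7.h671.Pol

set_option autoImplicit false

/-!
# Operations which are not essentially unary
-/

namespace Pool.Agent.Run7.h671

open Finset

/-- `f` is constant, or a coordinate, or the negation of a coordinate -/
def EssU {k : ℕ} (f : (Fin k → Bool) → Bool) : Prop :=
  (∃ b, ∀ a, f a = b) ∨ (∃ j, ∀ a, f a = a j) ∨ (∃ j, ∀ a, f a = !a j)

/-- the rows of `F` are closed under `f` -/
def ClosedUnder {X Y : Type*} {k : ℕ} (f : (Fin k → Bool) → Bool) (F : X → Y → Bool) : Prop :=
  ∀ x : Fin k → X, ∃ x', ∀ y, F x' y = f (fun j => F (x j) y)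

variable {X Y : Type*} {k : ℕ}

/-- the values of `f` on indicator functions -/
def vl (f : (Fin k → Bool) → Bool) (A : Finset (Fin k)) : Bool := f (fun j => decide (j ∈ A))

lemma eval2 (f : (Fin k → Bool) → Bool) (A : Finset (Fin k)) (p q : Bool) :
    f (fun j => if j ∈ A then p else q) =
      (if p then (if q then vl f univ else vl f A) else (if q then vl f Aᶜ else vl f ∅)) := by
  cases p <;> cases q <;> simp [vl]

lemma closed2 {f : (Fin k → Bool) → Bool} {F : X → Y → Bool} (h : ClosedUnder f F)
    (A : Finset (Fin k)) (a b : X) :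
    ∃ c, ∀ y, F c y = f (fun j => if j ∈ A then F a y else F b y) := by
  obtain ⟨c, hc⟩ := h (fun j => if j ∈ A then a else b)
  refine ⟨c, fun y => ?_⟩
  rw [hc]
  congr 1
  funext j
  split_ifs <;> rfl

lemma closed3 {f : (Fin k → Bool) → Bool} {F : X → Y → Bool} (h : ClosedUnder f F)
    (A B : Finset (Fin k)) (a b c : X) :
    ∃ d, ∀ y, F d y = f (fun j => if j ∈ A then F a y else if j ∈ B then F b y else F c y) := by
  obtain ⟨d, hd⟩ := h (fun j => if j ∈ A then a else if j ∈ B then b else c)
  refine ⟨d, fun y => ?_⟩
  rw [hd]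
  congr 1
  funext j
  split_ifs <;> rfl

/-- values of the ternary minors -/
lemma eval3 (f : (Fin k → Bool) → Bool) (A B : Finset (Fin k)) (hAB : Disjoint A B) (p q r : Bool) :
    f (fun j => if j ∈ A then p else if j ∈ B then q else r) =
      (if p then (if q then (if r then vl f univ else vl f (A ∪ B)) else
          (if r then vl f Bᶜ else vl f A))
        else (if q then (if r then vl f Aᶜ else vl f B) else
          (if r then vl f (A ∪ B)ᶜ else vl f ∅))) := by
  rw [Finset.disjoint_left] at hAB
  cases p <;> cases q <;> cases r <;> simp only [vl] <;> simp <;> congr 1 <;> funext j <;>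
    by_cases h : j ∈ A <;> by_cases h' : j ∈ B <;> simp [h, h'] <;> exact absurd h' (hAB h)

section main

variable [Fintype X] [Fintype Y]

/-- idempotent operations -/
lemma ncol_idem (f : (Fin k → Bool) → Bool) (hf : ¬ EssU f) (h0 : vl f ∅ = false)
    (h1 : vl f univ = true) (F : X → Y → Bool) (h : ClosedUnder f F) :
    ncol F ≤ 2 * (rM F).rank + 2 := by
  classical
  by_cases hA : ∃ A, vl f A = vl f Aᶜ
  · obtain ⟨A, hA⟩ := hA
    cases hv : vl f A
    · have := ncol_and F (by
        intro a b
        obtain ⟨c, hc⟩ := closed2 h A a b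
        refine ⟨c, fun y => ?_⟩
        rw [hc, eval2 f, ← hA, hv, h0, h1]
        cases F a y <;> cases F b y <;> rfl)
      omega
    · have := ncol_or F (by
        intro a b
        obtain ⟨c, hc⟩ := closed2 h A a b
        refine ⟨c, fun y => ?_⟩
        rw [hc, eval2 f, ← hA, hv, h0, h1]
        cases F a y <;> cases F b y <;> rfl)
      omega
  · push Not at hA
    have hcomp : ∀ A, vl f Aᶜ = !vl f A := by
      intro A
      have := hA A
      cases h2 : vl f A <;> cases h3 : vl f Aᶜ <;> simp [h2, h3] at this ⊢
    -- the operation given by a partition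
    have hg : ∀ A B : Finset (Fin k), Disjoint A B → ∀ a b c : X, ∃ d, ∀ y,
        F d y = (if F a y then (if F b y then (if F c y then true else !vl f (A ∪ B)ᶜ) else
          (if F c y then !vl f B else vl f A))
        else (if F b y then (if F c y then !vl f A else vl f B) else
          (if F c y then vl f (A ∪ B)ᶜ else false))) := by
      intro A B hAB a b c
      obtain ⟨d, hd⟩ := closed3 h A B a b c
      refine ⟨d, fun y => ?_⟩
      rw [hd, eval3 f A B hAB, h0, h1, hcomp A, hcomp B, hcomp (A ∪ B), Bool.not_not]
    by_cases hB : ∃ A B : Finset (Fin k), Disjoint A B ∧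
        ¬ ((vl f A = true ∧ vl f B = false ∧ vl f (A ∪ B)ᶜ = false) ∨
          (vl f A = false ∧ vl f B = true ∧ vl f (A ∪ B)ᶜ = false) ∨
          (vl f A = false ∧ vl f B = false ∧ vl f (A ∪ B)ᶜ = true))
    · obtain ⟨A, B, hAB, hv⟩ := hB
      have hg' := hg A B hAB
      cases hα : vl f A <;> cases hβ : vl f B <;> cases hγ : vl f (A ∪ B)ᶜ <;>
        simp only [hα, hβ, hγ] at hg' hv
      · -- majority
        refine ncol_maj F fun a b c => ?_
        obtain ⟨d, hd⟩ := hg' a b c
        refine ⟨d, fun y => ?_⟩
        rw [hd]
        cases F a y <;> cases F b y <;> cases F c y <;> rfl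
      · simp at hv
      · simp at hv
      · -- `A` is the middle
        refine ncol_maj F fun a b c => ?_
        obtain ⟨d, hd⟩ := hg' b a c
        obtain ⟨e, he⟩ := hg' d a c
        refine ⟨e, fun y => ?_⟩
        rw [he, hd]
        cases F a y <;> cases F b y <;> cases F c y <;> rfl
      · simp at hv
      · refine ncol_maj F fun a b c => ?_
        obtain ⟨d, hd⟩ := hg' a b c
        obtain ⟨e, he⟩ := hg' a d c
        refine ⟨e, fun y => ?_⟩
        rw [he, hd]
        cases F a y <;> cases F b y <;> cases F c y <;> rfl
      · refine ncol_maj F fun a b c => ?_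
        obtain ⟨d, hd⟩ := hg' a c b
        obtain ⟨e, he⟩ := hg' a c d
        refine ⟨e, fun y => ?_⟩
        rw [he, hd]
        cases F a y <;> cases F b y <;> cases F c y <;> rfl
      · refine ncol_minority F fun a b c => ?_
        obtain ⟨d, hd⟩ := hg' a b c
        refine ⟨d, fun y => ?_⟩
        rw [hd]
        cases F a y <;> cases F b y <;> cases F c y <;> rfl
    · exfalso
      push Not at hB
      -- a singleton
      have hsing : ∃ j, vl f {j} = true := by
        by_contra hcon
        push Not at hcon
        have hall : ∀ A : Finset (Fin k), vl f A = false := by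
          intro A
          induction A using Finset.induction_on with
          | empty => exact h0
          | insert j s hj ih =>
            have h2 := hB {j} s (by simpa using hj)
            have h3 : vl f {j} = false := by simpa using hcon j
            rw [h3, ih] at h2
            simp only [Bool.false_eq_true, false_and, and_false, true_and, false_or] at h2
            have h4 := hcomp ({j} ∪ s)
            rw [h2] at h4
            rw [Finset.insert_eq]
            simpa using h4.symm
        rw [hall univ] at h1
        exact absurd h1 (by decide)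
      obtain ⟨j, hj⟩ := hsing
      have hnot : ∀ A : Finset (Fin k), j ∉ A → vl f A = false := by
        intro A hjA
        have h2 := hB {j} A (by simpa using hjA)
        rw [hj] at h2
        cases h5 : vl f A
        · rfl
        · simp [h5] at h2
      have hval : ∀ A : Finset (Fin k), vl f A = decide (j ∈ A) := by
        intro A
        by_cases hjA : j ∈ A
        · have h2 := hnot Aᶜ (by simpa using hjA)
          rw [hcomp] at h2
          simp only [hjA, decide_true]
          simpa using h2
        · simp only [hjA, decide_false]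
          exact hnot A hjA
      apply hf
      refine Or.inr (Or.inl ⟨j, fun a => ?_⟩)
      have h2 := hval (univ.filter fun i => a i = true)
      have h3 : (fun i => decide (i ∈ univ.filter fun i => a i = true)) = a := by
        funext i
        simp
      unfold vl at h2
      rw [h3] at h2
      rw [h2]
      simp

/-- operations which are constant on the diagonal -/
lemma ncol_diag (f : (Fin k → Bool) → Bool) (hf : ¬ EssU f) (h01 : vl f ∅ = vl f univ)
    (F : X → Y → Bool) (h : ClosedUnder f F) : ncol F ≤ 2 * (rM F).rank + 2 := by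
  classical
  obtain ⟨a₀, ha₀⟩ : ∃ a, f a ≠ vl f univ := by
    by_contra hcon
    push Not at hcon
    exact hf (Or.inl ⟨_, hcon⟩)
  have hA : vl f (univ.filter fun i => a₀ i = true) = !vl f univ := by
    have h3 : (fun i => decide (i ∈ univ.filter fun i => a₀ i = true)) = a₀ := by
      funext i
      simp
    have h4 : vl f (univ.filter fun i => a₀ i = true) = f a₀ := by
      unfold vl
      rw [h3]
    rw [h4]
    cases h5 : f a₀ <;> cases h6 : vl f univ <;> simp [h5, h6] at ha₀ ⊢
  set A := univ.filter fun i => a₀ i = true
  have h2 := closed2 h A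
  cases hu : vl f univ <;> rw [hu] at h01 hA <;> cases hc : vl f Aᶜ
  · -- x and not y
    have := ncol_and F (by
      intro a b
      obtain ⟨c, hc'⟩ := h2 a b
      obtain ⟨d, hd⟩ := h2 a c
      refine ⟨d, fun y => ?_⟩
      rw [hd, eval2 f, hc', eval2 f, hu, h01, hA, hc]
      cases F a y <;> cases F b y <;> rfl)
    omega
  · refine ncol_minority F fun a b c => ?_
    obtain ⟨d, hd⟩ := h2 b c
    obtain ⟨e, he⟩ := h2 a d
    refine ⟨e, fun y => ?_⟩
    rw [he, eval2 f, hd, eval2 f, hu, h01, hA, hc]
    cases F a y <;> cases F b y <;> cases F c y <;> rfl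
  · refine ncol_minority F fun a b c => ?_
    obtain ⟨d, hd⟩ := h2 b c
    obtain ⟨e, he⟩ := h2 a d
    refine ⟨e, fun y => ?_⟩
    rw [he, eval2 f, hd, eval2 f, hu, h01, hA, hc]
    cases F a y <;> cases F b y <;> cases F c y <;> rfl
  · have := ncol_or F (by
      intro a b
      obtain ⟨c, hc'⟩ := h2 a b
      obtain ⟨d, hd⟩ := h2 c b
      refine ⟨d, fun y => ?_⟩
      rw [hd, eval2 f, hc', eval2 f, hu, h01, hA, hc]
      cases F a y <;> cases F b y <;> rfl)
    omega

/-- few columns if the rows are closed under an operation which is not essentially unary -/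
theorem ncol_closed (f : (Fin k → Bool) → Bool) (hf : ¬ EssU f) (F : X → Y → Bool)
    (h : ClosedUnder f F) : ncol F ≤ 2 * (rM F).rank + 2 := by
  classical
  cases h0 : vl f ∅ <;> cases h1 : vl f univ
  · exact ncol_diag f hf (h0.trans h1.symm) F h
  · exact ncol_idem f hf h0 h1 F h
  · apply ncol_idem (fun a => !f a) ?_ ?_ ?_ F ?_
    · rintro (⟨b, hb⟩ | ⟨j, hj⟩ | ⟨j, hj⟩)
      · exact hf (Or.inl ⟨!b, fun a => by rw [← hb a, Bool.not_not]⟩)
      · exact hf (Or.inr (Or.inr ⟨j, fun a => by rw [← hj a, Bool.not_not]⟩))
      · refine hf (Or.inr (Or.inl ⟨j, fun a => ?_⟩))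
        have := hj a
        cases h5 : f a <;> cases h6 : a j <;> simp [h5, h6] at this ⊢
    · simpa [vl] using h0
    · simpa [vl] using h1
    · intro x
      obtain ⟨x', hx'⟩ := h x
      obtain ⟨x'', hx''⟩ := closed2 h univ x' x'
      refine ⟨x'', fun y => ?_⟩
      rw [hx'', eval2 f, hx', h0, h1]
      cases hv : f (fun j => F (x j) y) <;> simp [hv]
  · exact ncol_diag f hf (h0.trans h1.symm) F h

end main

end Pool.Agent.Run7.h671
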