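import Pool.Agent.Run7.h284.SR.LogRank

set_option autoImplicit false

/-!
# Matrices which differ from a matrix of small sign rank in at most `k` entries of each row

An extension of the theorem of helper284 (`Run7/h284/SR/LogRank.lean`).
-/

namespace Pool.Agent.Run7.h671.SK

open Finset Matrix Pool.Agent.H630R2.LR Pool.Agent.R533.VC Run7.h284.SR

theorem rich_near {X Y : Type*} [Fintype X] [Fintype Y] (F f : X → Y → Bool) (s k : ℕ)
    (hk : 1 ≤ k)
    (hFf : ∀ x (T : Finset Y), (T.filter (fun y => F x y ≠ f x y)).card ≤ k)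
    (p : X → Fin s → ℝ) (q : Y → Fin s → ℝ)
    (ht : ∀ x y, f x y = true → 0 < p x ⬝ᵥ q y) (hf : ∀ x y, f x y = false → p x ⬝ᵥ q y < 0)
    (u : ℝ) (hu : 4 ≤ u) (hu2 : 24 * ((comm F).rank + 1 : ℝ) ≤ Real.exp u) (Q : ℕ)
    (hQ : 32 * (((comm F).rank + 1 : ℝ) * k) * Real.exp (7 * (u * Real.sqrt (2 * s))) ≤ Q) :
    Rich F Q := by
  classical
  intro A B hA hB
  obtain ⟨c, S, hS, T, hT, hST⟩ := rect f p q A B hA hB (fun x _ y _ => ht x y)
    (fun x _ y _ => hf x y) u hu
  rw [sum_errors] at hST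
  set R := (comm F).rank with hR
  set err : ℕ := ∑ x ∈ S, (T.filter (fun y => f x y ≠ c)).card with herr
  have hApos : (0 : ℝ) < A.card := by exact_mod_cast hA.card_pos
  have hBpos : (0 : ℝ) < B.card := by exact_mod_cast hB.card_pos
  set τ : ℝ := 7 * (u * Real.sqrt (2 * s)) with hτ
  have hexp : 0 < Real.exp (-τ) := Real.exp_pos _
  have hexp1 : Real.exp τ * Real.exp (-τ) = 1 := by
    rw [← Real.exp_add, add_neg_cancel, Real.exp_zero]
  have hpos : 0 < (S.card : ℝ) * T.card - Real.exp u / 3 * err :=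
    lt_of_le_of_lt (by positivity) hST
  have herr0 : (0 : ℝ) ≤ err := Nat.cast_nonneg _
  have hR0 : (0 : ℝ) ≤ R := Nat.cast_nonneg _
  have hk1 : (1 : ℝ) ≤ k := by exact_mod_cast hk
  have hST0 : Real.exp (-τ) / 2 * ((A.card : ℝ) * B.card) ≤ (S.card : ℝ) * T.card := by
    have h00 : 0 ≤ Real.exp u / 3 * (err : ℝ) := mul_nonneg (by positivity) herr0
    linarith
  have hSTpos : 0 < (S.card : ℝ) * T.card := by
    have h00 : 0 ≤ Real.exp u / 3 * (err : ℝ) := mul_nonneg (by positivity) herr0
    linarith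
  -- `|A| |B| ≤ 2 e^τ |S| |T|`
  have hAB : (A.card : ℝ) * B.card ≤ 2 * Real.exp τ * ((S.card : ℝ) * T.card) := by
    have h1 := mul_le_mul_of_nonneg_left hST0 (Real.exp_pos τ).le
    calc (A.card : ℝ) * B.card = 2 * ((Real.exp τ * Real.exp (-τ)) / 2 * (A.card * B.card)) := by
          rw [hexp1]; ring
      _ = 2 * (Real.exp τ * (Real.exp (-τ) / 2 * (A.card * B.card))) := by ring
      _ ≤ 2 * (Real.exp τ * ((S.card : ℝ) * T.card)) := by linarith
      _ = _ := by ring
  have hTne : T.Nonempty := by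
    rcases T.eq_empty_or_nonempty with h | h
    · exfalso
      rw [h, card_empty, Nat.cast_zero, mul_zero] at hSTpos
      exact lt_irrefl _ hSTpos
    · exact h
  have hexpτ : 0 < Real.exp τ := Real.exp_pos _
  by_cases hcase : 8 * (R + 1) * k ≤ T.card
  · -- few errors
    set err' : ℕ := ∑ x ∈ S, (T.filter (fun y => F x y ≠ c)).card with herr'
    have h0 : err' ≤ err + S.card * k := by
      rw [herr, herr', ← smul_eq_mul, ← sum_const, ← sum_add_distrib]
      refine sum_le_sum fun x _ => ?_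
      refine le_trans (card_le_card ?_) ((card_union_le _ _).trans
        (Nat.add_le_add le_rfl (hFf x T)))
      intro y hy
      rw [mem_filter] at hy
      rw [mem_union, mem_filter, mem_filter]
      by_cases h : f x y = c
      · right
        exact ⟨hy.1, fun h' => hy.2 (h'.trans h)⟩
      · left
        exact ⟨hy.1, h⟩
    have h1 : 4 * (R + 1) * err' ≤ S.card * T.card := by
      have h2 : 8 * (R + 1 : ℝ) * err ≤ (S.card : ℝ) * T.card := by
        have h3 : 24 * (R + 1 : ℝ) * err ≤ Real.exp u * err :=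
          mul_le_mul_of_nonneg_right hu2 herr0
        linarith
      have h2' : 8 * (R + 1) * err ≤ S.card * T.card := by exact_mod_cast h2
      have h3 : 8 * (R + 1) * (S.card * k) ≤ S.card * T.card := by
        calc 8 * (R + 1) * (S.card * k) = S.card * (8 * (R + 1) * k) := by ring
          _ ≤ S.card * T.card := Nat.mul_le_mul_left _ hcase
      have h4 : 4 * (R + 1) * err' ≤ 4 * (R + 1) * (err + S.card * k) :=
        Nat.mul_le_mul_left _ h0
      have h5 : 2 * (4 * (R + 1) * (err + S.card * k)) =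
          8 * (R + 1) * err + 8 * (R + 1) * (S.card * k) := by ring
      omega
    obtain ⟨A', hA', B', hB', hv, hc⟩ := few_errors F S T hTne c R (rk_le F S T)
      (by rw [← herr']; exact h1)
    refine ⟨A', hA'.trans hS, B', hB'.trans hT, c, hv, ?_⟩
    have h2 : (S.card : ℝ) * T.card ≤ 4 * (A'.card * B'.card) := by exact_mod_cast hc
    have h6 : (A.card : ℝ) * B.card ≤ Q * (A'.card * B'.card) := by
      calc (A.card : ℝ) * B.card ≤ 2 * Real.exp τ * ((S.card : ℝ) * T.card) := hAB
        _ ≤ 2 * Real.exp τ * (4 * (A'.card * B'.card)) :=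
            mul_le_mul_of_nonneg_left h2 (by positivity)
        _ = (8 * 1 * Real.exp τ) * (A'.card * B'.card) := by ring
        _ ≤ (32 * ((R + 1 : ℝ) * k) * Real.exp τ) * (A'.card * B'.card) := by
            refine mul_le_mul_of_nonneg_right (mul_le_mul_of_nonneg_right ?_ hexpτ.le)
              (by positivity)
            nlinarith
        _ ≤ Q * (A'.card * B'.card) := mul_le_mul_of_nonneg_right hQ (by positivity)
    exact_mod_cast h6
  · -- a single column
    push Not at hcase
    obtain ⟨y, hy⟩ := hTne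
    have hsplit := Finset.card_filter_add_card_filter_not (s := S) (fun x => F x y = true)
    obtain ⟨v, hv⟩ : ∃ v : Bool, S.card ≤ 2 * (S.filter (fun x => F x y = v)).card := by
      by_cases h : S.card ≤ 2 * (S.filter (fun x => F x y = true)).card
      · exact ⟨true, h⟩
      · refine ⟨false, ?_⟩
        have e : (S.filter (fun x => F x y = false)) = (S.filter (fun x => ¬ F x y = true)) := by
          apply filter_congr
          intro x _
          simp
        rw [e]
        omega
    refine ⟨S.filter (fun x => F x y = v), (filter_subset _ _).trans hS, {y},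
      (singleton_subset_iff.2 hy).trans hT, v, ?_, ?_⟩
    · intro x hx y' hy'
      rw [mem_singleton] at hy'
      rw [hy']
      exact (mem_filter.1 hx).2
    · rw [card_singleton, mul_one]
      set n := (S.filter (fun x => F x y = v)).card with hn
      have h2 : (S.card : ℝ) ≤ 2 * n := by exact_mod_cast hv
      have h3 : (T.card : ℝ) ≤ 8 * (R + 1) * k := by exact_mod_cast hcase.le
      have h6 : (A.card : ℝ) * B.card ≤ Q * n := by
        calc (A.card : ℝ) * B.card ≤ 2 * Real.exp τ * ((S.card : ℝ) * T.card) := hAB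
          _ ≤ 2 * Real.exp τ * ((2 * n) * (8 * (R + 1) * k)) := by
              refine mul_le_mul_of_nonneg_left ?_ (by positivity)
              exact mul_le_mul h2 h3 (Nat.cast_nonneg _) (by positivity)
          _ = (32 * ((R + 1 : ℝ) * k) * Real.exp τ) * n := by ring
          _ ≤ Q * n := mul_le_mul_of_nonneg_right hQ (Nat.cast_nonneg _)
      exact_mod_cast h6

/-- Protocols for matrices of rank `R` which differ in at most `k` entries of each row from a
matrix of sign rank at most `s`. -/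
theorem main {X Y : Type*} [Fintype X] [Fintype Y] (F f : X → Y → Bool) (s k : ℕ) (hs : 1 ≤ s)
    (hk : 1 ≤ k)
    (hFf : ∀ x (T : Finset Y), (T.filter (fun y => F x y ≠ f x y)).card ≤ k)
    (p : X → Fin s → ℝ) (q : Y → Fin s → ℝ)
    (ht : ∀ x y, f x y = true → 0 < p x ⬝ᵥ q y) (hf : ∀ x y, f x y = false → p x ⬝ᵥ q y < 0) :
    ∃ c : ℕ, Proto F c ∧
      (c : ℝ) ≤ 200 * Real.sqrt s * (1 + Real.logb 2 ((comm F).rank : ℝ)) ^ 2 +
        2 * (1 + Real.logb 2 ((comm F).rank : ℝ)) * Real.logb 2 k := by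
  set R := (comm F).rank with hR
  have hs1 : (1 : ℝ) ≤ s := by exact_mod_cast hs
  have hk1 : (1 : ℝ) ≤ k := by exact_mod_cast hk
  have hsq : 1 ≤ Real.sqrt s := by rwa [Real.one_le_sqrt]
  have hl : (0 : ℝ) ≤ Real.logb 2 (R : ℝ) := logb_nonneg R
  set L : ℝ := 1 + Real.logb 2 (R : ℝ) with hL
  have hL1 : 1 ≤ L := by linarith
  set u : ℝ := 4 + Real.log (R + 1) with hu
  have hlogR : 0 ≤ Real.log ((R : ℝ) + 1) := Real.log_nonneg (by
    have : (0 : ℝ) ≤ R := Nat.cast_nonneg _
    linarith)
  have hu4 : 4 ≤ u := by linarith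
  have hlog2 : Real.log 2 < 0.6931471808 := Real.log_two_lt_d9
  have hlog2' : 0.6931471803 < Real.log 2 := Real.log_two_gt_d9
  have hlogb : ∀ x : ℝ, Real.logb 2 x * Real.log 2 = Real.log x := by
    intro x
    rw [Real.logb, div_mul_cancel₀]
    linarith
  -- `log (R + 1) ≤ L log 2`
  have hlogR2 : Real.log ((R : ℝ) + 1) ≤ L * Real.log 2 := by
    rcases Nat.eq_zero_or_pos R with h | h
    · rw [h]
      simp only [Nat.cast_zero, zero_add, Real.log_one]
      positivity
    · have hR1 : (1 : ℝ) ≤ R := by exact_mod_cast h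
      rw [hL, add_mul, one_mul, hlogb, ← Real.log_mul (by norm_num) (by linarith)]
      exact Real.log_le_log (by linarith) (by linarith)
  have huL : u ≤ 4.7 * L := by nlinarith
  have hexpu : 24 * ((R : ℝ) + 1) ≤ Real.exp u := by
    rw [hu, Real.exp_add, Real.exp_log (by positivity)]
    have h1 : (24 : ℝ) ≤ Real.exp 4 := by
      have h3 := Real.add_one_le_exp (1 : ℝ)
      have h4 : Real.exp 4 = Real.exp 1 ^ 4 := by
        rw [← Real.exp_nat_mul]
        norm_num
      have h5 := Real.exp_one_gt_d9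
      rw [h4]
      have h6 : (2.7 : ℝ) ^ 4 ≤ Real.exp 1 ^ 4 := pow_le_pow_left₀ (by norm_num) (by linarith) 4
      norm_num at h6 ⊢
      linarith
    have h2 : (0 : ℝ) ≤ R := Nat.cast_nonneg _
    nlinarith
  have hsqrt2 : Real.sqrt (2 * s) ≤ 1.4143 * Real.sqrt s := by
    rw [Real.sqrt_mul (by norm_num)]
    refine mul_le_mul_of_nonneg_right ?_ (by linarith)
    rw [Real.sqrt_le_left (by norm_num)]
    norm_num
  set τ : ℝ := u * Real.sqrt (2 * s) with hτ
  have hτ0 : 0 ≤ τ := by positivity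
  have hτL : τ ≤ 6.65 * (Real.sqrt s * L) := by
    calc τ ≤ (4.7 * L) * (1.4143 * Real.sqrt s) :=
          mul_le_mul huL hsqrt2 (Real.sqrt_nonneg _) (by positivity)
      _ ≤ _ := by nlinarith [mul_pos (show (0 : ℝ) < L by linarith) (show (0 : ℝ) < Real.sqrt s by linarith)]
  set E : ℝ := 32 * (((R : ℝ) + 1) * k) * Real.exp (7 * τ) with hE
  have hR0 : (0 : ℝ) ≤ R := Nat.cast_nonneg _
  have hexp1 : 1 ≤ Real.exp (7 * τ) := Real.one_le_exp (by positivity)
  have hRk : 1 ≤ ((R : ℝ) + 1) * k := by nlinarith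
  have hE0 : 32 ≤ E := by
    rw [hE]
    nlinarith
  set Q : ℕ := ⌈E⌉₊ with hQ
  have hrich : Rich F Q := rich_near F f s k hk hFf p q ht hf u hu4 hexpu Q (Nat.le_ceil _)
  have hQle : (Q : ℝ) ≤ 33 / 32 * E := by
    have := Nat.ceil_lt_add_one (show 0 ≤ E by linarith)
    rw [← hQ] at this
    linarith
  have hQ1 : 1 ≤ Q := Nat.one_le_ceil_iff.2 (by linarith)
  have hQ1' : (1 : ℝ) ≤ Q := by exact_mod_cast hQ1
  have hnw := nw F Q hQ1 hrich (Nat.clog 2 (2 * R * Q + 2)) (Nat.le_pow_clog (by norm_num) _)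
  refine ⟨_, hnw, ?_⟩
  rw [← hR]
  set w := Nat.clog 2 (2 * R * Q + 2) with hw
  have hlogQ : Real.log ((2 * R * Q + 2 : ℕ) : ℝ) ≤ Real.log 2 + 2 * Real.log ((R : ℝ) + 1) +
      Real.log k + (Real.log 33 + 7 * τ) := by
    have e1 : ((2 * R * Q + 2 : ℕ) : ℝ) ≤ 2 * (R + 1) * ((33 * ((R + 1) * k)) * Real.exp (7 * τ)) := by
      push_cast
      have : 2 * ((R : ℝ) + 1) * Q ≤ 2 * (R + 1) * (33 / 32 * E) :=
        mul_le_mul_of_nonneg_left hQle (by positivity)
      have e2 : 33 / 32 * E = (33 * (((R : ℝ) + 1) * k)) * Real.exp (7 * τ) := by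
        rw [hE]
        ring
      rw [e2] at this
      nlinarith
    refine (Real.log_le_log (by positivity) e1).trans (le_of_eq ?_)
    rw [Real.log_mul (by positivity) (by positivity), Real.log_mul (by norm_num) (by positivity),
      Real.log_mul (by positivity) (by positivity), Real.log_mul (by norm_num) (by positivity),
      Real.log_mul (by positivity) (by positivity), Real.log_exp]
    ring
  have hlog33 : Real.log 33 ≤ 3.6 := by
    have h1 : Real.log 33 ≤ Real.log (2 ^ (5 : ℕ) * Real.exp (1/8)) := by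
      refine Real.log_le_log (by norm_num) ?_
      have := Real.add_one_le_exp (1 / 8 : ℝ)
      norm_num
      linarith
    rw [Real.log_mul (by norm_num) (by positivity), Real.log_exp, Real.log_pow] at h1
    push_cast at h1
    linarith
  have hlk : 0 ≤ Real.logb 2 (k : ℝ) := Real.logb_nonneg (by norm_num) hk1
  have hwL : (w : ℝ) ≤ 77 * (Real.sqrt s * L) + Real.logb 2 k := by
    have h1 := clog_le (2 * R * Q + 2)
    rw [← hw] at h1
    have h2 : Real.logb 2 ((2 * R * Q + 2 : ℕ) : ℝ) * Real.log 2 ≤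
        Real.log 2 + 2 * Real.log ((R : ℝ) + 1) + Real.log k + (Real.log 33 + 7 * τ) := by
      rw [hlogb]
      exact hlogQ
    have h3 : 1 ≤ Real.sqrt s * L := by nlinarith
    have h4 : L ≤ Real.sqrt s * L := by nlinarith
    have h5 : Real.logb 2 ((2 * R * Q + 2 : ℕ) : ℝ) * Real.log 2 ≤
        (76 * (Real.sqrt s * L) + Real.logb 2 k) * Real.log 2 := by
      set P : ℝ := Real.sqrt s * L with hP
      have a1 : Real.log ((R : ℝ) + 1) ≤ 0.6931471808 * P := by
        refine hlogR2.trans ?_
        have : L * Real.log 2 ≤ P * 0.6931471808 :=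
          mul_le_mul h4 hlog2.le (by linarith) (by linarith)
        linarith
      have a2 : 76 * P * 0.6931471803 ≤ 76 * P * Real.log 2 :=
        mul_le_mul_of_nonneg_left hlog2'.le (by linarith)
      have a3 := hlogb (k : ℝ)
      have a4 : (76 * P + Real.logb 2 (k : ℝ)) * Real.log 2 = 76 * P * Real.log 2 + Real.log k := by
        rw [add_mul, a3]
      rw [a4]
      linarith
    have h6 : Real.logb 2 ((2 * R * Q + 2 : ℕ) : ℝ) ≤ 76 * (Real.sqrt s * L) + Real.logb 2 k :=
      le_of_mul_le_mul_right h5 (by linarith)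
    linarith
  have hcl : (Nat.clog 2 R : ℝ) ≤ L := by
    have := clog_le R
    rw [hL]
    linarith
  have hsL : 1 ≤ Real.sqrt s * L := by nlinarith
  push_cast
  calc 2 * (w : ℝ) * (Nat.clog 2 R : ℝ) + 2 ≤
        2 * (77 * (Real.sqrt s * L) + Real.logb 2 k) * L + 2 := by
        have h1 : 2 * (w : ℝ) * (Nat.clog 2 R : ℝ) ≤
            2 * (77 * (Real.sqrt s * L) + Real.logb 2 k) * L :=
          mul_le_mul (by linarith) hcl (Nat.cast_nonneg _) (by positivity)
        linarith
    _ ≤ 200 * Real.sqrt s * L ^ 2 + 2 * L * Real.logb 2 k := by nlinarith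

end Pool.Agent.Run7.h671.SK
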